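import Pool.Agent.H654R3.Spectral

set_option autoImplicit false

/-!
The defect inequality and the block inequality.
-/

namespace Pool.Agent.H654R3

open Matrix

variable {n : Type*} [Fintype n] [DecidableEq n]

/-- The matrix `A² - H A² H`. -/
noncomputable def dmat (A H : Matrix n n ℂ) : Matrix n n ℂ := A ^ 2 - (H * A * H) ^ 2

omit [DecidableEq n] in
lemma hah_herm (A H : Matrix n n ℂ) (hA : A.IsHermitian) (hH : H.IsHermitian) :
    (H * A * H).IsHermitian := by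
  rw [IsHermitian, conjTranspose_mul, conjTranspose_mul, hA.eq, hH.eq, mul_assoc]

lemma dmat_herm (A H : Matrix n n ℂ) (hA : A.IsHermitian) (hH : H.IsHermitian) :
    (dmat A H).IsHermitian := (hA.pow 2).sub ((hah_herm A H hA hH).pow 2)

lemma two_defect (A H : Matrix n n ℂ) (hHH : H * H = 1) (a : ℕ) :
    trace ((A ^ 2 - (H * A * H) ^ 2) * ((A ^ 2) ^ (a + 1) - ((H * A * H) ^ 2) ^ (a + 1))) =
      2 * (trace (A ^ (2 * (a + 2))) - trace (A ^ 2 * (H * A ^ (2 * (a + 1)) * H))) := by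
  rw [← pow_mul, ← pow_mul, conj_pow A H hHH, conj_pow A H hHH]
  have e1 : (A ^ 2 - H * A ^ 2 * H) * (A ^ (2 * (a + 1)) - H * A ^ (2 * (a + 1)) * H) =
      A ^ 2 * A ^ (2 * (a + 1)) - A ^ 2 * (H * A ^ (2 * (a + 1)) * H)
      - H * A ^ 2 * H * A ^ (2 * (a + 1)) + H * A ^ 2 * (H * H) * A ^ (2 * (a + 1)) * H := by
    noncomm_ring
  rw [e1, hHH, mul_one, trace_add, trace_sub, trace_sub]
  have e2 : trace (H * A ^ 2 * H * A ^ (2 * (a + 1))) =
      trace (A ^ 2 * (H * A ^ (2 * (a + 1)) * H)) := by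
    calc trace (H * A ^ 2 * H * A ^ (2 * (a + 1))) =
        trace (H * (A ^ 2 * H * A ^ (2 * (a + 1)))) := by simp only [mul_assoc]
      _ = trace ((A ^ 2 * H * A ^ (2 * (a + 1))) * H) := trace_mul_comm _ _
      _ = _ := by simp only [mul_assoc]
  have e3 : trace (H * A ^ 2 * A ^ (2 * (a + 1)) * H) = trace (A ^ 2 * A ^ (2 * (a + 1))) := by
    calc trace (H * A ^ 2 * A ^ (2 * (a + 1)) * H) =
        trace ((H * A ^ 2 * A ^ (2 * (a + 1))) * H) := rfl
      _ = trace (H * (H * A ^ 2 * A ^ (2 * (a + 1)))) := trace_mul_comm _ _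
      _ = trace ((H * H) * (A ^ 2 * A ^ (2 * (a + 1)))) := by simp only [mul_assoc]
      _ = _ := by rw [hHH, one_mul]
  have e4 : A ^ 2 * A ^ (2 * (a + 1)) = A ^ (2 * (a + 2)) := by
    rw [← pow_add]; congr 1; ring
  rw [e2, e3, e4]
  ring

/-- The defect controls `∑ |d_i|^{a+2}`. -/
theorem defect_lower (A H : Matrix n n ℂ) (hA : A.IsHermitian) (hH : H.IsHermitian)
    (hHH : H * H = 1) (a : ℕ) :
    ∑ i, |(dmat_herm A H hA hH).eigenvalues i| ^ (a + 2) ≤
      4 * 2 ^ a * ((trace (A ^ (2 * (a + 2)))).re - (trace ((H * A) ^ (2 * (a + 2)))).re) := by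
  have h1 := schatten_lower A (H * A * H) hA (hah_herm A H hA hH) (dmat_herm A H hA hH) a
  have h2 := two_defect A H hHH a
  have h3 := congrArg Complex.re h2
  have h5 : (2 * (trace (A ^ (2 * (a + 2))) - trace (A ^ 2 * (H * A ^ (2 * (a + 1)) * H)))).re =
      2 * ((trace (A ^ (2 * (a + 2)))).re - (trace (A ^ 2 * (H * A ^ (2 * (a + 1)) * H))).re) := by
    simp
  rw [h5] at h3
  have h4 := chain_main A H hA hH hHH a
  refine h1.trans ?_
  rw [h3]
  set x := (trace (A ^ (2 * (a + 2)))).re - (trace (A ^ 2 * (H * A ^ (2 * (a + 1)) * H))).re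
  set y := (trace (A ^ (2 * (a + 2)))).re - (trace ((H * A) ^ (2 * (a + 2)))).re
  have h6 : x ≤ 2 ^ a * y := by
    have : (2 : ℝ) ^ a * ((1 / 2 : ℝ) ^ a * x) ≤ 2 ^ a * y :=
      mul_le_mul_of_nonneg_left h4 (by positivity)
    rwa [← mul_assoc, ← mul_pow, mul_one_div_cancel (two_ne_zero), one_pow, one_mul] at this
  linarith

/-- Local density of `|D|^k`. -/
noncomputable def rho (D : Matrix n n ℂ) (hD : D.IsHermitian) (k : ℕ) (q : n) : ℝ :=
  ∑ i, ‖(hD.eigenvectorUnitary : Matrix n n ℂ) q i‖ ^ 2 * |hD.eigenvalues i| ^ k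

lemma rho_nonneg (D : Matrix n n ℂ) (hD : D.IsHermitian) (k : ℕ) (q : n) : 0 ≤ rho D hD k q := by
  unfold rho; positivity

lemma sum_rho (D : Matrix n n ℂ) (hD : D.IsHermitian) (k : ℕ) :
    ∑ q, rho D hD k q = ∑ i, |hD.eigenvalues i| ^ k := by
  unfold rho
  rw [Finset.sum_comm]
  refine Finset.sum_congr rfl fun i _ => ?_
  rw [← Finset.sum_mul]
  have hVV' : star (hD.eigenvectorUnitary : Matrix n n ℂ) *
      (hD.eigenvectorUnitary : Matrix n n ℂ) = 1 :=
    Unitary.star_mul_self_of_mem hD.eigenvectorUnitary.2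
  have h := congrFun (congrFun hVV' i) i
  rw [mul_apply, one_apply_eq] at h
  have h2 : ((∑ q, ‖(hD.eigenvectorUnitary : Matrix n n ℂ) q i‖ ^ 2 : ℝ) : ℂ) = 1 := by
    rw [← h]
    push_cast
    refine Finset.sum_congr rfl fun q _ => ?_
    rw [star_apply, Complex.star_def, mul_comm, Complex.mul_conj, Complex.normSq_eq_norm_sq]
    push_cast; rfl
  have h3 : (∑ q, ‖(hD.eigenvectorUnitary : Matrix n n ℂ) q i‖ ^ 2 : ℝ) = 1 := by
    exact_mod_cast h2
  rw [h3, one_mul]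

/-- Block inequality. -/
theorem block_ineq (D : Matrix n n ℂ) (hD : D.IsHermitian) (a : ℕ) (E : Finset n) :
    (∑ q ∈ E, ((D ^ 2) q q).re) ^ (a + 2) ≤
      (E.card : ℝ) ^ a * (∑ q ∈ E, rho D hD (a + 2) q) ^ 2 := by
  rcases E.eq_empty_or_nonempty with rfl | hE
  · simp
  have hc : (0 : ℝ) < E.card := by exact_mod_cast hE.card_pos
  set V := (hD.eigenvectorUnitary : Matrix n n ℂ) with hV
  set c : ℝ := (E.card : ℝ) with hcdef
  have hdiag : ∀ q, ((D ^ 2) q q).re = ∑ i, ‖V q i‖ ^ 2 * hD.eigenvalues i ^ 2 := by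
    intro q
    rw [diag_pow_eq D hD, Complex.ofReal_re]
  have hjen := Real.rpow_arith_mean_le_arith_mean_rpow (E ×ˢ (Finset.univ : Finset n))
    (fun x => ‖V x.1 x.2‖ ^ 2 / c) (fun x => hD.eigenvalues x.2 ^ 2)
    (fun x _ => by positivity)
    (by
      rw [Finset.sum_product]
      simp only [← Finset.sum_div]
      have : ∀ q ∈ E, ∑ i, ‖V q i‖ ^ 2 = 1 := fun q _ => sum_norm_sq_unitary D hD q
      rw [Finset.sum_congr rfl this, Finset.sum_const, nsmul_eq_mul, mul_one, ← hcdef,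
        div_self hc.ne'])
    (fun x _ => by positivity) (p := ((a + 2 : ℕ) : ℝ) / 2) (by push_cast; linarith [(Nat.cast_nonneg a : (0:ℝ) ≤ a)])
  rw [Finset.sum_product, Finset.sum_product] at hjen
  have e1 : ∑ x ∈ E, ∑ y, ‖V x y‖ ^ 2 / c * hD.eigenvalues y ^ 2 =
      (∑ q ∈ E, ((D ^ 2) q q).re) / c := by
    rw [Finset.sum_div]
    refine Finset.sum_congr rfl fun q _ => ?_
    rw [hdiag, Finset.sum_div]
    exact Finset.sum_congr rfl fun i _ => by ring
  have e2 : ∑ x ∈ E, ∑ y, ‖V x y‖ ^ 2 / c * (hD.eigenvalues y ^ 2) ^ (((a + 2 : ℕ) : ℝ) / 2) =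
      (∑ q ∈ E, rho D hD (a + 2) q) / c := by
    rw [Finset.sum_div]
    refine Finset.sum_congr rfl fun q _ => ?_
    rw [rho, Finset.sum_div]
    refine Finset.sum_congr rfl fun i _ => ?_
    have : (hD.eigenvalues i ^ 2) ^ (((a + 2 : ℕ) : ℝ) / 2) = |hD.eigenvalues i| ^ (a + 2) := by
      rw [← sq_abs, ← Real.rpow_natCast (|hD.eigenvalues i|) 2, ← Real.rpow_mul (abs_nonneg _),
        ← Real.rpow_natCast]
      congr 1
      push_cast; ring
    rw [this]
    ring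
  rw [e1, e2] at hjen
  set X := ∑ q ∈ E, ((D ^ 2) q q).re with hX
  set Y := ∑ q ∈ E, rho D hD (a + 2) q with hY
  have hX0 : 0 ≤ X := Finset.sum_nonneg fun q _ => by rw [hdiag]; positivity
  have hXc : 0 ≤ X / c := by positivity
  have hsq : ((X / c) ^ (((a + 2 : ℕ) : ℝ) / 2)) ^ 2 ≤ (Y / c) ^ 2 :=
    pow_le_pow_left₀ (Real.rpow_nonneg hXc _) hjen 2
  have e3 : ((X / c) ^ (((a + 2 : ℕ) : ℝ) / 2)) ^ 2 = (X / c) ^ (a + 2) := by
    rw [← Real.rpow_natCast ((X / c) ^ (((a + 2 : ℕ) : ℝ) / 2)) 2, ← Real.rpow_mul hXc,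
      ← Real.rpow_natCast]
    congr 1
    push_cast; ring
  rw [e3, div_pow, div_pow, div_le_div_iff₀ (by positivity) (by positivity)] at hsq
  have e4 : c ^ (a + 2) = c ^ a * c ^ 2 := by rw [pow_add]
  rw [e4] at hsq
  have hc2 : 0 < c ^ 2 := by positivity
  have : X ^ (a + 2) * c ^ 2 ≤ (c ^ a * Y ^ 2) * c ^ 2 := by linarith
  exact le_of_mul_le_mul_right this hc2

end Pool.Agent.H654R3
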