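import Mathlib

set_option autoImplicit false

/-!
Expansion of the trace of a matrix power over closed paths, and the bijection between
closed integer paths and (increment vectors, starting point).
-/

namespace Pool.Agent.H654R3

open Matrix

lemma pow_apply_paths {ι R : Type*} [Fintype ι] [DecidableEq ι] [CommRing R]
    (X : Matrix ι ι R) (m : ℕ) (b : ι) (f : (Fin (m + 1) → ι) → R)
    (hf : ∀ p, f p = if p (Fin.last m) = b then ∏ i : Fin m, X (p i.castSucc) (p i.succ) else 0)
    (a : ι) :
    (X ^ m) a b = ∑ p : Fin (m + 1) → ι, if p 0 = a then f p else 0 := by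
  induction m generalizing a b with
  | zero =>
    simp only [hf, pow_zero, Matrix.one_apply, Finset.univ_eq_empty, Finset.prod_empty]
    rw [Fintype.sum_eq_single (fun _ => a)]
    · simp
    · intro p hp
      rw [if_neg]
      intro h
      apply hp
      funext i
      rw [← h]; congr 1; exact Fin.fin_one_eq_zero i
  | succ m ih =>
    rw [pow_succ', Matrix.mul_apply]
    have key : ∀ c : ι, (X ^ m) c b = ∑ p : Fin (m + 1) → ι, if p 0 = c then
        (if p (Fin.last m) = b then ∏ i : Fin m, X (p i.castSucc) (p i.succ) else 0) else 0 :=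
      fun c => ih b _ (fun p => rfl) c
    simp only [key, hf]
    have hcons : ∀ F : (Fin (m + 1 + 1) → ι) → R, ∑ p : Fin (m + 1 + 1) → ι, F p =
        ∑ c : ι, ∑ q : Fin (m + 1) → ι, F (Fin.cons c q : Fin (m + 1 + 1) → ι) := by
      intro F
      rw [← Fintype.sum_prod_type']
      exact (Fintype.sum_equiv (Fin.consEquiv (fun _ : Fin (m + 2) => ι)) _ _ (fun x => rfl)).symm
    rw [hcons]
    simp only [Fin.cons_zero]
    have this : ∀ c : ι, X a c * (∑ p : Fin (m + 1) → ι, if p 0 = c then
          (if p (Fin.last m) = b then ∏ i : Fin m, X (p i.castSucc) (p i.succ) else 0) else 0)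
          = ∑ p : Fin (m + 1) → ι, if p 0 = c then X a (p 0) *
          (if p (Fin.last m) = b then ∏ i : Fin m, X (p i.castSucc) (p i.succ) else 0) else 0 := by
      intro c
      rw [Finset.mul_sum]
      refine Finset.sum_congr rfl fun p _ => ?_
      split_ifs with h1 h2
      · rw [h1]
      · rw [h1]
      · simp
    rw [Finset.sum_congr rfl (fun c _ => this c), Finset.sum_comm]
    symm
    rw [Fintype.sum_eq_single a (fun c hc => by simp [hc])]
    refine Finset.sum_congr rfl fun p _ => ?_
    rw [Finset.sum_ite_eq, if_pos (Finset.mem_univ _), if_pos rfl]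
    have hl : (Fin.cons a p : Fin (m + 1 + 1) → ι) (Fin.last (m + 1)) = p (Fin.last m) := by
      rw [← Fin.succ_last, Fin.cons_succ]
    rw [hl]
    split_ifs with h
    · rw [Fin.prod_univ_succ]
      simp only [Fin.castSucc_zero, Fin.cons_zero, Fin.cons_succ, Fin.castSucc_succ]
    · simp

/-- Trace of a power as a sum over closed paths. -/
theorem trace_pow_paths {ι R : Type*} [Fintype ι] [DecidableEq ι] [CommRing R]
    (X : Matrix ι ι R) (m : ℕ) :
    trace (X ^ (m + 1)) = ∑ p : Fin (m + 1) → ι, ∏ i : Fin (m + 1), X (p i) (p (i + 1)) := by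
  simp only [trace, diag_apply, pow_succ, Matrix.mul_apply]
  have key : ∀ a c : ι, (X ^ m) a c = ∑ p : Fin (m + 1) → ι, if p 0 = a then
        (if p (Fin.last m) = c then ∏ i : Fin m, X (p i.castSucc) (p i.succ) else 0) else 0 :=
      fun a c => pow_apply_paths X m c _ (fun p => rfl) a
  simp only [key]
  have h2 : ∀ a c : ι, (∑ p : Fin (m + 1) → ι, if p 0 = a then
        (if p (Fin.last m) = c then ∏ i : Fin m, X (p i.castSucc) (p i.succ) else 0) else 0) *
        X c a = ∑ p : Fin (m + 1) → ι, if p 0 = a then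
        (if p (Fin.last m) = c then (∏ i : Fin m, X (p i.castSucc) (p i.succ)) *
          X (p (Fin.last m)) (p 0) else 0) else 0 := by
    intro a c
    rw [Finset.sum_mul]
    refine Finset.sum_congr rfl fun p _ => ?_
    split_ifs with h1 h2
    · rw [h1, h2]
    · simp
    · simp
  simp only [h2]
  have h3 : ∀ a : ι, (∑ c : ι, ∑ p : Fin (m + 1) → ι, if p 0 = a then
        (if p (Fin.last m) = c then (∏ i : Fin m, X (p i.castSucc) (p i.succ)) *
          X (p (Fin.last m)) (p 0) else 0) else 0) =
      ∑ p : Fin (m + 1) → ι, if p 0 = a then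
        (∏ i : Fin m, X (p i.castSucc) (p i.succ)) * X (p (Fin.last m)) (p 0) else 0 := by
    intro a
    rw [Finset.sum_comm]
    refine Finset.sum_congr rfl fun p _ => ?_
    split_ifs with h1
    · rw [Finset.sum_ite_eq]; simp
    · simp
  simp only [h3]
  rw [Finset.sum_comm]
  refine Finset.sum_congr rfl fun p _ => ?_
  rw [Finset.sum_ite_eq]
  simp only [Finset.mem_univ, if_true]
  rw [Fin.prod_univ_castSucc]
  simp only [Fin.coeSucc_eq_succ, Fin.last_add_one]

/-- Path attached to an increment vector and a starting point. -/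
def toPath {m : ℕ} (j : Fin m → ℤ) (n : ℤ) : Fin m → ℤ :=
  fun i => n + ∑ l ∈ Finset.Iio i, j l

lemma toPath_zero {m : ℕ} (j : Fin (m + 1) → ℤ) (n : ℤ) : toPath j n 0 = n := by
  have : Finset.Iio (0 : Fin (m + 1)) = ∅ := by
    ext x; simp
  simp [toPath, this]

lemma toPath_add_one {m : ℕ} (j : Fin (m + 1) → ℤ) (hj : ∑ i, j i = 0) (n : ℤ)
    (i : Fin (m + 1)) : toPath j n (i + 1) = toPath j n i + j i := by
  induction i using Fin.lastCases with
  | last =>
    rw [Fin.last_add_one, toPath_zero]
    have h : (Finset.univ : Finset (Fin (m + 1))) = insert (Fin.last m) (Finset.Iio (Fin.last m)) := by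
      ext x
      simp only [Finset.mem_univ, Finset.mem_insert, Finset.mem_Iio, true_iff]
      exact (Fin.le_last x).eq_or_lt
    rw [h, Finset.sum_insert (by simp)] at hj
    simp only [toPath]
    linarith
  | cast i =>
    rw [Fin.coeSucc_eq_succ]
    have h : Finset.Iio i.succ = insert i.castSucc (Finset.Iio i.castSucc) := by
      ext x
      simp only [Finset.mem_insert, Finset.mem_Iio]
      rw [Fin.lt_def, Fin.lt_def, Fin.ext_iff]
      simp only [Fin.val_succ, Fin.val_castSucc]
      omega
    simp only [toPath]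
    rw [h, Finset.sum_insert (by simp)]
    ring

lemma path_ext {m : ℕ} {p q : Fin (m + 1) → ℤ} (h0 : p 0 = q 0)
    (h : ∀ i, p (i + 1) - p i = q (i + 1) - q i) : p = q := by
  funext i
  induction i using Fin.induction with
  | zero => exact h0
  | succ i ih =>
    have := h i.castSucc
    rw [Fin.coeSucc_eq_succ] at this
    linarith

/-- Closed integer paths are the same as (increment vector of sum zero, starting point). -/
def pathEquiv (m : ℕ) :
    ({j : Fin (m + 1) → ℤ // ∑ i, j i = 0} × ℤ) ≃ (Fin (m + 1) → ℤ) where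
  toFun x := toPath x.1.1 x.2
  invFun p := (⟨fun i => p (i + 1) - p i, by
    rw [Finset.sum_sub_distrib, sub_eq_zero]
    exact Equiv.sum_comp (Equiv.addRight (1 : Fin (m + 1))) p⟩, p 0)
  left_inv := by
    rintro ⟨⟨j, hj⟩, n⟩
    refine Prod.ext (Subtype.ext ?_) ?_
    · funext i
      simp only [toPath_add_one j hj n i]
      ring
    · exact toPath_zero j n
  right_inv := by
    intro p
    have hsum : ∑ i, (fun i => p (i + 1) - p i) i = 0 := by
      rw [Finset.sum_sub_distrib, sub_eq_zero]
      exact Equiv.sum_comp (Equiv.addRight (1 : Fin (m + 1))) p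
    apply path_ext
    · exact toPath_zero _ _
    · intro i
      have := toPath_add_one (fun i => p (i + 1) - p i) hsum (p 0) i
      change toPath (fun i => p (i + 1) - p i) (p 0) (i + 1) -
        toPath (fun i => p (i + 1) - p i) (p 0) i = _
      rw [this]
      ring

lemma abs_toPath_sub_le {m : ℕ} (j : Fin m → ℤ) (n : ℤ) (M : ℤ) (hM : 0 ≤ M)
    (hj : ∀ i, |j i| ≤ M) (i : Fin m) : |toPath j n i - n| ≤ m * M := by
  have : toPath j n i - n = ∑ l ∈ Finset.Iio i, j l := by simp [toPath]
  rw [this]
  calc |∑ l ∈ Finset.Iio i, j l| ≤ ∑ l ∈ Finset.Iio i, |j l| := Finset.abs_sum_le_sum_abs _ _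
    _ ≤ ∑ l ∈ Finset.Iio i, M := Finset.sum_le_sum fun l _ => hj l
    _ ≤ ∑ l : Fin m, M := Finset.sum_le_sum_of_subset_of_nonneg (Finset.subset_univ _)
        (fun _ _ _ => hM)
    _ = m * M := by simp

/-- If the starting point is far away, the product along the path is nonnegative. -/
lemma prod_toPath_nonneg {m : ℕ} (hm : Even m) (j : Fin m → ℤ) (n : ℤ) (M : ℤ) (hM : 0 ≤ M)
    (hj : ∀ i, |j i| ≤ M) (hn : m * M < |n|) : 0 ≤ ∏ i, toPath j n i := by
  have hb := abs_toPath_sub_le j n M hM hj
  rcases le_or_gt 0 n with h | h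
  · rw [abs_of_nonneg h] at hn
    refine Finset.prod_nonneg fun i _ => ?_
    have := abs_le.mp (hb i)
    linarith [this.1]
  · rw [abs_of_neg h] at hn
    have : ∏ i, toPath j n i = ∏ i, -toPath j n i := by
      rw [Finset.prod_neg]
      simp [hm.neg_one_pow]
    rw [this]
    refine Finset.prod_nonneg fun i _ => ?_
    have := abs_le.mp (hb i)
    linarith [this.2]

end Pool.Agent.H654R3
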