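import Pool.Agent.H654R3.Chessboard
import Pool.Agent.H654R3.Paths

set_option autoImplicit false

/-!
Nonnegativity of the zeta-invariant of a real trigonometric polynomial.
-/

namespace Pool.Agent.H654R3

open Matrix

/-- The integers of absolute value at most `N`. -/
abbrev Box (N : ℕ) := {x : ℤ // x ∈ Finset.Icc (-(N : ℤ)) N}

/-- Truncation of `|D|^{1/2} a |D|^{1/2}`. -/
noncomputable def symA (c : ℤ → ℂ) (N : ℕ) : Matrix (Box N) (Box N) ℂ :=
  Matrix.of fun p q => (Real.sqrt |((p : ℤ) : ℝ)| : ℂ) * c (q - p) * (Real.sqrt |((q : ℤ) : ℝ)| : ℂ)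

/-- The sign operator. -/
noncomputable def sgnH (N : ℕ) : Matrix (Box N) (Box N) ℂ :=
  Matrix.diagonal fun p => if (p : ℤ) < 0 then -1 else 1

lemma symA_herm (c : ℤ → ℂ) (hc : ∀ n, star (c n) = c (-n)) (N : ℕ) : (symA c N).IsHermitian := by
  ext p q
  simp only [symA, conjTranspose_apply, of_apply, star_mul', hc, neg_sub]
  rw [Complex.star_def, Complex.conj_ofReal, Complex.conj_ofReal]
  ring

lemma sgnH_herm (N : ℕ) : (sgnH N).IsHermitian := by
  unfold sgnH
  rw [IsHermitian, diagonal_conjTranspose]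
  congr 1
  funext p
  simp only [Pi.star_apply]
  split_ifs <;> simp

lemma sgnH_sq (N : ℕ) : sgnH N * sgnH N = 1 := by
  unfold sgnH
  rw [diagonal_mul_diagonal, ← diagonal_one]
  congr 1
  funext p
  split_ifs <;> simp

/-- The summand attached to a closed path. -/
noncomputable def pathTerm {m : ℕ} (c : ℤ → ℂ) (p : Fin (m + 1) → ℤ) : ℂ :=
  ((|∏ i, p i| - ∏ i, p i : ℤ) : ℂ) * ∏ i, c (p (i + 1) - p i)

lemma prod_symA (c : ℤ → ℂ) (N m : ℕ) (p : Fin (m + 1) → Box N) :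
    ∏ i, symA c N (p i) (p (i + 1)) =
      ((|∏ i, (p i : ℤ)| : ℤ) : ℂ) * ∏ i, c ((p (i + 1) : ℤ) - p i) := by
  simp only [symA, of_apply]
  rw [Finset.prod_mul_distrib, Finset.prod_mul_distrib]
  have h1 : ∏ i : Fin (m + 1), (Real.sqrt |((p (i + 1) : ℤ) : ℝ)| : ℂ) =
      ∏ i : Fin (m + 1), (Real.sqrt |((p i : ℤ) : ℝ)| : ℂ) :=
    Equiv.prod_comp (Equiv.addRight (1 : Fin (m + 1)))
      (fun i => (Real.sqrt |((p i : ℤ) : ℝ)| : ℂ))
  rw [h1]
  have h2 : (∏ i : Fin (m + 1), (Real.sqrt |((p i : ℤ) : ℝ)| : ℂ)) *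
      (∏ i : Fin (m + 1), (Real.sqrt |((p i : ℤ) : ℝ)| : ℂ)) =
      ((|∏ i, (p i : ℤ)| : ℤ) : ℂ) := by
    rw [← Finset.prod_mul_distrib, Finset.abs_prod]
    push_cast
    refine Finset.prod_congr rfl fun i _ => ?_
    rw [← Complex.ofReal_mul, Real.mul_self_sqrt (abs_nonneg _)]
    rw [← Int.cast_abs]
    norm_cast
  rw [mul_right_comm, h2]

lemma prod_sgn_symA (c : ℤ → ℂ) (N m : ℕ) (p : Fin (m + 1) → Box N) :
    ∏ i, (sgnH N * symA c N) (p i) (p (i + 1)) =
      ((∏ i, (p i : ℤ) : ℤ) : ℂ) * ∏ i, c ((p (i + 1) : ℤ) - p i) := by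
  have h : ∀ i, (sgnH N * symA c N) (p i) (p (i + 1)) =
      (if (p i : ℤ) < 0 then -1 else 1) * symA c N (p i) (p (i + 1)) := by
    intro i
    unfold sgnH
    rw [diagonal_mul]
  simp only [h]
  rw [Finset.prod_mul_distrib, prod_symA, ← mul_assoc]
  congr 1
  rw [Finset.abs_prod]
  push_cast
  rw [← Finset.prod_mul_distrib]
  refine Finset.prod_congr rfl fun i _ => ?_
  split_ifs with hi
  · rw [abs_of_neg hi]; push_cast; ring
  · rw [abs_of_nonneg (not_lt.mp hi)]; ring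

lemma trace_diff (c : ℤ → ℂ) (N m : ℕ) :
    trace ((symA c N) ^ (m + 1)) - trace ((sgnH N * symA c N) ^ (m + 1)) =
      ∑ p : Fin (m + 1) → Box N, pathTerm c (fun i => (p i : ℤ)) := by
  rw [trace_pow_paths, trace_pow_paths, ← Finset.sum_sub_distrib]
  refine Finset.sum_congr rfl fun p _ => ?_
  rw [prod_symA, prod_sgn_symA, pathTerm, ← sub_mul]
  push_cast
  rfl

open scoped ComplexOrder in
lemma sum_pathTerm_nonneg (c : ℤ → ℂ) (hc : ∀ n, star (c n) = c (-n)) (N m : ℕ)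
    (hm : Even (m + 1)) :
    (0 : ℂ) ≤ ∑ p : Fin (m + 1) → Box N, pathTerm c (fun i => (p i : ℤ)) := by
  rw [← trace_diff]
  obtain ⟨k, hk⟩ := hm
  rw [hk, ← two_mul]
  exact trace_pow_sub_nonneg _ _ (symA_herm c hc N) (sgnH_herm N) (sgnH_sq N) k

/-- The increments bounded by `M`. -/
noncomputable def incBox (m M : ℕ) : Finset {j : Fin (m + 1) → ℤ // ∑ i, j i = 0} :=
  (Fintype.piFinset (fun _ : Fin (m + 1) => Finset.Icc (-(M : ℤ)) M)).subtype
    (fun j => ∑ i, j i = 0)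

lemma mem_incBox {m M : ℕ} (j : {j : Fin (m + 1) → ℤ // ∑ i, j i = 0}) :
    j ∈ incBox m M ↔ ∀ i, |j.1 i| ≤ M := by
  simp only [incBox, Finset.mem_subtype, Fintype.mem_piFinset, Finset.mem_Icc, abs_le]

lemma pathTerm_toPath {m : ℕ} (c : ℤ → ℂ) (j : {j : Fin (m + 1) → ℤ // ∑ i, j i = 0}) (n : ℤ) :
    pathTerm c (toPath j.1 n) =
      ((|∏ i, toPath j.1 n i| - ∏ i, toPath j.1 n i : ℤ) : ℂ) * ∏ i, c (j.1 i) := by
  unfold pathTerm
  congr 1
  refine Finset.prod_congr rfl fun i _ => ?_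
  rw [toPath_add_one j.1 j.2 n i, add_sub_cancel_left]

/-- `N_j` as a sum over a box. -/
lemma finsum_eq_box {m M : ℕ} (hm : Even m) (j : Fin m → ℤ)
    (hj : ∀ i, |j i| ≤ (M : ℤ)) :
    (∑ᶠ n : ℤ, (|∏ i, toPath j n i| - ∏ i, toPath j n i)) =
      ∑ n ∈ Finset.Icc (-((m * M : ℕ) : ℤ)) ((m * M : ℕ) : ℤ),
        (|∏ i, toPath j n i| - ∏ i, toPath j n i) := by
  apply finsum_eq_sum_of_support_subset
  intro n hn
  rw [Function.mem_support] at hn
  simp only [Finset.coe_Icc, Set.mem_Icc]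
  rw [← abs_le]
  by_contra hlt
  push Not at hlt
  apply hn
  have := prod_toPath_nonneg hm j n M (by positivity) hj (by push_cast at hlt; exact hlt)
  rw [abs_of_nonneg this, sub_self]

open scoped ComplexOrder in
/-- Nonnegativity of the zeta-invariant of a real trigonometric polynomial. -/
theorem zeta_trig_nonneg (c : ℤ → ℂ) (hc : ∀ n, star (c n) = c (-n)) (M m : ℕ)
    (hM : ∀ n : ℤ, (M : ℤ) < |n| → c n = 0) (hm : Even (m + 1)) :
    (0 : ℂ) ≤ ∑ j ∈ incBox m M,
      ((∑ᶠ n : ℤ, (|∏ i, toPath j.1 n i| - ∏ i, toPath j.1 n i) : ℤ) : ℂ) * ∏ i, c (j.1 i) := by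
  set R : ℕ := (m + 1) * M with hR
  set N : ℕ := 2 * R with hN
  have h1 : ∑ j ∈ incBox m M,
      ((∑ᶠ n : ℤ, (|∏ i, toPath j.1 n i| - ∏ i, toPath j.1 n i) : ℤ) : ℂ) * ∏ i, c (j.1 i) =
      ∑ x ∈ incBox m M ×ˢ Finset.Icc (-(R : ℤ)) (R : ℤ), pathTerm c (pathEquiv m x) := by
    rw [Finset.sum_product]
    refine Finset.sum_congr rfl fun j hj => ?_
    rw [finsum_eq_box hm j.1 ((mem_incBox j).mp hj)]
    push_cast
    rw [Finset.sum_mul]
    refine Finset.sum_congr rfl fun n _ => ?_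
    have := pathTerm_toPath c j n
    push_cast at this
    rw [← this]
    rfl
  have h2 : ∑ x ∈ incBox m M ×ˢ Finset.Icc (-(R : ℤ)) (R : ℤ), pathTerm c (pathEquiv m x) =
      ∑' x, pathTerm c (pathEquiv m x) := by
    symm
    apply tsum_eq_sum
    rintro ⟨j, n⟩ hx
    rw [Finset.mem_product, not_and_or] at hx
    change pathTerm c (toPath j.1 n) = 0
    rw [pathTerm_toPath]
    by_cases hj : j ∈ incBox m M
    · have hn : n ∉ Finset.Icc (-(R : ℤ)) (R : ℤ) := by tauto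
      rw [Finset.mem_Icc, ← abs_le, not_le] at hn
      have := prod_toPath_nonneg hm j.1 n M (by positivity) ((mem_incBox j).mp hj)
        (by rw [hR] at hn; push_cast at hn ⊢; exact hn)
      rw [abs_of_nonneg this, sub_self]
      simp
    · rw [mem_incBox] at hj
      push Not at hj
      obtain ⟨i, hi⟩ := hj
      have h0 : ∏ i, c (j.1 i) = 0 := Finset.prod_eq_zero (Finset.mem_univ i) (hM _ hi)
      rw [h0, mul_zero]
  have h3 : ∑' x, pathTerm c (pathEquiv m x) = ∑' p : Fin (m + 1) → ℤ, pathTerm c p :=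
    (pathEquiv m).tsum_eq (pathTerm c)
  have hinj : Function.Injective (fun (p : Fin (m + 1) → Box N) (i : Fin (m + 1)) => (p i : ℤ)) := by
    intro p q hpq
    funext i
    exact Subtype.ext (congrFun hpq i)
  have h4 : ∑ p : Fin (m + 1) → Box N, pathTerm c (fun i => (p i : ℤ)) =
      ∑' p : Fin (m + 1) → ℤ, pathTerm c p := by
    have ht : ∑' p : Fin (m + 1) → Box N, pathTerm c (fun i => (p i : ℤ)) =
        ∑ p : Fin (m + 1) → Box N, pathTerm c (fun i => (p i : ℤ)) := tsum_fintype _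
    rw [← ht]
    apply hinj.tsum_eq (f := pathTerm c)
    intro p hp
    rw [Function.mem_support] at hp
    set x := (pathEquiv m).symm p with hx
    have hpx : p = toPath x.1.1 x.2 := by
      have := (pathEquiv m).apply_symm_apply p
      rw [← this]; rfl
    have hterm := pathTerm_toPath c x.1 x.2
    rw [← hpx] at hterm
    rw [hterm] at hp
    have hj : ∀ i, |x.1.1 i| ≤ (M : ℤ) := by
      intro i
      by_contra hi
      push Not at hi
      apply hp
      have h0 : ∏ i, c (x.1.1 i) = 0 := Finset.prod_eq_zero (Finset.mem_univ i) (hM _ hi)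
      rw [h0, mul_zero]
    have hn : |x.2| ≤ ((m + 1 : ℕ) : ℤ) * M := by
      by_contra hlt
      push Not at hlt
      apply hp
      have := prod_toPath_nonneg hm x.1.1 x.2 M (by positivity) hj hlt
      rw [← hpx] at this
      rw [abs_of_nonneg this, sub_self]
      simp
    have hb := abs_toPath_sub_le x.1.1 x.2 M (by positivity) hj
    rw [← hpx] at hb
    have hbox : ∀ i, p i ∈ Finset.Icc (-(N : ℤ)) N := by
      intro i
      rw [Finset.mem_Icc, ← abs_le]
      have h5 := hb i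
      have h6 : |p i| ≤ |p i - x.2| + |x.2| := by
        have := abs_add_le (p i - x.2) x.2
        rwa [sub_add_cancel] at this
      have h7 : (N : ℤ) = ((m + 1 : ℕ) : ℤ) * M + ((m + 1 : ℕ) : ℤ) * M := by
        rw [hN, hR]; push_cast; ring
      rw [h7]
      linarith
    exact ⟨fun i => ⟨p i, hbox i⟩, rfl⟩
  rw [h1, h2, h3, ← h4]
  exact sum_pathTerm_nonneg c hc N m hm

open scoped ComplexOrder in
/-- Nonnegativity of the zeta-invariant series, for any conjugation symmetric coefficients. -/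
theorem zeta_tsum_nonneg (c : ℤ → ℂ) (hc : ∀ n, star (c n) = c (-n)) (m : ℕ)
    (hm : Even (m + 1)) :
    (0 : ℂ) ≤ ∑' j : {j : Fin (m + 1) → ℤ // ∑ i, j i = 0},
      ((∑ᶠ n : ℤ, (|∏ i, toPath j.1 n i| - ∏ i, toPath j.1 n i) : ℤ) : ℂ) * ∏ i, c (j.1 i) := by
  set f : {j : Fin (m + 1) → ℤ // ∑ i, j i = 0} → ℂ := fun j =>
    ((∑ᶠ n : ℤ, (|∏ i, toPath j.1 n i| - ∏ i, toPath j.1 n i) : ℤ) : ℂ) * ∏ i, c (j.1 i) with hf
  by_cases hs : Summable f
  swap
  · rw [tsum_eq_zero_of_not_summable hs]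
  have hmono : Monotone (incBox m) := by
    intro M M' hMM' j hj
    rw [mem_incBox] at hj ⊢
    intro i
    exact (hj i).trans (by exact_mod_cast hMM')
  have htend : Filter.Tendsto (incBox m) Filter.atTop Filter.atTop := by
    refine Filter.tendsto_atTop_finset_of_monotone hmono fun j => ?_
    refine ⟨(∑ i, |j.1 i|).toNat, ?_⟩
    rw [mem_incBox]
    intro i
    have h1 : |j.1 i| ≤ ∑ i, |j.1 i| :=
      Finset.single_le_sum (fun i _ => abs_nonneg (j.1 i)) (Finset.mem_univ i)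
    exact h1.trans (Int.self_le_toNat _)
  have hlim := hs.hasSum.comp htend
  refine ge_of_tendsto' hlim fun M => ?_
  simp only [Function.comp]
  have h := zeta_trig_nonneg (fun n => if |n| ≤ (M : ℤ) then c n else 0) (by
    intro n
    simp only [abs_neg]
    split_ifs
    · exact hc n
    · simp) M m (by
    intro n hn
    rw [if_neg (not_le.mpr hn)]) hm
  convert h using 1
  refine Finset.sum_congr rfl fun j hj => ?_
  simp only [hf]
  congr 1
  refine Finset.prod_congr rfl fun i _ => ?_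
  rw [if_pos ((mem_incBox j).mp hj i)]

end Pool.Agent.H654R3
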