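import Pool.Agent.H654R3.Energy
import Pool.Agent.H654R3.Defect
import Pool.Agent.H654R3.ZetaNonneg

set_option autoImplicit false

/-!
The lower bound for trigonometric polynomials.
-/

namespace Pool.Agent.H654R3

open Matrix Finset

lemma sum_attach_le {α β : Type*} (s : Finset α) (t : Finset β) (e : {x // x ∈ s} → β)
    (he : Function.Injective e) (hmem : ∀ x, e x ∈ t) (F : β → ℝ) (hF : ∀ y, 0 ≤ F y) :
    ∑ x ∈ s.attach, F (e x) ≤ ∑ y ∈ t, F y := by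
  have h : ∑ x ∈ s.attach, F (e x) = ∑ y ∈ s.attach.map ⟨e, he⟩, F y := by
    rw [Finset.sum_map]; rfl
  rw [h]
  refine Finset.sum_le_sum_of_subset_of_nonneg ?_ (fun y _ _ => hF y)
  intro y hy
  rw [Finset.mem_map] at hy
  obtain ⟨x, _, hx⟩ := hy
  rw [← hx]
  exact hmem x

/-- Diagonal entries of the square of a Hermitian matrix. -/
lemma herm_sq_diag {n : Type*} [Fintype n] [DecidableEq n] (D : Matrix n n ℂ)
    (hD : D.IsHermitian) (q : n) : ((D ^ 2) q q).re = ∑ p, ‖D p q‖ ^ 2 := by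
  rw [pow_two, mul_apply, Complex.re_sum]
  refine Finset.sum_congr rfl fun p _ => ?_
  have : D q p = star (D p q) := by rw [hD.apply]
  rw [this, Complex.star_def, mul_comm, Complex.mul_conj, Complex.ofReal_re,
    Complex.normSq_eq_norm_sq]

/-- Entries of `A²` between a positive and a negative frequency. -/
lemma sq_entry (c : ℤ → ℂ) (hc : ∀ n, star (c n) = c (-n)) (M N : ℕ)
    (hM : ∀ n : ℤ, (M : ℤ) < |n| → c n = 0) (p q : ℤ) (hp : 0 ≤ p) (hq : 0 ≤ q)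
    (hpM : p + M ≤ N) (hpN : p ∈ Finset.Icc (-(N : ℤ)) N) (hqN : -q ∈ Finset.Icc (-(N : ℤ)) N) :
    ((symA c N) ^ 2) ⟨p, hpN⟩ ⟨-q, hqN⟩ =
      (Real.sqrt p : ℂ) * (Real.sqrt q : ℂ) * star (gf c p q) := by
  have h1 : gf c p q = ∑ r : Box N, ((|(r : ℤ)| : ℤ) : ℂ) * (c (p - r) * c (q + r)) := by
    unfold gf
    have hinj : Function.Injective (fun r : Box N => (r : ℤ)) := Subtype.val_injective
    have ht : ∑' r : Box N, ((|(r : ℤ)| : ℤ) : ℂ) * (c (p - r) * c (q + r)) =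
        ∑ r : Box N, ((|(r : ℤ)| : ℤ) : ℂ) * (c (p - r) * c (q + r)) := tsum_fintype _
    rw [← ht]
    symm
    apply hinj.tsum_eq (f := fun r : ℤ => ((|r| : ℤ) : ℂ) * (c (p - r) * c (q + r)))
    intro r hr
    rw [Function.mem_support] at hr
    have hr' : |p - r| ≤ (M : ℤ) := by
      by_contra h
      push Not at h
      apply hr
      rw [hM _ h]; ring
    rw [abs_le] at hr'
    refine ⟨⟨r, ?_⟩, rfl⟩
    rw [Finset.mem_Icc]
    constructor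
    · linarith [hr'.2]
    · linarith [hr'.1]
  rw [h1, pow_two, mul_apply, star_sum, Finset.mul_sum]
  refine Finset.sum_congr rfl fun r _ => ?_
  simp only [symA, of_apply]
  rw [star_mul', star_mul', hc, hc]
  have e1 : (Real.sqrt |((r : ℤ) : ℝ)| : ℂ) * (Real.sqrt |((r : ℤ) : ℝ)| : ℂ) =
      ((|(r : ℤ)| : ℤ) : ℂ) := by
    rw [← Complex.ofReal_mul, Real.mul_self_sqrt (abs_nonneg _), ← Int.cast_abs]
    norm_cast
  have e2 : star (((|(r : ℤ)| : ℤ) : ℂ)) = ((|(r : ℤ)| : ℤ) : ℂ) := by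
    exact star_intCast _
  rw [e2, ← e1]
  have e3 : |((p : ℤ) : ℝ)| = p := abs_of_nonneg (by exact_mod_cast hp)
  have e4 : |(((-q : ℤ)) : ℝ)| = q := by
    push_cast
    rw [abs_neg, abs_of_nonneg (by exact_mod_cast hq)]
  rw [e3, e4, show -(p - (r : ℤ)) = r - p by ring, show -(q + (r : ℤ)) = -q - r by ring]
  ring

lemma dmat_entry (c : ℤ → ℂ) (N : ℕ) (p q : ℤ) (hp : 0 ≤ p) (hq : 0 < q)
    (hpN : p ∈ Finset.Icc (-(N : ℤ)) N) (hqN : -q ∈ Finset.Icc (-(N : ℤ)) N) :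
    dmat (symA c N) (sgnH N) ⟨p, hpN⟩ ⟨-q, hqN⟩ =
      2 * ((symA c N) ^ 2) ⟨p, hpN⟩ ⟨-q, hqN⟩ := by
  unfold dmat
  rw [conj_pow _ _ (sgnH_sq N), Matrix.sub_apply]
  unfold sgnH
  rw [mul_diagonal, diagonal_mul]
  rw [if_neg (by simpa using hp), if_pos (by simpa using hq)]
  ring

/-- The block of negative indices. -/
noncomputable def blk (N L : ℕ) : Finset (Box N) :=
  Finset.univ.filter (fun x : Box N => (L : ℤ) ≤ -(x : ℤ) ∧ -(x : ℤ) ≤ 5 * L)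

lemma card_blk (N L : ℕ) (hL : 1 ≤ L) : ((blk N L).card : ℝ) ≤ 5 * L := by
  have h1 : (blk N L).card ≤ (Finset.Icc (-(5 * L : ℤ)) (-(L : ℤ))).card := by
    refine Finset.card_le_card_of_injOn (fun x : Box N => (x : ℤ)) ?_ ?_
    · intro x hx
      have hx' : x ∈ blk N L := hx
      rw [blk, Finset.mem_filter] at hx'
      simp only [Finset.coe_Icc, Set.mem_Icc]
      constructor <;> linarith [hx'.2.1, hx'.2.2]
    · intro x _ y _ hxy
      exact Subtype.ext hxy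
  rw [Int.card_Icc] at h1
  have h2 : (blk N L).card ≤ 5 * L := h1.trans (by omega)
  exact_mod_cast h2

/-- Lower bound for the block sums of the diagonal of `D²`. -/
lemma blk_sum_lower (c : ℤ → ℂ) (hc : ∀ n, star (c n) = c (-n)) (M N : ℕ)
    (hM : ∀ n : ℤ, (M : ℤ) < |n| → c n = 0) (L : ℕ) (hL : 1 ≤ L) (hLM : L ≤ M)
    (hN : 6 * M ≤ N) :
    16 / (5 * 56 ^ 2 * 6 ^ 12) * ((L : ℝ) ^ 5 *
      (∑ n ∈ Finset.Icc (2 * L : ℤ) (4 * L), ‖c n‖ ^ 2) ^ 2) ≤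
      ∑ x ∈ blk N L, (((dmat (symA c N) (sgnH N)) ^ 2) x x).re := by
  have hD := dmat_herm (symA c N) (sgnH N) (symA_herm c hc N) (sgnH_herm N)
  have hbl := block_lower c M hM L hL
  have hstep : ∀ q ∈ Finset.Icc (L : ℤ) (5 * L), ∀ hqN : -q ∈ Finset.Icc (-(N : ℤ)) N,
      ∑ p ∈ Finset.Icc (L : ℤ) (5 * L), 4 * ((p : ℝ) * q * ‖gf c p q‖ ^ 2) ≤
      (((dmat (symA c N) (sgnH N)) ^ 2) ⟨-q, hqN⟩ ⟨-q, hqN⟩).re := by
    intro q hq hqN
    rw [herm_sq_diag _ hD]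
    have hmem : ∀ p ∈ Finset.Icc (L : ℤ) (5 * L), p ∈ Finset.Icc (-(N : ℤ)) N := by
      intro p hp
      rw [Finset.mem_Icc] at hp ⊢
      constructor <;> [skip; skip] <;> omega
    rw [← Finset.sum_attach]
    have hle : ∑ x ∈ (Finset.Icc (L : ℤ) (5 * L)).attach,
        4 * (((x : ℤ) : ℝ) * q * ‖gf c x q‖ ^ 2) =
        ∑ x ∈ (Finset.Icc (L : ℤ) (5 * L)).attach,
          ‖dmat (symA c N) (sgnH N) ⟨x, hmem x x.2⟩ ⟨-q, hqN⟩‖ ^ 2 := by
      refine Finset.sum_congr rfl fun x _ => ?_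
      have hx := x.2
      rw [Finset.mem_Icc] at hx hq
      have hx0 : (0 : ℤ) ≤ (x : ℤ) := by omega
      rw [dmat_entry c N x q hx0 (by omega) (hmem x x.2) hqN,
        sq_entry c hc M N hM x q hx0 (by omega) (by omega) (hmem x x.2) hqN]
      rw [norm_mul, norm_mul, norm_mul, norm_star, Complex.norm_real, Complex.norm_real,
        Real.norm_of_nonneg (Real.sqrt_nonneg _), Real.norm_of_nonneg (Real.sqrt_nonneg _)]
      simp only [mul_pow]
      rw [Real.sq_sqrt (by exact_mod_cast hx0), Real.sq_sqrt (by exact_mod_cast (by omega : (0:ℤ) ≤ q))]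
      norm_num
    rw [hle]
    exact sum_attach_le (Finset.Icc (L : ℤ) (5 * L)) Finset.univ
      (fun x => (⟨x, hmem x x.2⟩ : Box N)) (fun x y h => Subtype.ext (by simpa using h))
      (fun _ => Finset.mem_univ _)
      (fun y => ‖dmat (symA c N) (sgnH N) y ⟨-q, hqN⟩‖ ^ 2) (fun _ => by positivity)
  have hmem2 : ∀ q ∈ Finset.Icc (L : ℤ) (5 * L), -q ∈ Finset.Icc (-(N : ℤ)) N := by
    intro q hq
    rw [Finset.mem_Icc] at hq ⊢
    constructor <;> omega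
  have hsum : ∑ q ∈ Finset.Icc (L : ℤ) (5 * L), ∑ p ∈ Finset.Icc (L : ℤ) (5 * L),
      4 * ((p : ℝ) * q * ‖gf c p q‖ ^ 2) ≤
      ∑ x ∈ blk N L, (((dmat (symA c N) (sgnH N)) ^ 2) x x).re := by
    rw [← Finset.sum_attach]
    have h1 : ∑ q ∈ (Finset.Icc (L : ℤ) (5 * L)).attach, ∑ p ∈ Finset.Icc (L : ℤ) (5 * L),
        4 * ((p : ℝ) * ((q : ℤ) : ℝ) * ‖gf c p q‖ ^ 2) ≤
        ∑ q ∈ (Finset.Icc (L : ℤ) (5 * L)).attach,
          (((dmat (symA c N) (sgnH N)) ^ 2) ⟨-q, hmem2 q q.2⟩ ⟨-q, hmem2 q q.2⟩).re :=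
      Finset.sum_le_sum fun q _ => hstep q q.2 (hmem2 q q.2)
    refine h1.trans ?_
    refine sum_attach_le (Finset.Icc (L : ℤ) (5 * L)) (blk N L)
      (fun q => (⟨-q, hmem2 q q.2⟩ : Box N)) (fun x y h => Subtype.ext (by simpa using h)) ?_
      (fun y => (((dmat (symA c N) (sgnH N)) ^ 2) y y).re) ?_
    · intro q
      rw [blk, Finset.mem_filter]
      refine ⟨Finset.mem_univ _, ?_⟩
      have hq2 := q.2
      rw [Finset.mem_Icc] at hq2
      rw [neg_neg]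
      exact hq2
    · intro x
      rw [herm_sq_diag _ hD]
      positivity
  refine le_trans ?_ hsum
  rw [Finset.sum_comm]
  simp only [← Finset.mul_sum]
  have hpos : (0 : ℝ) < 5 * 56 ^ 2 * 6 ^ 12 := by norm_num
  rw [div_mul_eq_mul_div, div_le_iff₀ hpos]
  linarith

/-- Each index belongs to the blocks with total weight at most `5`. -/
lemma blk_weight (N M : ℕ) (x : Box N) :
    ∑ L ∈ Finset.Icc 1 M, (if x ∈ blk N L then (1 : ℝ) / L else 0) ≤ 5 := by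
  rw [← Finset.sum_filter]
  by_cases hx : (0 : ℤ) < -(x : ℤ)
  · set q : ℕ := (-(x : ℤ)).toNat with hq
    have hq' : (q : ℤ) = -(x : ℤ) := Int.toNat_of_nonneg hx.le
    have hqpos : 0 < q := by omega
    have hq0 : (0 : ℝ) < q := by exact_mod_cast hqpos
    have hsub : (Finset.Icc 1 M).filter (fun L => x ∈ blk N L) ⊆ Finset.Icc 1 q := by
      intro L hL
      rw [Finset.mem_filter, blk, Finset.mem_filter, Finset.mem_Icc] at hL
      rw [Finset.mem_Icc]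
      refine ⟨hL.1.1, ?_⟩
      have := hL.2.2.1
      omega
    have hle : ∀ L ∈ (Finset.Icc 1 M).filter (fun L => x ∈ blk N L), (1 : ℝ) / L ≤ 5 / q := by
      intro L hL
      rw [Finset.mem_filter, blk, Finset.mem_filter, Finset.mem_Icc] at hL
      have h1 : (q : ℤ) ≤ 5 * L := by rw [hq']; exact hL.2.2.2
      have h2 : (q : ℝ) ≤ 5 * L := by exact_mod_cast h1
      have h3 : (0 : ℝ) < L := by exact_mod_cast hL.1.1
      rw [div_le_div_iff₀ h3 hq0]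
      linarith
    calc ∑ L ∈ (Finset.Icc 1 M).filter (fun L => x ∈ blk N L), (1 : ℝ) / L
        ≤ ∑ L ∈ (Finset.Icc 1 M).filter (fun L => x ∈ blk N L), (5 : ℝ) / q :=
          Finset.sum_le_sum hle
      _ ≤ ∑ L ∈ Finset.Icc 1 q, (5 : ℝ) / q :=
          Finset.sum_le_sum_of_subset_of_nonneg hsub (fun _ _ _ => by positivity)
      _ = 5 := by
          rw [Finset.sum_const, Nat.card_Icc, nsmul_eq_mul]
          simp only [Nat.add_sub_cancel]
          field_simp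
  · have : (Finset.Icc 1 M).filter (fun L => x ∈ blk N L) = ∅ := by
      rw [Finset.filter_eq_empty_iff]
      intro L hL h
      rw [blk, Finset.mem_filter] at h
      rw [Finset.mem_Icc] at hL
      have := h.2.1
      omega
    rw [this, Finset.sum_empty]
    norm_num

/-- Counting the windows containing a given frequency. -/
lemma count_windows (M n k : ℕ) (hn : 2 ≤ n) (hnM : n ≤ M) :
    (1 / 8 : ℝ) * (1 / 4) ^ (2 * k) * (n : ℝ) ^ (2 * k + 1) ≤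
      ∑ L ∈ (Finset.Icc 1 M).filter (fun L => 2 * L ≤ n ∧ n ≤ 4 * L), (L : ℝ) ^ (2 * k) := by
  have hsub : Finset.Icc ((n + 3) / 4) (n / 2) ⊆
      (Finset.Icc 1 M).filter (fun L => 2 * L ≤ n ∧ n ≤ 4 * L) := by
    intro L hL
    rw [Finset.mem_Icc] at hL
    rw [Finset.mem_filter, Finset.mem_Icc]
    omega
  have hcard : (n : ℝ) / 8 ≤ ((Finset.Icc ((n + 3) / 4) (n / 2)).card : ℝ) := by
    rw [Nat.card_Icc]
    have : n ≤ 8 * (n / 2 + 1 - (n + 3) / 4) := by omega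
    have h2 : (n : ℝ) ≤ 8 * ((n / 2 + 1 - (n + 3) / 4 : ℕ) : ℝ) := by exact_mod_cast this
    linarith
  have hterm : ∀ L ∈ Finset.Icc ((n + 3) / 4) (n / 2), ((n : ℝ) / 4) ^ (2 * k) ≤
      (L : ℝ) ^ (2 * k) := by
    intro L hL
    rw [Finset.mem_Icc] at hL
    apply pow_le_pow_left₀ (by positivity)
    have : n ≤ 4 * L := by omega
    have h2 : (n : ℝ) ≤ 4 * L := by exact_mod_cast this
    linarith
  calc (1 / 8 : ℝ) * (1 / 4) ^ (2 * k) * (n : ℝ) ^ (2 * k + 1)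
      = (n : ℝ) / 8 * ((n : ℝ) / 4) ^ (2 * k) := by
        rw [div_pow, pow_succ, div_pow, one_pow]; ring
    _ ≤ ((Finset.Icc ((n + 3) / 4) (n / 2)).card : ℝ) * ((n : ℝ) / 4) ^ (2 * k) :=
        mul_le_mul_of_nonneg_right hcard (by positivity)
    _ = ∑ L ∈ Finset.Icc ((n + 3) / 4) (n / 2), ((n : ℝ) / 4) ^ (2 * k) := by
        rw [Finset.sum_const, nsmul_eq_mul]
    _ ≤ ∑ L ∈ Finset.Icc ((n + 3) / 4) (n / 2), (L : ℝ) ^ (2 * k) := Finset.sum_le_sum hterm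
    _ ≤ _ := Finset.sum_le_sum_of_subset_of_nonneg hsub (fun _ _ _ => by positivity)

lemma sum_pow_le_pow_sum' {α : Type*} (s : Finset α) (f : α → ℝ) (hf : ∀ x, 0 ≤ f x) (k : ℕ)
    (hk : k ≠ 0) : ∑ x ∈ s, f x ^ k ≤ (∑ x ∈ s, f x) ^ k := by
  classical
  induction s using Finset.induction_on with
  | empty => simp [hk]
  | insert x s hx ih =>
    rw [Finset.sum_insert hx, Finset.sum_insert hx]
    have h0 : 0 ≤ ∑ x ∈ s, f x := Finset.sum_nonneg fun x _ => hf x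
    have := pow_add_pow_le (hf x) h0 hk
    linarith

open scoped ComplexOrder in
/-- The lower bound in finite form, for exponents `a + 2 ≥ 2`. -/
theorem trace_diff_lower_bound (a : ℕ) : ∃ C : ℝ, 0 < C ∧
    ∀ (c : ℤ → ℂ) (_ : ∀ n, star (c n) = c (-n)) (M N : ℕ)
      (_ : ∀ n : ℤ, (M : ℤ) < |n| → c n = 0) (_ : 6 * M ≤ N),
      C * ∑ n ∈ Finset.Icc 2 M, (n : ℝ) ^ (2 * (a + 2) + 1) * ‖c n‖ ^ (2 * (a + 2)) ≤
        (trace ((symA c N) ^ (2 * (a + 2)))).re -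
          (trace ((sgnH N * symA c N) ^ (2 * (a + 2)))).re := by
  set c0 : ℝ := 16 / (5 * 56 ^ 2 * 6 ^ 12) with hc0
  have hc0pos : 0 < c0 := by rw [hc0]; norm_num
  set k := a + 2 with hk
  set C1 : ℝ := Real.sqrt (c0 ^ k / 5 ^ a) with hC1
  have hC1pos : 0 < C1 := Real.sqrt_pos.mpr (by positivity)
  refine ⟨C1 * ((1 / 8 : ℝ) * (1 / 4) ^ (2 * k)) / (5 * (4 * 2 ^ a)), by positivity, ?_⟩
  intro c hc M N hM hN
  have hAh := symA_herm c hc N
  have hHh := sgnH_herm N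
  have hDh := dmat_herm (symA c N) (sgnH N) hAh hHh
  set ρ : Box N → ℝ := rho (dmat (symA c N) (sgnH N)) hDh k with hρ
  have hρ0 : ∀ x, 0 ≤ ρ x := fun x => rho_nonneg _ _ _ _
  set σ : ℕ → ℝ := fun L => ∑ n ∈ Finset.Icc (2 * L : ℤ) (4 * L), ‖c n‖ ^ 2 with hσ
  have hσ0 : ∀ L, 0 ≤ σ L := fun L => by positivity
  -- block estimate
  have hblock : ∀ L ∈ Finset.Icc 1 M, C1 * ((L : ℝ) ^ (2 * k + 1) * σ L ^ k) ≤
      ∑ x ∈ blk N L, ρ x := by
    intro L hL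
    rw [Finset.mem_Icc] at hL
    have hL0 : (0 : ℝ) < L := by exact_mod_cast hL.1
    have h1 := blk_sum_lower c hc M N hM L hL.1 hL.2 hN
    have h2 := block_ineq (dmat (symA c N) (sgnH N)) hDh a (blk N L)
    have h3 := card_blk N L hL.1
    have hY0 : 0 ≤ ∑ x ∈ blk N L, ρ x := Finset.sum_nonneg fun x _ => hρ0 x
    have h4 : (c0 * ((L : ℝ) ^ 5 * σ L ^ 2)) ^ k ≤ (5 * L : ℝ) ^ a * (∑ x ∈ blk N L, ρ x) ^ 2 := by
      calc (c0 * ((L : ℝ) ^ 5 * σ L ^ 2)) ^ k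
          ≤ (∑ x ∈ blk N L, (((dmat (symA c N) (sgnH N)) ^ 2) x x).re) ^ k :=
            pow_le_pow_left₀ (by positivity) h1 k
        _ ≤ _ := h2
        _ ≤ _ := mul_le_mul_of_nonneg_right (pow_le_pow_left₀ (by positivity) h3 a)
            (by positivity)
    have h5 : (C1 * ((L : ℝ) ^ (2 * k + 1) * σ L ^ k)) ^ 2 ≤ (∑ x ∈ blk N L, ρ x) ^ 2 := by
      have e1 : C1 ^ 2 = c0 ^ k / 5 ^ a := Real.sq_sqrt (by positivity)
      have h6 : (5 * L : ℝ) ^ a * (C1 * ((L : ℝ) ^ (2 * k + 1) * σ L ^ k)) ^ 2 ≤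
          (5 * L : ℝ) ^ a * (∑ x ∈ blk N L, ρ x) ^ 2 := by
        refine le_trans (le_of_eq ?_) h4
        rw [mul_pow C1, e1]
        have e2 : (L : ℝ) ^ a * ((L : ℝ) ^ (2 * k + 1)) ^ 2 = ((L : ℝ) ^ 5) ^ k := by
          rw [← pow_mul, ← pow_mul, ← pow_add]; congr 1; omega
        have e3 : (σ L ^ k) ^ 2 = (σ L ^ 2) ^ k := by rw [← pow_mul, ← pow_mul, mul_comm]
        calc (5 * L : ℝ) ^ a * (c0 ^ k / 5 ^ a * ((L : ℝ) ^ (2 * k + 1) * σ L ^ k) ^ 2)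
            = (5 : ℝ) ^ a / 5 ^ a * c0 ^ k * ((L : ℝ) ^ a * ((L : ℝ) ^ (2 * k + 1)) ^ 2) *
                (σ L ^ k) ^ 2 := by rw [mul_pow (5 : ℝ), mul_pow ((L : ℝ) ^ (2 * k + 1))]; ring
          _ = (c0 * ((L : ℝ) ^ 5 * σ L ^ 2)) ^ k := by
            rw [div_self (by positivity), e2, e3, mul_pow, mul_pow]; ring
      exact le_of_mul_le_mul_left h6 (by positivity)
    exact le_of_sq_le_sq h5 hY0
  -- upper bound for the weighted block sums
  have hupper : ∑ L ∈ Finset.Icc 1 M, (1 / (L : ℝ)) * ∑ x ∈ blk N L, ρ x ≤ 5 * ∑ x, ρ x := by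
    have e1 : ∀ L ∈ Finset.Icc 1 M, (1 / (L : ℝ)) * ∑ x ∈ blk N L, ρ x =
        ∑ x, (if x ∈ blk N L then (1 : ℝ) / L else 0) * ρ x := by
      intro L _
      rw [Finset.mul_sum]
      have : ∀ x, (if x ∈ blk N L then (1 : ℝ) / L else 0) * ρ x =
          if x ∈ blk N L then (1 : ℝ) / L * ρ x else 0 := by
        intro x; split_ifs <;> simp
      rw [Finset.sum_congr rfl (fun x _ => this x), Finset.sum_ite_mem, Finset.univ_inter]
    rw [Finset.sum_congr rfl e1, Finset.sum_comm, Finset.mul_sum]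
    refine Finset.sum_le_sum fun x _ => ?_
    rw [← Finset.sum_mul]
    exact mul_le_mul_of_nonneg_right (blk_weight N M x) (hρ0 x)
  -- lower bound for the weighted block sums
  have hlow : (1 / 8 : ℝ) * (1 / 4) ^ (2 * k) *
      ∑ n ∈ Finset.Icc 2 M, (n : ℝ) ^ (2 * k + 1) * ‖c n‖ ^ (2 * k) ≤
      ∑ L ∈ Finset.Icc 1 M, (L : ℝ) ^ (2 * k) * σ L ^ k := by
    rw [Finset.mul_sum]
    have s1 : ∀ n ∈ Finset.Icc 2 M, (1 / 8 : ℝ) * (1 / 4) ^ (2 * k) *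
        ((n : ℝ) ^ (2 * k + 1) * ‖c n‖ ^ (2 * k)) ≤
        ∑ L ∈ Finset.Icc 1 M, if (2 * L ≤ n ∧ n ≤ 4 * L) then
          (L : ℝ) ^ (2 * k) * ‖c n‖ ^ (2 * k) else 0 := by
      intro n hn
      rw [Finset.mem_Icc] at hn
      have h := count_windows M n k hn.1 hn.2
      rw [← Finset.sum_filter, ← Finset.sum_mul]
      calc (1 / 8 : ℝ) * (1 / 4) ^ (2 * k) * ((n : ℝ) ^ (2 * k + 1) * ‖c n‖ ^ (2 * k))
          = ((1 / 8 : ℝ) * (1 / 4) ^ (2 * k) * (n : ℝ) ^ (2 * k + 1)) * ‖c n‖ ^ (2 * k) := by ring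
        _ ≤ _ := mul_le_mul_of_nonneg_right h (by positivity)
    refine (Finset.sum_le_sum s1).trans ?_
    rw [Finset.sum_comm]
    refine Finset.sum_le_sum fun L hL => ?_
    rw [← Finset.sum_filter, ← Finset.mul_sum]
    apply mul_le_mul_of_nonneg_left _ (by positivity)
    have s2 : ∑ n ∈ (Finset.Icc 2 M).filter (fun n => 2 * L ≤ n ∧ n ≤ 4 * L),
        ‖c (n : ℤ)‖ ^ (2 * k) ≤
        (∑ n ∈ (Finset.Icc 2 M).filter (fun n => 2 * L ≤ n ∧ n ≤ 4 * L),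
          ‖c (n : ℤ)‖ ^ 2) ^ k := by
      have := sum_pow_le_pow_sum' ((Finset.Icc 2 M).filter (fun n => 2 * L ≤ n ∧ n ≤ 4 * L))
        (fun n : ℕ => ‖c (n : ℤ)‖ ^ 2) (fun n => by positivity) k (by omega)
      simpa only [← pow_mul] using this
    refine s2.trans (pow_le_pow_left₀ (by positivity) ?_ k)
    simp only [hσ]
    have hmap : ∑ n ∈ (Finset.Icc 2 M).filter (fun n => 2 * L ≤ n ∧ n ≤ 4 * L),
        ‖c (n : ℤ)‖ ^ 2 = ∑ z ∈ ((Finset.Icc 2 M).filter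
          (fun n => 2 * L ≤ n ∧ n ≤ 4 * L)).map (Nat.castEmbedding (R := ℤ)), ‖c z‖ ^ 2 := by
      rw [Finset.sum_map]; rfl
    rw [hmap]
    refine Finset.sum_le_sum_of_subset_of_nonneg ?_ (fun _ _ _ => by positivity)
    intro z hz
    rw [Finset.mem_map] at hz
    obtain ⟨n, hn, hz⟩ := hz
    rw [Finset.mem_filter] at hn
    rw [← hz, Finset.mem_Icc, Nat.castEmbedding_apply]
    constructor
    · exact_mod_cast hn.2.1
    · exact_mod_cast hn.2.2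
  have hmid : C1 * ∑ L ∈ Finset.Icc 1 M, (L : ℝ) ^ (2 * k) * σ L ^ k ≤
      ∑ L ∈ Finset.Icc 1 M, (1 / (L : ℝ)) * ∑ x ∈ blk N L, ρ x := by
    rw [Finset.mul_sum]
    refine Finset.sum_le_sum fun L hL => ?_
    have hL0 : (0 : ℝ) < L := by
      rw [Finset.mem_Icc] at hL
      exact_mod_cast hL.1
    have h := mul_le_mul_of_nonneg_left (hblock L hL) (show 0 ≤ 1 / (L : ℝ) by positivity)
    refine le_trans (le_of_eq ?_) h
    have e5 : (1 / (L : ℝ)) * (L : ℝ) ^ (2 * k + 1) = (L : ℝ) ^ (2 * k) := by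
      rw [pow_succ, ← mul_assoc, mul_comm (1 / (L : ℝ)), mul_assoc, one_div_mul_cancel hL0.ne',
        mul_one]
    calc C1 * ((L : ℝ) ^ (2 * k) * σ L ^ k) =
        C1 * (((1 / (L : ℝ)) * (L : ℝ) ^ (2 * k + 1)) * σ L ^ k) := by rw [e5]
      _ = _ := by ring
  have hdef := defect_lower (symA c N) (sgnH N) hAh hHh (sgnH_sq N) a
  have hsum : ∑ x, ρ x = ∑ i, |hDh.eigenvalues i| ^ (a + 2) := sum_rho _ hDh k
  rw [← hsum] at hdef
  set Δ := (trace ((symA c N) ^ (2 * k))).re - (trace ((sgnH N * symA c N) ^ (2 * k))).re with hΔ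
  have hfin : C1 * ((1 / 8 : ℝ) * (1 / 4) ^ (2 * k) *
      ∑ n ∈ Finset.Icc 2 M, (n : ℝ) ^ (2 * k + 1) * ‖c n‖ ^ (2 * k)) ≤
      5 * (4 * 2 ^ a * Δ) := by
    calc _ ≤ C1 * ∑ L ∈ Finset.Icc 1 M, (L : ℝ) ^ (2 * k) * σ L ^ k :=
          mul_le_mul_of_nonneg_left hlow hC1pos.le
      _ ≤ _ := hmid
      _ ≤ _ := hupper
      _ ≤ _ := mul_le_mul_of_nonneg_left hdef (by norm_num)
  rw [div_mul_eq_mul_div, div_le_iff₀ (by positivity)]
  calc _ = C1 * ((1 / 8 : ℝ) * (1 / 4) ^ (2 * k) *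
      ∑ n ∈ Finset.Icc 2 M, (n : ℝ) ^ (2 * k + 1) * ‖c n‖ ^ (2 * k)) := by ring
    _ ≤ _ := hfin
    _ = _ := by ring

end Pool.Agent.H654R3
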