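import Pool.Agent.H654R3.Chessboard

set_option autoImplicit false

/-!
A chain of reflections: the defect `Tr A^{2k} - Tr (HA)^{2k}` controls
`Tr A^{2k} - Tr (A^2 H A^{2k-2} H)`.
-/

namespace Pool.Agent.H654R3

open Matrix

variable {n : Type*} [Fintype n] [DecidableEq n]

/-- The list `true^a false^b`. -/
def tlist (a b : ℕ) : List Bool := List.replicate a true ++ List.replicate b false

/-- The symmetric word built on `tlist a b`. -/
def tword (a b : ℕ) : List Bool := (false :: tlist a b) ++ (false :: (tlist a b).reverse)

lemma length_tlist (a b : ℕ) : (tlist a b).length = a + b := by simp [tlist]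

lemma length_tword (a b : ℕ) : (tword a b).length = 2 * (a + b + 1) := by
  simp only [tword, List.length_append, List.length_cons, List.length_reverse, length_tlist]
  ring

/-- Cauchy-Schwarz for the splitting `(g :: t) ++ (g' :: t')` of a word. -/
lemma cs_word (A H : Matrix n n ℂ) (hA : A.IsHermitian) (hH : H.IsHermitian)
    (hHH : H * H = 1) (g g' : Bool) (t t' : List Bool) :
    ‖trace (word A H (g :: t) * word A H (g' :: t'))‖ ≤
      ((trace (word A H ((false :: t) ++ (false :: t.reverse)))).re +
        (trace (word A H ((false :: t') ++ (false :: t'.reverse)))).re) / 2 := by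
  have hcs := norm_trace_mul_sq_le (word A H (g :: t)) (word A H (g' :: t'))
  have n1 : 0 ≤ (trace (word A H (g :: t) * (word A H (g :: t))ᴴ)).re :=
    trace_mul_conj_nonneg _
  have n2 : 0 ≤ (trace (word A H (g' :: t') * (word A H (g' :: t'))ᴴ)).re :=
    trace_mul_conj_nonneg _
  rw [trace_reflect A H hA hH hHH] at hcs n1
  rw [trace_reflect A H hA hH hHH] at hcs n2
  set u := (trace (word A H ((false :: t) ++ (false :: t.reverse)))).re
  set v := (trace (word A H ((false :: t') ++ (false :: t'.reverse)))).re
  apply abs_le_of_sq_le_sq' _ (by positivity) |>.2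
  nlinarith [sq_nonneg (u - v)]

lemma re_tword_le (A H : Matrix n n ℂ) (hA : A.IsHermitian) (hH : H.IsHermitian)
    (hHH : H * H = 1) (a b : ℕ) :
    (trace (word A H (tword a b))).re ≤ ‖trace (A ^ (2 * (a + b + 1)))‖ :=
  (Complex.re_le_norm _).trans
    (chessboard A H hA hH hHH (a + b) (tword a b) (length_tword a b))

/-- One step of the chain. -/
lemma chain_step (A H : Matrix n n ℂ) (hA : A.IsHermitian) (hH : H.IsHermitian)
    (hHH : H * H = 1) (a b : ℕ) :
    (trace (word A H (tword (a + 1) b))).re ≤
      ((trace (word A H (tword a (b + 1)))).re + ‖trace (A ^ (2 * (a + 1 + b + 1)))‖) / 2 := by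
  obtain ⟨g, t', ht'⟩ : ∃ g t', List.replicate b false ++ List.replicate (a + 1) true ++ [false] =
      g :: t' := by
    cases b with
    | zero => exact ⟨true, List.replicate a true ++ [false], by simp [List.replicate_succ]⟩
    | succ b => exact ⟨false, List.replicate b false ++ List.replicate (a + 1) true ++ [false],
        by simp [List.replicate_succ]⟩
  have hlen : t'.length = a + 1 + b := by
    have := congrArg List.length ht'
    simp only [List.length_append, List.length_replicate, List.length_cons,
      List.length_nil] at this
    omega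
  have hrot : trace (word A H (tword (a + 1) b)) =
      trace (word A H (true :: tlist a (b + 1)) * word A H (g :: t')) := by
    rw [← ht', ← word_append]
    have e1 : tword (a + 1) b = [false] ++ (List.replicate (a + 1) true ++
        List.replicate b false ++ [false] ++ List.replicate b false ++
        List.replicate (a + 1) true) := by
      simp [tword, tlist, List.reverse_append, List.append_assoc]
    have e2 : true :: tlist a (b + 1) ++ (List.replicate b false ++ List.replicate (a + 1) true
        ++ [false]) = (List.replicate (a + 1) true ++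
        List.replicate b false ++ [false] ++ List.replicate b false ++
        List.replicate (a + 1) true) ++ [false] := by
      have : List.replicate (b + 1) false = List.replicate b false ++ [false] :=
        List.replicate_succ'
      simp only [tlist, this, List.replicate_succ (n := a), List.append_assoc, List.cons_append]
    rw [e1, e2, word_append, word_append _ _ _ [false], trace_mul_comm]
  rw [hrot]
  refine (Complex.re_le_norm _).trans ?_
  refine (cs_word A H hA hH hHH true g (tlist a (b + 1)) t').trans ?_
  have h2 : (trace (word A H ((false :: t') ++ (false :: t'.reverse)))).re ≤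
      ‖trace (A ^ (2 * (a + 1 + b + 1)))‖ := by
    refine (Complex.re_le_norm _).trans (chessboard A H hA hH hHH (a + 1 + b) _ ?_)
    simp only [List.length_append, List.length_cons, List.length_reverse, hlen]
    ring
  have h3 : (trace (word A H ((false :: tlist a (b + 1)) ++
      (false :: (tlist a (b + 1)).reverse)))).re = (trace (word A H (tword a (b + 1)))).re := rfl
  rw [h3]
  linarith

lemma chain_first (A H : Matrix n n ℂ) (hA : A.IsHermitian) (hH : H.IsHermitian)
    (hHH : H * H = 1) (a : ℕ) :
    (trace ((H * A) ^ (2 * (a + 1)))).re ≤ (trace (word A H (tword a 0))).re := by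
  have h : (H * A) ^ (2 * (a + 1)) = word A H (true :: List.replicate a true) *
      word A H (true :: List.replicate a true) := by
    rw [← List.replicate_succ, word_replicate_true, two_mul, pow_add]
  rw [h]
  refine (Complex.re_le_norm _).trans ((cs_word A H hA hH hHH true true _ _).trans ?_)
  have : tword a 0 = (false :: List.replicate a true) ++
      (false :: (List.replicate a true).reverse) := by simp [tword, tlist]
  rw [this]
  linarith

lemma chain_all (A H : Matrix n n ℂ) (hA : A.IsHermitian) (hH : H.IsHermitian)
    (hHH : H * H = 1) (a b : ℕ) :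
    (1 / 2 : ℝ) ^ a * (‖trace (A ^ (2 * (a + 1 + b + 1)))‖ -
      (trace (word A H (tword 1 (a + b)))).re) ≤
    ‖trace (A ^ (2 * (a + 1 + b + 1)))‖ - (trace (word A H (tword (a + 1) b))).re := by
  induction a generalizing b with
  | zero => simp
  | succ a ih =>
    have h1 := chain_step A H hA hH hHH (a + 1) b
    have h2 := ih (b + 1)
    have e : a + 1 + (b + 1) + 1 = a + 1 + 1 + b + 1 := by ring
    have e' : a + (b + 1) = a + 1 + b := by ring
    rw [e, e'] at h2
    rw [pow_succ]
    linarith

lemma word_tword_one (A H : Matrix n n ℂ) (b : ℕ) :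
    trace (word A H (tword 1 b)) = trace (A ^ 2 * (H * A ^ (2 * (b + 1)) * H)) := by
  have e : tword 1 b = [false] ++ [true] ++ List.replicate b false ++ [false] ++
      List.replicate b false ++ [true] := by
    simp [tword, tlist, List.reverse_append]
  rw [e]
  simp only [word_append, word_replicate_false, word_cons, word_nil, Bool.false_eq_true, if_false,
    if_true, one_mul, mul_one]
  have e2 : A ^ (2 * (b + 1)) = A * A ^ b * A * A ^ b := by
    rw [← pow_succ', ← pow_succ, ← pow_add]; congr 1; ring
  rw [e2]
  calc trace (A * (H * A) * A ^ b * A * A ^ b * (H * A))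
      = trace ((A * (H * A) * A ^ b * A * A ^ b * H) * A) := by simp only [mul_assoc]
    _ = trace (A * (A * (H * A) * A ^ b * A * A ^ b * H)) := trace_mul_comm _ _
    _ = _ := by rw [pow_two]; simp only [mul_assoc]

/-- The chain estimate. -/
theorem chain_main (A H : Matrix n n ℂ) (hA : A.IsHermitian) (hH : H.IsHermitian)
    (hHH : H * H = 1) (a : ℕ) :
    (1 / 2 : ℝ) ^ a * ((trace (A ^ (2 * (a + 2)))).re -
      (trace (A ^ 2 * (H * A ^ (2 * (a + 1)) * H))).re) ≤
    (trace (A ^ (2 * (a + 2)))).re - (trace ((H * A) ^ (2 * (a + 2)))).re := by
  have h1 := chain_all A H hA hH hHH a 0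
  have h2 := chain_first A H hA hH hHH (a + 1)
  have h3 : ‖trace (A ^ (2 * (a + 2)))‖ = (trace (A ^ (2 * (a + 2)))).re := by
    rw [trace_pow_even A hA]
    rw [Complex.norm_real, Complex.ofReal_re, Real.norm_of_nonneg (by positivity)]
  rw [word_tword_one] at h1
  simp only [add_zero] at h1
  have e : a + 1 + 1 = a + 2 := by ring
  rw [e] at h1 h2
  rw [h3] at h1
  linarith

end Pool.Agent.H654R3
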