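import Mathlib

set_option autoImplicit false

/-!
A chessboard type trace inequality: for a Hermitian matrix `A` and a Hermitian unitary `H`,
`|Tr (H A)^{2k}| ≤ Tr A^{2k}`.
-/

namespace Pool.Agent.H654R3

open Matrix

variable {n : Type*} [Fintype n] [DecidableEq n]

/-- Word in the letters `A` and `H A`. -/
noncomputable def word (A H : Matrix n n ℂ) (l : List Bool) : Matrix n n ℂ :=
  (l.map (fun g => (if g then H else 1) * A)).prod

lemma word_nil (A H : Matrix n n ℂ) : word A H [] = 1 := by simp [word]

lemma word_cons (A H : Matrix n n ℂ) (g : Bool) (l : List Bool) :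
    word A H (g :: l) = (if g then H else 1) * A * word A H l := by simp [word]

lemma word_append (A H : Matrix n n ℂ) (l l' : List Bool) :
    word A H (l ++ l') = word A H l * word A H l' := by simp [word]

lemma word_conj (A H : Matrix n n ℂ) (hA : A.IsHermitian) (hH : H.IsHermitian) (t : List Bool) :
    (word A H t)ᴴ * A = A * word A H t.reverse := by
  induction t with
  | nil => simp [word_nil]
  | cons g t ih =>
    rw [word_cons, List.reverse_cons, word_append, conjTranspose_mul, conjTranspose_mul, hA.eq,
      word_cons, word_nil, mul_one, ← mul_assoc A, ← ih]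
    have : (if g then H else (1 : Matrix n n ℂ))ᴴ = if g then H else 1 := by
      cases g <;> simp [hH.eq]
    rw [this]
    simp only [mul_assoc]

omit [DecidableEq n] in
lemma trace_mul_conj_re (X : Matrix n n ℂ) :
    (trace (X * Xᴴ)).re = ∑ i, ∑ j, ‖X i j‖ ^ 2 := by
  simp only [trace, diag_apply, mul_apply, conjTranspose_apply, Complex.re_sum]
  refine Finset.sum_congr rfl fun i _ => Finset.sum_congr rfl fun j _ => ?_
  rw [Complex.star_def, Complex.mul_conj, Complex.ofReal_re, Complex.normSq_eq_norm_sq]

omit [DecidableEq n] in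
lemma trace_mul_conj_nonneg (X : Matrix n n ℂ) : 0 ≤ (trace (X * Xᴴ)).re := by
  rw [trace_mul_conj_re]; positivity

omit [DecidableEq n] in
lemma norm_trace_mul_sq_le (X Y : Matrix n n ℂ) :
    ‖trace (X * Y)‖ ^ 2 ≤ (trace (X * Xᴴ)).re * (trace (Y * Yᴴ)).re := by
  rw [trace_mul_conj_re, trace_mul_conj_re]
  have h1 : ‖trace (X * Y)‖ ≤ ∑ p : n × n, ‖X p.1 p.2‖ * ‖Y p.2 p.1‖ := by
    rw [Fintype.sum_prod_type]
    simp only [trace, diag_apply, mul_apply]
    refine (norm_sum_le _ _).trans (Finset.sum_le_sum fun i _ => ?_)
    refine (norm_sum_le _ _).trans (Finset.sum_le_sum fun j _ => ?_)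
    exact (norm_mul _ _).le
  have h2 : (∑ p : n × n, ‖X p.1 p.2‖ * ‖Y p.2 p.1‖) ^ 2 ≤
      (∑ p : n × n, ‖X p.1 p.2‖ ^ 2) * (∑ p : n × n, ‖Y p.2 p.1‖ ^ 2) :=
    Finset.sum_mul_sq_le_sq_mul_sq _ _ _
  have h3 : (∑ p : n × n, ‖Y p.2 p.1‖ ^ 2) = ∑ i, ∑ j, ‖Y i j‖ ^ 2 := by
    rw [Fintype.sum_prod_type, Finset.sum_comm]
  have h4 : (∑ p : n × n, ‖X p.1 p.2‖ ^ 2) = ∑ i, ∑ j, ‖X i j‖ ^ 2 := by
    rw [Fintype.sum_prod_type]
  rw [h3, h4] at h2
  refine le_trans ?_ h2
  exact pow_le_pow_left₀ (norm_nonneg _) h1 2

/-- Reflection: the trace of `X Xᴴ` for a word `X` of length `m+1` is again the trace of a word. -/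
lemma trace_reflect (A H : Matrix n n ℂ) (hA : A.IsHermitian) (hH : H.IsHermitian)
    (hHH : H * H = 1) (g : Bool) (t : List Bool) :
    trace (word A H (g :: t) * (word A H (g :: t))ᴴ) =
      trace (word A H ((false :: t) ++ (false :: t.reverse))) := by
  have hg : (if g then H else (1 : Matrix n n ℂ))ᴴ * (if g then H else 1) = 1 := by
    cases g <;> simp [hH.eq, hHH]
  rw [word_cons, word_append, word_cons, word_cons]
  simp only [Bool.false_eq_true, if_false, one_mul]
  rw [conjTranspose_mul, conjTranspose_mul, hA.eq]
  calc trace ((if g then H else 1) * A * word A H t *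
        ((word A H t)ᴴ * (A * (if g then H else 1)ᴴ)))
      = trace ((if g then H else 1) * (A * word A H t *
        ((word A H t)ᴴ * A) * (if g then H else 1)ᴴ)) := by simp only [mul_assoc]
    _ = trace ((A * word A H t *
        ((word A H t)ᴴ * A) * (if g then H else 1)ᴴ) * (if g then H else 1)) := trace_mul_comm _ _
    _ = trace (A * word A H t * ((word A H t)ᴴ * A)) := by
        rw [mul_assoc, hg, mul_one]
    _ = trace (A * word A H t * (A * word A H t.reverse)) := by
        rw [word_conj A H hA hH]

lemma word_replicate_false (A H : Matrix n n ℂ) (m : ℕ) :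
    word A H (List.replicate m false) = A ^ m := by
  simp [word]

lemma word_replicate_true (A H : Matrix n n ℂ) (m : ℕ) :
    word A H (List.replicate m true) = (H * A) ^ m := by
  simp [word]

/-- Chessboard estimate. -/
lemma chessboard (A H : Matrix n n ℂ) (hA : A.IsHermitian) (hH : H.IsHermitian)
    (hHH : H * H = 1) (m : ℕ) (l : List Bool) (hl : l.length = 2 * (m + 1)) :
    ‖trace (word A H l)‖ ≤ ‖trace (A ^ (2 * (m + 1)))‖ := by
  classical
  set s : Set (List Bool) := {l | l.length = 2 * (m + 1)} with hs
  have hfin : s.Finite := List.finite_length_eq Bool _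
  obtain ⟨l₀, hl₀, hmax⟩ := Set.exists_max_image s (fun l => ‖trace (word A H l)‖) hfin ⟨l, hl⟩
  set M := ‖trace (word A H l₀)‖ with hM
  set s' : Set (List Bool) := {l | l ∈ s ∧ ‖trace (word A H l)‖ = M} with hs'
  have hfin' : s'.Finite := hfin.subset fun x hx => hx.1
  obtain ⟨l₁, hl₁, hmin⟩ := Set.exists_min_image s' (fun l => l.count true) hfin' ⟨l₀, hl₀, rfl⟩
  by_cases hM0 : M = 0
  · have := hmax l hl
    rw [hM0] at this
    exact this.trans (norm_nonneg _)
  have hMpos : 0 < M := lt_of_le_of_ne (norm_nonneg _) (Ne.symm hM0)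
  have hcount : true ∉ l₁ := by
    intro hmem
    obtain ⟨a, b, hab⟩ := List.append_of_mem hmem
    have hlen : l₁.length = 2 * (m + 1) := hl₁.1
    have hr : (b ++ a).length = 2 * m + 1 := by
      have : l₁.length = a.length + (b.length + 1) := by rw [hab]; simp
      rw [List.length_append]; omega
    obtain ⟨g, t', ht'⟩ : ∃ g t', (b ++ a).drop m = g :: t' := by
      have : ((b ++ a).drop m).length = m + 1 := by rw [List.length_drop]; omega
      match hd : (b ++ a).drop m with
      | [] => rw [hd] at this; simp at this
      | g :: t' => exact ⟨g, t', rfl⟩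
    set t := (b ++ a).take m with ht
    have htl : t.length = m := by rw [ht, List.length_take]; omega
    have ht'l : t'.length = m := by
      have : ((b ++ a).drop m).length = m + 1 := by rw [List.length_drop]; omega
      rw [ht'] at this; simpa using this
    have hsplit : b ++ a = t ++ (g :: t') := by rw [ht, ← ht', List.take_append_drop]
    have htr : trace (word A H l₁) = trace (word A H (true :: t) * word A H (g :: t')) := by
      rw [← word_append, List.cons_append, ← hsplit, hab, word_append, trace_mul_comm,
        ← word_append, List.cons_append]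
    have hcs := norm_trace_mul_sq_le (word A H (true :: t)) (word A H (g :: t'))
    rw [← htr, hl₁.2, trace_reflect A H hA hH hHH, trace_reflect A H hA hH hHH] at hcs
    have e1 : ((false :: t) ++ (false :: t.reverse)) ∈ s := by
      simp only [hs, Set.mem_ofPred_eq, List.length_append, List.length_cons, List.length_reverse,
        htl]; ring
    have e2 : ((false :: t') ++ (false :: t'.reverse)) ∈ s := by
      simp only [hs, Set.mem_ofPred_eq, List.length_append, List.length_cons, List.length_reverse,
        ht'l]; ring
    have n1 : 0 ≤ (trace (word A H ((false :: t) ++ (false :: t.reverse)))).re := by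
      rw [← trace_reflect A H hA hH hHH true t]; exact trace_mul_conj_nonneg _
    have n2 : 0 ≤ (trace (word A H ((false :: t') ++ (false :: t'.reverse)))).re := by
      rw [← trace_reflect A H hA hH hHH true t']; exact trace_mul_conj_nonneg _
    have b1 := hmax _ e1
    have b2 := hmax _ e2
    have r1 : (trace (word A H ((false :: t) ++ (false :: t.reverse)))).re ≤
        ‖trace (word A H ((false :: t) ++ (false :: t.reverse)))‖ :=
      Complex.re_le_norm _
    have r2 : (trace (word A H ((false :: t') ++ (false :: t'.reverse)))).re ≤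
        ‖trace (word A H ((false :: t') ++ (false :: t'.reverse)))‖ :=
      Complex.re_le_norm _
    set u := (trace (word A H ((false :: t) ++ (false :: t.reverse)))).re
    set v := (trace (word A H ((false :: t') ++ (false :: t'.reverse)))).re
    set u' := ‖trace (word A H ((false :: t) ++ (false :: t.reverse)))‖
    set v' := ‖trace (word A H ((false :: t') ++ (false :: t'.reverse)))‖
    have hu : u' = M := by
      apply le_antisymm b1
      by_contra hlt
      push Not at hlt
      nlinarith
    have hv : v' = M := by
      apply le_antisymm b2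
      by_contra hlt
      push Not at hlt
      nlinarith
    have c1 := hmin _ (show _ ∈ s' from ⟨e1, hu⟩)
    have c2 := hmin _ (show _ ∈ s' from ⟨e2, hv⟩)
    have hc : l₁.count true = t.count true + (g :: t').count true + 1 := by
      have h1 : l₁.count true = (b ++ a).count true + 1 := by
        rw [hab]; simp only [List.count_append, List.count_cons_self]; ring
      rw [h1, hsplit, List.count_append]
    have hc' : t'.count true ≤ (g :: t').count true := List.count_le_count_cons
    simp only [List.count_append, List.count_reverse, ne_eq, Bool.false_eq_true, not_false_eq_true,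
      List.count_cons_of_ne] at c1 c2
    omega
  have hrep : l₁ = List.replicate (2 * (m + 1)) false := by
    rw [List.eq_replicate_iff]
    refine ⟨hl₁.1, fun b hb => ?_⟩
    cases b with
    | false => rfl
    | true => exact absurd hb hcount
  have := hmax l hl
  refine this.trans ?_
  rw [← hl₁.2, hrep, word_replicate_false]

lemma trace_pow_even (A : Matrix n n ℂ) (hA : A.IsHermitian) (k : ℕ) :
    trace (A ^ (2 * k)) = (∑ i, ∑ j, ‖(A ^ k) i j‖ ^ 2 : ℝ) := by
  have h : A ^ (2 * k) = A ^ k * (A ^ k)ᴴ := by
    rw [(hA.pow k).eq, two_mul, pow_add]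
  rw [h]
  simp only [trace, diag_apply, mul_apply, conjTranspose_apply]
  push_cast
  refine Finset.sum_congr rfl fun i _ => Finset.sum_congr rfl fun j _ => ?_
  rw [Complex.star_def, Complex.mul_conj, Complex.normSq_eq_norm_sq]
  push_cast
  rfl

open scoped ComplexOrder in
/-- The trace inequality in the order of `ℂ`. -/
theorem trace_pow_sub_nonneg (A H : Matrix n n ℂ) (hA : A.IsHermitian) (hH : H.IsHermitian)
    (hHH : H * H = 1) (k : ℕ) :
    (0 : ℂ) ≤ trace (A ^ (2 * k)) - trace ((H * A) ^ (2 * k)) := by
  rcases Nat.eq_zero_or_pos k with rfl | hk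
  · simp
  obtain ⟨m, rfl⟩ : ∃ m, k = m + 1 := ⟨k - 1, by omega⟩
  have h1 := chessboard A H hA hH hHH m (List.replicate (2 * (m + 1)) true) (by simp)
  rw [word_replicate_true] at h1
  have hre := trace_pow_even A hA (m + 1)
  set S : ℝ := ∑ i, ∑ j, ‖(A ^ (m + 1)) i j‖ ^ 2 with hS
  have hS0 : 0 ≤ S := by positivity
  rw [hre, Complex.norm_real, Real.norm_of_nonneg hS0] at h1
  have him : (trace ((H * A) ^ (2 * (m + 1)))).im = 0 := by
    have hconj : star (trace ((H * A) ^ (2 * (m + 1)))) = trace ((H * A) ^ (2 * (m + 1))) := by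
      rw [← trace_conjTranspose, conjTranspose_pow, conjTranspose_mul, hA.eq, hH.eq]
      have : ∀ j : ℕ, trace ((A * H) ^ (j + 1)) = trace ((H * A) ^ (j + 1)) := by
        intro j
        rw [pow_succ' (A * H), mul_assoc, trace_mul_comm, pow_succ (H * A)]
        congr 1
        have hcomm : ∀ i : ℕ, H * (A * H) ^ i = (H * A) ^ i * H := by
          intro i
          induction i with
          | zero => simp
          | succ i ih => rw [pow_succ, ← mul_assoc, ih, pow_succ]; simp only [mul_assoc]
        rw [hcomm, mul_assoc]
      exact this (2 * m + 1)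
    have := congrArg Complex.im hconj
    rw [Complex.star_def, Complex.conj_im] at this
    linarith
  rw [hre, Complex.nonneg_iff]
  refine ⟨?_, ?_⟩
  · rw [Complex.sub_re, Complex.ofReal_re]
    have := Complex.re_le_norm (trace ((H * A) ^ (2 * (m + 1))))
    linarith
  · rw [Complex.sub_im, Complex.ofReal_im, him]; simp

end Pool.Agent.H654R3
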