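import Pool.Agent.H654R3.CremLaw

namespace Pool.Agent.H654R3.Crem

open MeasureTheory ProbabilityTheory
open scoped ENNReal NNReal

/-- block levels -/
def lv (N L k : ℕ) : ℕ := min (k * L) N

lemma lv_mono (N L : ℕ) : Monotone (lv N L) := by
  intro i j h
  unfold lv
  exact min_le_min (Nat.mul_le_mul_right L h) le_rfl

section block
variable {N : ℕ} (alg : Algorithm N) (n : ℕ)
variable {Ω : Type*} [mΩ : MeasurableSpace Ω] {P : Measure Ω} [IsProbabilityMeasure P]
  {ξ : List Bool → Ω → ℝ} {U : ℕ → Ω → ℝ}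

lemma block_laws (hξ : ∀ v, Measurable (ξ v)) (hU : ∀ n, Measurable (U n))
    (hind : iIndepFun (fun i : List Bool ⊕ ℕ => (Sum.elim ξ U i : Ω → ℝ)) P)
    (V : ℕ → ℝ≥0) (hlaw : ∀ w : List Bool, w ≠ [] → w.length ≤ N →
      P.map (ξ w) = gaussianReal 0 (V w.length)) (θ : ℝ) (l r : ℕ) (hlr : l + r ≤ N)
    (u : List Bool) (hu : u ∈ wd l) (e : List Bool) (he : e ∈ wd r) :
    P.map (fun ω => gg θ u e (cfg ξ U ω)) =
      gaussianReal 0 (.mk (θ ^ 2) (sq_nonneg _) * ∑ i ∈ Finset.range r, V (l + (i + 1))) := by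
  rw [mem_wd] at hu he
  have h := law_gg hξ hU hind θ (fun i => V (l + (i+1))) u e (by
    intro i hi
    have hlen : (u ++ e.take (i+1)).length = l + (i+1) := by
      rw [List.length_append, List.length_take]; omega
    rw [hlaw _ (by intro h0; rw [h0] at hlen; simp at hlen) (by omega), hlen])
  rw [he] at h
  exact h

/-- one macro-block of blocks `k0, ..., k1 - 1`. -/
lemma block_prob (hξ : ∀ v, Measurable (ξ v)) (hU : ∀ n, Measurable (U n))
    (hind : iIndepFun (fun i : List Bool ⊕ ℕ => (Sum.elim ξ U i : Ω → ℝ)) P)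
    (V : ℕ → ℝ≥0) (hlaw : ∀ w : List Bool, w ≠ [] → w.length ≤ N →
      P.map (ξ w) = gaussianReal 0 (V w.length))
    {L : ℕ} (hL : 2 ≤ L) {p1 : ℝ} (hp0 : 0 < p1)
    (hp : ∀ r : ℕ, 2 ≤ r → ∀ v : ℝ≥0, (v:ℝ) ≤ r * Real.log 4 →
      ENNReal.ofReal (Real.exp (v / 2 - r * Real.log 2)) *
        gaussianReal v v (Set.Iio (r * Real.log 4 + Real.sqrt r)) ≤ ENNReal.ofReal p1)
    {k0 k1 : ℕ} (hk : k0 ≤ k1) (hk1 : (k1 - 1) * L ≤ N)
    {h : ℝ} (hh : 0 < h) (hV : ∀ i, lv N L k0 < i → i ≤ lv N L k1 → (V i : ℝ) ≤ h)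
    {b σ : ℝ} (hb : 0 < b) (hb1 : b ≤ 1) (hσ0 : 0 < σ) (hσ1 : σ < 1)
    (hkey : (2 / (b / L)) ^ σ * (Real.exp (-√(L:ℝ)) ^ σ + p1 ^ (1 - σ)) ≤ Real.exp (-2 * σ)) :
    P {ω | ∃ v : List Bool, v.length = lv N L k1 ∧
        Vis n (query alg (X (fun v => ξ v ω)) (fun m => U m ω)) v ∧
        -(σ * ((k1:ℝ) - k0)) ≤
          -(σ * (b / L)) * tc n (lv N L) k0 k1 v (query alg (X (fun v => ξ v ω)) (fun m => U m ω)) +
          (1 - σ) * (√(Real.log 4 / h) * (X (fun v => ξ v ω) v -
            X (fun v => ξ v ω) (v.take (lv N L k0))) -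
            ((lv N L k1:ℝ) - lv N L k0) * Real.log 4)} ≤
      ENNReal.ofReal (n * (2 / (b / L)) * Real.exp (2 * σ) * Real.exp (-(σ * ((k1:ℝ) - k0)))) := by
  have hL0 : (0:ℝ) < L := by exact_mod_cast (by omega : 0 < L)
  have hL2 : (2:ℝ) ≤ L := by exact_mod_cast hL
  have hlog4 : 0 < Real.log 4 := Real.log_pos (by norm_num)
  set R : ℝ≥0∞ := ENNReal.ofReal (Real.exp (-(Real.sqrt L))) ^ σ + (ENNReal.ofReal p1) ^ (1 - σ)
    with hR
  have hx0 : 0 < b / L := by positivity
  have hx1 : b / L ≤ 1 := by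
    rw [div_le_one hL0]; linarith
  have h2x : 1 ≤ 2 / (b / L) := by
    rw [le_div_iff₀ hx0]; linarith
  have hlevN : ∀ k, lv N L k ≤ N := fun k => min_le_right _ _
  have hρ : ∀ i, k0 ≤ i → i < k1 → ∀ u ∈ wd (lv N L i), ∫⁻ ω,
      (Wt (fun e ω => gg (√(Real.log 4 / h)) u e (cfg ξ U ω))
      (lv N L (i+1) - lv N L i) ω) ^ (1 - σ) ∂P ≤ (if i + 1 < k1 then R else 1) := by
    intro i hi0 hi1 u hu
    set r := lv N L (i+1) - lv N L i with hr
    have hmono := lv_mono N L (Nat.le_succ i)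
    rw [Nat.succ_eq_add_one] at hmono
    have hlr : lv N L i + r ≤ N := by
      have := hlevN (i+1); omega
    set v : ℝ≥0 := (.mk ((√(Real.log 4 / h)) ^ 2) (sq_nonneg _) *
      ∑ j ∈ Finset.range r, V (lv N L i + (j + 1))) with hv
    have hlawe : ∀ e ∈ wd r, P.map (fun ω => gg (√(Real.log 4 / h)) u e (cfg ξ U ω)) =
        gaussianReal 0 v := fun e he =>
      block_laws (N := N) hξ hU hind V hlaw _ (lv N L i) r hlr u hu e he
    have hgm : ∀ e ∈ wd r, Measurable (fun ω => gg (√(Real.log 4 / h)) u e (cfg ξ U ω)) :=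
      fun e _ => (measurable_gg _ u e).comp (measurable_cfg hξ hU)
    have hvb : (v:ℝ) ≤ r * Real.log 4 := by
      have h1 : (v:ℝ) = (Real.log 4 / h) * ∑ j ∈ Finset.range r, (V (lv N L i + (j + 1)) : ℝ) := by
        rw [hv]
        push_cast
        congr 1
        exact Real.sq_sqrt (by positivity)
      have h2 : ∑ j ∈ Finset.range r, (V (lv N L i + (j + 1)) : ℝ) ≤ r * h := by
        calc _ ≤ ∑ j ∈ Finset.range r, h := by
              apply Finset.sum_le_sum
              intro j hj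
              rw [Finset.mem_range] at hj
              apply hV
              · have := lv_mono N L hi0
                omega
              · have := lv_mono N L (show i + 1 ≤ k1 by omega)
                omega
          _ = r * h := by simp
      rw [h1]
      calc _ ≤ (Real.log 4 / h) * (r * h) := by gcongr
        _ = _ := by field_simp
    split_ifs with hik
    · have hiL : (i + 1) * L ≤ N :=
        le_trans (Nat.mul_le_mul_right L (by omega : i + 1 ≤ k1 - 1)) hk1
      have hrL : r = L := by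
        rw [hr]
        unfold lv
        rw [min_eq_left hiL, min_eq_left (le_trans (Nat.mul_le_mul_right L (by omega)) hiL),
          Nat.add_mul]
        omega
      have h3 := lint_Wt_rpow_le (hp r (by omega) v hvb) hgm hlawe hvb
        (by linarith : (0:ℝ) ≤ 1 - σ) (by linarith)
      rw [hR]
      have h4 : (1 - (1 - σ)) = σ := by ring
      rw [h4, hrL] at h3
      rw [hrL]
      exact h3
    · exact lint_Wt_rpow_le_one hgm hlawe hvb (by linarith) (by linarith)
  have hmain := pot_bound alg n (lv N L) k0 (√(Real.log 4 / h)) (1 - σ) (b / L) hξ hU hind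
    (lv_mono N L) (by linarith) (by linarith) hx0 hx1 (fun i => if i + 1 < k1 then R else 1)
    hk hρ (σ * ((k1:ℝ) - k0))
  have h4 : (1 - (1 - σ)) = σ := by ring
  rw [h4] at hmain
  refine hmain.trans ?_
  -- the numeric bound
  have hfac : (ENNReal.ofReal (2 / (b / L))) ^ σ * R ≤ ENNReal.ofReal (Real.exp (-2 * σ)) := by
    rw [hR, ENNReal.ofReal_rpow_of_pos (by positivity), ENNReal.ofReal_rpow_of_pos (by positivity),
      ENNReal.ofReal_rpow_of_pos hp0, ← ENNReal.ofReal_add (by positivity) (by positivity),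
      ← ENNReal.ofReal_mul (by positivity)]
    exact ENNReal.ofReal_le_ofReal hkey
  have hlast : (ENNReal.ofReal (2 / (b / L))) ^ σ ≤ ENNReal.ofReal (2 / (b / L)) := by
    rw [ENNReal.ofReal_rpow_of_pos (by positivity)]
    apply ENNReal.ofReal_le_ofReal
    exact Real.rpow_le_self_of_one_le h2x hσ1.le
  have hprod : ∏ i ∈ Finset.Ico k0 k1, ((ENNReal.ofReal (2 / (b / L))) ^ σ *
      (if i + 1 < k1 then R else 1)) ≤
      ENNReal.ofReal ((2 / (b / L)) * Real.exp (2 * σ) *
        Real.exp (-(2 * σ * ((k1:ℝ) - k0)))) := by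
    rcases Nat.eq_or_lt_of_le hk with h0 | h0
    · subst h0
      simp only [Finset.Ico_self, Finset.prod_empty, sub_self, mul_zero, neg_zero, Real.exp_zero,
        mul_one]
      rw [← ENNReal.ofReal_one]
      apply ENNReal.ofReal_le_ofReal
      have : 1 ≤ Real.exp (2 * σ) := Real.one_le_exp (by positivity)
      nlinarith
    · obtain ⟨k, rfl⟩ : ∃ k, k1 = k + 1 := ⟨k1 - 1, by omega⟩
      rw [Finset.prod_Ico_succ_top (by omega)]
      simp only [lt_irrefl, if_false, mul_one]
      have h5 : ∏ i ∈ Finset.Ico k0 k, ((ENNReal.ofReal (2 / (b / L))) ^ σ *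
          (if i + 1 < k + 1 then R else 1)) ≤
          ∏ i ∈ Finset.Ico k0 k, ENNReal.ofReal (Real.exp (-2 * σ)) := by
        apply Finset.prod_le_prod' 
        intro i hi
        rw [Finset.mem_Ico] at hi
        rw [if_pos (by omega)]
        exact hfac
      rw [Finset.prod_const, Nat.card_Ico, ← ENNReal.ofReal_pow (by positivity)] at h5
      calc _ ≤ ENNReal.ofReal (Real.exp (-2 * σ) ^ (k - k0)) * ENNReal.ofReal (2 / (b / L)) :=
            mul_le_mul' h5 hlast
        _ = _ := by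
            rw [← ENNReal.ofReal_mul (by positivity)]
            congr 1
            rw [← Real.exp_nat_mul, mul_comm, mul_assoc, ← Real.exp_add]
            congr 2
            rw [Nat.cast_sub (by omega)]
            push_cast
            ring
  calc _ ≤ ENNReal.ofReal (Real.exp (σ * ((k1:ℝ) - k0))) * (n *
        ENNReal.ofReal ((2 / (b / L)) * Real.exp (2 * σ) *
        Real.exp (-(2 * σ * ((k1:ℝ) - k0))))) := by gcongr
    _ = _ := by
      rw [← ENNReal.ofReal_natCast, ← ENNReal.ofReal_mul (by positivity),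
        ← ENNReal.ofReal_mul (by positivity)]
      congr 1
      have : Real.exp (-(σ * ((k1:ℝ) - k0))) = Real.exp (σ * ((k1:ℝ) - k0)) *
          Real.exp (-(2 * σ * ((k1:ℝ) - k0))) := by
        rw [← Real.exp_add]; congr 1; ring
      rw [this]; ring

end block

end Pool.Agent.H654R3.Crem
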