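import Pool.Agent.H654R3.CremDefs

namespace Pool.Agent.H654R3.Crem

open MeasureTheory ProbabilityTheory

lemma prefix_same_length {w w' q : List Bool} (h : w <+: q) (h' : w' <+: q)
    (hl : w.length = w'.length) : w = w' := by
  rw [List.prefix_iff_eq_take] at h h'
  rw [h, h', hl]

lemma cst_lt_of_lt {n : ℕ} {q : ℕ → List Bool} {u w w' : List Bool}
    (hl : w.length = w'.length) (hne : w ≠ w') (hu : u <+: w)
    {T : ℕ} (hT : T < n) (hTw : w <+: q T) (hTw' : ∀ i < T, ¬ w' <+: q i) :
    cst n q u w < cst n q u w' := by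
  classical
  unfold cst
  apply Finset.card_lt_card
  rw [Finset.ssubset_iff_of_subset]
  · refine ⟨T, ?_, ?_⟩
    · simp only [Finset.mem_filter, Finset.mem_range]
      refine ⟨hT, hu.trans hTw, ?_⟩
      intro i hi
      rcases Nat.lt_or_eq_of_le hi with h | h
      · exact hTw' i h
      · subst h
        intro h2
        exact hne (prefix_same_length hTw h2 hl)
    · simp only [Finset.mem_filter, Finset.mem_range, not_and, not_forall]
      intro _ _
      exact ⟨T, le_rfl, by simpa using hTw⟩
  · intro t ht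
    simp only [Finset.mem_filter, Finset.mem_range] at ht ⊢
    refine ⟨ht.1, ht.2.1, ?_⟩
    intro i hi
    have htT : t < T := by
      by_contra hcon
      exact ht.2.2 T (not_lt.1 hcon) hTw
    exact hTw' i (by omega)

lemma cst_inj {n : ℕ} {q : ℕ → List Bool} {u w w' : List Bool}
    (hl : w.length = w'.length) (hu : u <+: w) (hu' : u <+: w')
    (hv : Vis n q w) (hv' : Vis n q w') (h : cst n q u w = cst n q u w') : w = w' := by
  classical
  by_contra hne
  let T := Nat.find hv
  let T' := Nat.find hv'
  have hT := Nat.find_spec hv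
  have hT' := Nat.find_spec hv'
  have hm : ∀ i < T, ¬ w <+: q i := fun i hi h2 =>
    Nat.find_min hv hi ⟨lt_trans hi hT.1, h2⟩
  have hm' : ∀ i < T', ¬ w' <+: q i := fun i hi h2 =>
    Nat.find_min hv' hi ⟨lt_trans hi hT'.1, h2⟩
  rcases lt_trichotomy T T' with h1 | h1 | h1
  · have := cst_lt_of_lt hl hne hu hT.1 hT.2 (fun i hi => hm' i (lt_trans hi h1))
    omega
  · have h3 : w' <+: q T := by rw [h1]; exact hT'.2
    exact hne (prefix_same_length hT.2 h3 hl)
  · have := cst_lt_of_lt hl.symm (Ne.symm hne) hu' hT'.1 hT'.2 (fun i hi => hm i (lt_trans hi h1))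
    omega

lemma sum_cst_le (n : ℕ) (q : ℕ → List Bool) (v : List Bool) (lev : ℕ → ℕ) (hlev : Monotone lev)
    (m : ℕ) :
    ∑ k ∈ Finset.range m, cst n q (v.take (lev k)) (v.take (lev (k + 1))) ≤ n := by
  classical
  unfold cst
  rw [← Finset.card_biUnion]
  · calc _ ≤ (Finset.range n).card := by
          apply Finset.card_le_card
          intro t ht
          simp only [Finset.mem_biUnion, Finset.mem_filter] at ht
          obtain ⟨_, _, h, _⟩ := ht
          exact h
      _ = n := Finset.card_range n
  · have key : ∀ k k', k < k' → Disjoint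
        ((Finset.range n).filter (fun t => v.take (lev k) <+: q t ∧
          ∀ i ≤ t, ¬ v.take (lev (k+1)) <+: q i))
        ((Finset.range n).filter (fun t => v.take (lev k') <+: q t ∧
          ∀ i ≤ t, ¬ v.take (lev (k'+1)) <+: q i)) := by
      intro k k' hkk
      rw [Finset.disjoint_left]
      intro t h1 h2
      simp only [Finset.mem_filter, Finset.mem_range] at h1 h2
      have h3 : v.take (lev (k+1)) <+: v.take (lev k') := by
        apply List.take_prefix_take_left
        exact hlev (by omega)
      exact h1.2.2 t le_rfl (h3.trans h2.2.1)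
    intro k _ k' _ hne
    rcases lt_or_gt_of_ne hne with h | h
    · exact key k k' h
    · exact (key k' k h).symm

/-- the runs `q` and `q'` agree up to (and including) the first visit below `u` -/
def Agree (q q' : ℕ → List Bool) (u : List Bool) : Prop :=
  ∀ t, (∀ i < t, ¬ u <+: q i) → q t = q' t

lemma vis_of_agree {n : ℕ} {q q' : ℕ → List Bool} {u : List Bool} (h : Agree q q' u)
    (hv : Vis n q u) : Vis n q' u := by
  classical
  let T := Nat.find hv
  have hT := Nat.find_spec hv
  have hm : ∀ i < T, ¬ u <+: q i := fun i hi h2 =>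
    Nat.find_min hv hi ⟨lt_trans hi hT.1, h2⟩
  refine ⟨T, hT.1, ?_⟩
  rw [← h T hm]
  exact hT.2

lemma cst_le_of_agree {n : ℕ} {q q' : ℕ → List Bool} {u a b : List Bool} (h : Agree q q' u)
    (hb : b <+: u) : cst n q a b ≤ cst n q' a b := by
  classical
  unfold cst
  apply Finset.card_le_card
  intro t ht
  simp only [Finset.mem_filter, Finset.mem_range] at ht ⊢
  have h1 : ∀ i ≤ t, q i = q' i := by
    intro i hi
    apply h
    intro j hj h2
    exact ht.2.2 j (by omega) (hb.trans h2)
  refine ⟨ht.1, by rw [← h1 t le_rfl]; exact ht.2.1, fun i hi => ?_⟩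
  rw [← h1 i hi]
  exact ht.2.2 i hi

lemma query_agree {N : ℕ} (alg : Algorithm N) {x x' : List Bool → ℝ} (r : ℕ → ℝ) {u : List Bool}
    (hx : ∀ v, ¬ u <+: v → x v = x' v) : Agree (query alg x r) (query alg x' r) u := by
  intro t
  induction t using Nat.strong_induction_on with
  | _ t ih =>
    intro h
    have h1 : ∀ i < t, query alg x r i = query alg x' r i := by
      intro i hi
      exact ih i hi (fun j hj => h j (by omega))
    rw [query, query]
    congr 1
    · funext i; exact h1 i i.2
    · funext i
      rw [hx _ (h i i.2), h1 i i.2]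

lemma X_congr {ξ ξ' : List Bool → ℝ} {u v : List Bool}
    (h : ∀ w, ¬ (u <+: w ∧ w ≠ u) → ξ w = ξ' w) (hv : ¬ (u <+: v ∧ v ≠ u)) : X ξ v = X ξ' v := by
  unfold X
  apply Finset.sum_congr rfl
  intro i hi
  apply h
  rintro ⟨h1, h2⟩
  apply hv
  have h3 : v.take (i+1) <+: v := List.take_prefix _ _
  refine ⟨h1.trans h3, ?_⟩
  rintro rfl
  have : v.take (i+1) = v := prefix_same_length h3 List.prefix_rfl
    (le_antisymm h3.length_le h1.length_le)
  exact h2 this

end Pool.Agent.H654R3.Crem
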