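import Mathlib

/-!
Definitions for MP_f9dad2_pr (query complexity of the CREM at the algorithmic threshold).
-/

namespace Pool.Agent.H654R3.Crem

open MeasureTheory ProbabilityTheory

/-- Vertices of the (infinite) rooted binary tree are finite 0/1 strings; the vertices of the tree
`T_N` are the strings of length at most `N`. A type synonym of `List Bool`, with the discrete
sigma-algebra. -/
instance instMeasurableSpaceVertex : MeasurableSpace (List Bool) := ⊤

/-- The value at the vertex `v` of the branching random walk with increments `ξ`: the sum of the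
increments on the path from the root to `v`. -/
def X (ξ : List Bool → ℝ) (v : List Bool) : ℝ :=
  ∑ i ∈ Finset.range v.length, ξ (v.take (i + 1))

/-- A randomised search algorithm on `T_N`: the `(n+1)`-st queried vertex is a measurable function
of the first `n` queried vertices, of the `n` values found there, and of `U_1, ..., U_{n+1}`.
Queries may be at any depth up to `N`. -/
structure Algorithm (N : ℕ) where
  /-- the decision rule for the query number `n + 1` -/
  step : ∀ n : ℕ, (Fin n → List Bool) → (Fin n → ℝ) → (Fin (n + 1) → ℝ) → List Bool
  meas : ∀ n, Measurable (fun p : (Fin n → List Bool) × (Fin n → ℝ) × (Fin (n + 1) → ℝ) =>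
    step n p.1 p.2.1 p.2.2)
  depth : ∀ n a b c, (step n a b c).length ≤ N

/-- The sequence of queries made by the algorithm `alg` when the value of vertex `v` is `x v` and
the auxiliary uniform variables are `u`. `query alg x u n` is the query number `n + 1`. -/
def query {N : ℕ} (alg : Algorithm N) (x : List Bool → ℝ) (u : ℕ → ℝ) (n : ℕ) : List Bool :=
  alg.step n (fun i : Fin n => query alg x u i) (fun i : Fin n => x (query alg x u i))
    (fun i : Fin (n + 1) => u i)
termination_by n
decreasing_by all_goals exact i.isLt

/-- words of length `l` -/
def wd (l : ℕ) : Finset (List Bool) :=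
  Finset.univ.map ⟨fun f : Fin l → Bool => List.ofFn f, List.ofFn_injective⟩

lemma mem_wd {l : ℕ} {w : List Bool} : w ∈ wd l ↔ w.length = l := by
  unfold wd
  simp only [Finset.mem_map, Finset.mem_univ, Function.Embedding.coeFn_mk, true_and]
  constructor
  · rintro ⟨f, rfl⟩; simp
  · rintro rfl
    exact ⟨w.get, by simp⟩

lemma card_wd (l : ℕ) : (wd l).card = 2 ^ l := by
  unfold wd; simp

lemma sum_wd_add {M : Type*} [AddCommMonoid M] (l r : ℕ) (f : List Bool → M) :
    ∑ w ∈ wd (l + r), f w = ∑ u ∈ wd l, ∑ e ∈ wd r, f (u ++ e) := by
  rw [← Finset.sum_product']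
  symm
  refine Finset.sum_nbij' (fun p => p.1 ++ p.2) (fun w => (w.take l, w.drop l)) ?_ ?_ ?_ ?_ ?_
  · rintro ⟨u, e⟩ h
    simp only [Finset.mem_product, mem_wd] at h
    simp only [mem_wd, List.length_append]; omega
  · intro w h
    simp only [mem_wd] at h
    simp only [Finset.mem_product, mem_wd, List.length_take, List.length_drop]; omega
  · rintro ⟨u, e⟩ h
    simp only [Finset.mem_product, mem_wd] at h
    simp only [Prod.mk.injEq]
    exact ⟨by rw [List.take_append_of_le_length (by omega), List.take_of_length_le (by omega)],
      by rw [List.drop_append_of_le_length (by omega), List.drop_of_length_le (by omega)]; simp⟩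
  · intro w h; simp
  · rintro ⟨u, e⟩ h; rfl

/-- `q` passes through `w` at one of the times `0, ..., t`. -/
def Seen (q : ℕ → List Bool) (t : ℕ) (w : List Bool) : Prop := ∃ i ≤ t, w <+: q i

/-- vertex `w` is visited (weakly below it a query is made) before time `n` -/
def Vis (n : ℕ) (q : ℕ → List Bool) (w : List Bool) : Prop := ∃ i < n, w <+: q i

open Classical in
/-- cost of the block `u → w`: number of queries through `u` before the first query
through `w`. -/
noncomputable def cst (n : ℕ) (q : ℕ → List Bool) (u w : List Bool) : ℕ :=
  ((Finset.range n).filter (fun t => u <+: q t ∧ ∀ i ≤ t, ¬ w <+: q i)).card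

end Pool.Agent.H654R3.Crem
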