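import Pool.Agent.H654R3.CremBlock

namespace Pool.Agent.H654R3.Crem

lemma sum_Ico_blocks (kk : ℕ → ℕ) (hkk : Monotone kk) (f : ℕ → ℝ) (M : ℕ) :
    ∑ j ∈ Finset.range M, ∑ i ∈ Finset.Ico (kk j) (kk (j+1)), f i =
      ∑ i ∈ Finset.Ico (kk 0) (kk M), f i := by
  induction M with
  | zero => simp
  | succ M ih =>
    rw [Finset.sum_range_succ, ih]
    exact Finset.sum_Ico_consecutive f (hkk (Nat.zero_le M)) (hkk (Nat.le_succ M))

lemma tc_take (n : ℕ) (lev : ℕ → ℕ) (hlev : Monotone lev) (k0 k1 : ℕ) (v : List Bool)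
    (q : ℕ → List Bool) :
    tc n lev k0 k1 (v.take (lev k1)) q =
      ∑ i ∈ Finset.Ico k0 k1, (cst n q (v.take (lev i)) (v.take (lev (i+1))) : ℝ) := by
  unfold tc
  apply Finset.sum_congr rfl
  intro i hi
  rw [Finset.mem_Ico] at hi
  rw [List.take_take, List.take_take, min_eq_left (hlev hi.2.le),
    min_eq_left (hlev (show i + 1 ≤ k1 by omega))]

lemma lv_sub_le (N L : ℕ) {k k' : ℕ} (h : k ≤ k') :
    ((lv N L k' : ℝ) - lv N L k) ≤ ((k':ℝ) - k) * L := by
  have h1 : lv N L k' ≤ lv N L k + (k' - k) * L := by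
    unfold lv
    obtain ⟨d, rfl⟩ : ∃ d, k' = k + d := ⟨k' - k, by omega⟩
    rw [Nat.add_sub_cancel_left, Nat.add_mul]
    omega
  have h2 : (lv N L k' : ℝ) ≤ lv N L k + ((k' - k : ℕ) : ℝ) * L := by exact_mod_cast h1
  rw [Nat.cast_sub h] at h2
  linarith

/-- The deterministic conclusion when no macro-block event occurs along the path to `v`. -/
lemma det_bound {N n L M : ℕ} (hL : 0 < L) (q : ℕ → List Bool) (x : List Bool → ℝ)
    (hx0 : x [] = 0) (kk : ℕ → ℕ) (hkk : Monotone kk) (h0 : kk 0 = 0)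
    (hM : lv N L (kk M) = N) (h : ℕ → ℝ) (hh : ∀ j, 0 < h j) {H : ℝ} (hH : ∀ j, h j ≤ H)
    {b σ : ℝ} (hb : 0 < b) (hσ0 : 0 < σ) (hσ1 : σ < 1) (v : List Bool) (hv : v.length = N)
    (hev : ∀ j < M, ¬ (-(σ * ((kk (j+1) : ℝ) - kk j)) ≤
          -(σ * (b / L)) * tc n (lv N L) (kk j) (kk (j+1)) (v.take (lv N L (kk (j+1)))) q +
          (1 - σ) * (√(Real.log 4 / h j) * (x (v.take (lv N L (kk (j+1)))) -
            x ((v.take (lv N L (kk (j+1)))).take (lv N L (kk j)))) -
            ((lv N L (kk (j+1)):ℝ) - lv N L (kk j)) * Real.log 4))) :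
    x v ≤ √(Real.log 4) * (∑ j ∈ Finset.range M,
        √(h j) * ((lv N L (kk (j+1)):ℝ) - lv N L (kk j))) +
      (σ / ((1 - σ) * √(Real.log 4) * L)) * (b * √H * n - (∑ j ∈ Finset.range M,
        √(h j) * ((lv N L (kk (j+1)):ℝ) - lv N L (kk j)))) := by
  have hlog4 : 0 < Real.log 4 := Real.log_pos (by norm_num)
  set c := √(Real.log 4) with hc
  have hc0 : 0 < c := Real.sqrt_pos.2 hlog4
  have hcc : Real.log 4 = c * c := (Real.mul_self_sqrt hlog4.le).symm
  have hL' : (0:ℝ) < L := by exact_mod_cast hL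
  have hs : 0 < 1 - σ := by linarith
  set κ := σ / ((1 - σ) * c * L) with hκ
  have hκ0 : 0 < κ := by rw [hκ]; positivity
  set T : ℕ → ℝ := fun j => ∑ i ∈ Finset.Ico (kk j) (kk (j+1)),
    (cst n q (v.take (lv N L i)) (v.take (lv N L (i+1))) : ℝ) with hT
  have hT0 : ∀ j, 0 ≤ T j := fun j => Finset.sum_nonneg (fun _ _ => by positivity)
  set D : ℕ → ℝ := fun j => x (v.take (lv N L (kk (j+1)))) - x (v.take (lv N L (kk j))) with hD
  have hDj : ∀ j < M, D j ≤ c * (√(h j) * ((lv N L (kk (j+1)):ℝ) - lv N L (kk j))) +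
      κ * (b * (√(h j) * T j) - √(h j) * ((lv N L (kk (j+1)):ℝ) - lv N L (kk j))) := by
    intro j hj
    have he := hev j hj
    rw [tc_take n (lv N L) (lv_mono N L), List.take_take,
      min_eq_left (lv_mono N L (hkk (Nat.le_succ j))), not_le] at he
    have hkd : ((lv N L (kk (j+1)):ℝ) - lv N L (kk j)) ≤ ((kk (j+1) : ℝ) - kk j) * L :=
      lv_sub_le N L (hkk (Nat.le_succ j))
    set len := ((lv N L (kk (j+1)):ℝ) - lv N L (kk j)) with hlen
    set d := ((kk (j+1) : ℝ) - kk j) with hd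
    have hw : 0 < √(h j) := Real.sqrt_pos.2 (hh j)
    set w := √(h j) with hwdef
    have hsq : √(Real.log 4 / h j) = c / w := by
      rw [Real.sqrt_div hlog4.le]
    rw [hsq] at he
    have he2 : (1 - σ) * (c / w) * D j < σ * (b / L) * T j - σ * d + (1 - σ) * (len * (c * c)) := by
      rw [hcc] at he
      have : (1 - σ) * (c / w * D j - len * (c * c)) =
        (1 - σ) * (c / w) * D j - (1 - σ) * (len * (c * c)) := by ring
      have he3 : -(σ * (b / L)) * T j + (1 - σ) * (c / w * D j - len * (c * c)) < -(σ * d) := he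
      rw [this] at he3
      linarith
    have hdl : len / L ≤ d := by
      rw [div_le_iff₀ hL']; exact hkd
    have he4 : (1 - σ) * (c / w) * D j ≤ σ * (b / L) * T j - σ * (len / L) +
        (1 - σ) * (len * (c * c)) := by
      have : σ * (len / L) ≤ σ * d := mul_le_mul_of_nonneg_left hdl hσ0.le
      linarith
    have he5 : D j = ((1 - σ) * (c / w) * D j) * (w / ((1 - σ) * c)) := by
      field_simp
    rw [he5]
    have he6 : 0 < w / ((1 - σ) * c) := by positivity
    calc _ ≤ (σ * (b / L) * T j - σ * (len / L) +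
        (1 - σ) * (len * (c * c))) * (w / ((1 - σ) * c)) := by gcongr
      _ = _ := by
        rw [hκ]
        field_simp
        ring
  have hsumD : ∑ j ∈ Finset.range M, D j = x v := by
    rw [hD, Finset.sum_range_sub (fun j => x (v.take (lv N L (kk j))))]
    rw [hM, h0, List.take_of_length_le (by omega)]
    have : lv N L 0 = 0 := by unfold lv; simp
    rw [this, List.take_zero, hx0, sub_zero]
  have hsumT : ∑ j ∈ Finset.range M, T j ≤ n := by
    rw [hT, sum_Ico_blocks kk hkk, h0]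
    have h1 := sum_cst_le n q v (lv N L) (lv_mono N L) (kk M)
    rw [← Finset.range_eq_Ico]
    exact_mod_cast h1
  have hsumT2 : ∑ j ∈ Finset.range M, √(h j) * T j ≤ √H * n := by
    calc _ ≤ ∑ j ∈ Finset.range M, √H * T j := by
          apply Finset.sum_le_sum
          intro j _
          exact mul_le_mul_of_nonneg_right (Real.sqrt_le_sqrt (hH j)) (hT0 j)
      _ = √H * ∑ j ∈ Finset.range M, T j := by rw [Finset.mul_sum]
      _ ≤ √H * n := by gcongr
  rw [← hsumD]
  calc ∑ j ∈ Finset.range M, D j ≤ ∑ j ∈ Finset.range M,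
        (c * (√(h j) * ((lv N L (kk (j+1)):ℝ) - lv N L (kk j))) +
        κ * (b * (√(h j) * T j) - √(h j) * ((lv N L (kk (j+1)):ℝ) - lv N L (kk j)))) :=
        Finset.sum_le_sum (fun j hj => hDj j (Finset.mem_range.1 hj))
    _ = c * (∑ j ∈ Finset.range M, √(h j) * ((lv N L (kk (j+1)):ℝ) - lv N L (kk j))) +
        κ * (b * (∑ j ∈ Finset.range M, √(h j) * T j) -
          ∑ j ∈ Finset.range M, √(h j) * ((lv N L (kk (j+1)):ℝ) - lv N L (kk j))) := by
        rw [Finset.sum_add_distrib, ← Finset.mul_sum, ← Finset.mul_sum, Finset.sum_sub_distrib,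
          ← Finset.mul_sum]
    _ ≤ _ := by
        have : b * (∑ j ∈ Finset.range M, √(h j) * T j) ≤ b * √H * n := by
          rw [mul_assoc]
          exact mul_le_mul_of_nonneg_left hsumT2 hb.le
        gcongr

end Pool.Agent.H654R3.Crem
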