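import Pool.Agent.H654R3.CremPot

namespace Pool.Agent.H654R3.Crem

open MeasureTheory ProbabilityTheory
open scoped ENNReal NNReal

section expect
variable {N : ℕ} (alg : Algorithm N) (n : ℕ) (lev : ℕ → ℕ) (k0 : ℕ) (θ s x : ℝ)
variable {Ω : Type*} [mΩ : MeasurableSpace Ω] {P : Measure Ω} [IsProbabilityMeasure P]
  {ξ : List Bool → Ω → ℝ} {U : ℕ → Ω → ℝ}

/-- the configuration -/
def cfg (ξ : List Bool → Ω → ℝ) (U : ℕ → Ω → ℝ) (ω : Ω) : Cfg := (fun v => ξ v ω, fun n => U n ω)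

omit mΩ in
lemma cfg_fst (ω : Ω) : (cfg ξ U ω).1 = fun v => ξ v ω := rfl

lemma measurable_cfg (hξ : ∀ v, Measurable (ξ v)) (hU : ∀ n, Measurable (U n)) :
    Measurable (cfg ξ U) := by
  unfold cfg
  exact (measurable_pi_lambda _ hξ).prodMk (measurable_pi_lambda _ hU)

/-- increments of `X` over an extension are sums of strictly lower `ξ`s -/
lemma X_append_sub (ξ : List Bool → ℝ) (u e : List Bool) :
    X ξ (u ++ e) - X ξ u = ∑ i ∈ Finset.range e.length, ξ (u ++ e.take (i+1)) := by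
  unfold X
  rw [List.length_append, Finset.sum_range_add]
  have h1 : ∑ i ∈ Finset.range u.length, ξ ((u ++ e).take (i+1)) =
      ∑ i ∈ Finset.range u.length, ξ (u.take (i+1)) := by
    apply Finset.sum_congr rfl
    intro i hi
    rw [Finset.mem_range] at hi
    rw [List.take_append_of_le_length (by omega)]
  rw [h1, add_sub_cancel_left]
  apply Finset.sum_congr rfl
  intro i _
  congr 1
  rw [List.take_append, List.take_of_length_le (by omega)]
  congr 2
  omega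

lemma gg_congr (u e : List Bool) (c c' : Cfg) (h : ∀ w, SExt u w → c.1 w = c'.1 w) :
    gg θ u e c = gg θ u e c' := by
  unfold gg
  rw [X_append_sub, X_append_sub]
  congr 1
  apply Finset.sum_congr rfl
  intro i hi
  rw [Finset.mem_range] at hi
  apply h
  refine ⟨List.prefix_append _ _, ?_⟩
  intro h2
  have := congrArg List.length h2
  rw [List.length_append, List.length_take] at this
  omega

lemma measurable_gg (u e : List Bool) : Measurable (gg θ u e) := by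
  unfold gg
  have h1 : Measurable (fun c : Cfg => X c.1 u) := (measurable_X u).comp measurable_fst
  have h2 : Measurable (fun c : Cfg => X c.1 (u ++ e)) :=
      (measurable_X _).comp measurable_fst
  fun_prop

lemma lint_step_vertex (hξ : ∀ v, Measurable (ξ v)) (hU : ∀ n, Measurable (U n))
    (hind : iIndepFun (fun i : List Bool ⊕ ℕ => (Sum.elim ξ U i : Ω → ℝ)) P)
    (k r : ℕ) (u : List Bool) :
    ∫⁻ ω, Ph alg n lev k0 θ s x k u (cfg ξ U ω) * (Wt (gg θ u) r (cfg ξ U ω)) ^ s ∂P =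
    (∫⁻ ω, Ph alg n lev k0 θ s x k u (cfg ξ U ω) ∂P) *
      ∫⁻ ω, (Wt (fun e ω => gg θ u e (cfg ξ U ω)) r ω) ^ s ∂P := by
  have h := lint_indep (P := P) hξ hU hind u (Ph alg n lev k0 θ s x k u)
    (measurable_Ph alg n lev k0 θ s x k u) (fun ξ ξ' r h => Ph_congr alg n lev k0 θ s x k u ξ ξ' r h)
    (fun z => (Wt (gg θ u) r ((z, fun _ => 0) : Cfg)) ^ s)
    (by
      have h1 : Measurable (fun z : List Bool → ℝ => ((z, fun _ => 0) : Cfg)) :=
        measurable_id.prodMk measurable_const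
      exact ((measurable_Wt (fun e _ => measurable_gg θ u e)).comp h1).pow_const s)
    (by
      intro z z' hz
      have : ∀ e, gg θ u e ((z, fun _ => 0) : Cfg) = gg θ u e ((z', fun _ => 0) : Cfg) :=
        fun e => gg_congr θ u e _ _ hz
      unfold Wt
      simp only [this])
  exact h

lemma lint_RR_succ (hξ : ∀ v, Measurable (ξ v)) (hU : ∀ n, Measurable (U n))
    (hind : iIndepFun (fun i : List Bool ⊕ ℕ => (Sum.elim ξ U i : Ω → ℝ)) P)
    (hlev : Monotone lev) (hs0 : 0 < s) (hs1 : s < 1) (hx0 : 0 < x) (hx1 : x ≤ 1)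
    {k : ℕ} (hk : k0 ≤ k) (ρ : ℝ≥0∞)
    (hρ : ∀ u ∈ wd (lev k), ∫⁻ ω, (Wt (fun e ω => gg θ u e (cfg ξ U ω))
      (lev (k+1) - lev k) ω) ^ s ∂P ≤ ρ) :
    ∫⁻ ω, RR alg n lev k0 θ s x (k+1) (cfg ξ U ω) ∂P ≤ ((ENNReal.ofReal (2 / x)) ^ (1 - s) * ρ) *
      ∫⁻ ω, RR alg n lev k0 θ s x k (cfg ξ U ω) ∂P := by
  have hc := measurable_cfg hξ hU
  calc _ ≤ ∫⁻ ω, (ENNReal.ofReal (2 / x)) ^ (1 - s) *
      ∑ u ∈ wd (lev k), (Ph alg n lev k0 θ s x k u (cfg ξ U ω) *
        (Wt (gg θ u) (lev (k+1) - lev k) (cfg ξ U ω)) ^ s) ∂P := by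
        apply lintegral_mono
        intro ω
        exact step_all alg n lev k0 θ s x hlev hs0 hs1 hx0 hx1 hk (cfg ξ U ω)
    _ = (ENNReal.ofReal (2 / x)) ^ (1 - s) *
      ∑ u ∈ wd (lev k), ∫⁻ ω, (Ph alg n lev k0 θ s x k u (cfg ξ U ω) *
        (Wt (gg θ u) (lev (k+1) - lev k) (cfg ξ U ω)) ^ s) ∂P := by
        have hm : ∀ u, Measurable (fun ω => (Ph alg n lev k0 θ s x k u (cfg ξ U ω) *
          (Wt (gg θ u) (lev (k+1) - lev k) (cfg ξ U ω)) ^ s)) := by
          intro u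
          apply Measurable.mul
          · exact (measurable_Ph alg n lev k0 θ s x k u).comp hc
          · exact ((measurable_Wt (fun e _ => measurable_gg θ u e)).comp hc).pow_const s
        rw [lintegral_const_mul _ (Finset.measurable_sum _ (fun u _ => hm u)),
          lintegral_finsetSum _ (fun u _ => hm u)]
    _ ≤ (ENNReal.ofReal (2 / x)) ^ (1 - s) *
      ∑ u ∈ wd (lev k), ((∫⁻ ω, Ph alg n lev k0 θ s x k u (cfg ξ U ω) ∂P) * ρ) := by
        gcongr with u hu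
        rw [lint_step_vertex alg n lev k0 θ s x hξ hU hind]
        gcongr
        exact hρ u hu
    _ = ((ENNReal.ofReal (2 / x)) ^ (1 - s) * ρ) *
      ∫⁻ ω, RR alg n lev k0 θ s x k (cfg ξ U ω) ∂P := by
        unfold RR
        have hm2 : ∀ u, Measurable (fun ω => Ph alg n lev k0 θ s x k u (cfg ξ U ω)) := fun u =>
          (measurable_Ph alg n lev k0 θ s x k u).comp hc
        rw [lintegral_finsetSum _ (fun u _ => hm2 u), ← Finset.sum_mul]
        ring

lemma lint_RR (hξ : ∀ v, Measurable (ξ v)) (hU : ∀ n, Measurable (U n))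
    (hind : iIndepFun (fun i : List Bool ⊕ ℕ => (Sum.elim ξ U i : Ω → ℝ)) P)
    (hlev : Monotone lev) (hs0 : 0 < s) (hs1 : s < 1) (hx0 : 0 < x) (hx1 : x ≤ 1)
    (ρ : ℕ → ℝ≥0∞) {k : ℕ} (hk : k0 ≤ k)
    (hρ : ∀ i, k0 ≤ i → i < k → ∀ u ∈ wd (lev i), ∫⁻ ω, (Wt (fun e ω => gg θ u e (cfg ξ U ω))
      (lev (i+1) - lev i) ω) ^ s ∂P ≤ ρ i) :
    ∫⁻ ω, RR alg n lev k0 θ s x k (cfg ξ U ω) ∂P ≤
      n * ∏ i ∈ Finset.Ico k0 k, ((ENNReal.ofReal (2 / x)) ^ (1 - s) * ρ i) := by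
  induction k, hk using Nat.le_induction with
  | base =>
    simp only [Finset.Ico_self, Finset.prod_empty, mul_one]
    calc _ ≤ ∫⁻ ω, (n:ℝ≥0∞) ∂P := lintegral_mono (fun ω => RR_start alg n lev k0 θ s x _)
      _ = n := by simp
  | succ k hk ih =>
    have ih' := ih (fun i hi hik => hρ i hi (by omega))
    have h1 := lint_RR_succ alg n lev k0 θ s x hξ hU hind hlev hs0 hs1 hx0 hx1 hk (ρ k)
      (hρ k hk (by omega))
    rw [Finset.prod_Ico_succ_top hk]
    calc _ ≤ _ := h1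
      _ ≤ ((ENNReal.ofReal (2 / x)) ^ (1 - s) * ρ k) *
        (n * ∏ i ∈ Finset.Ico k0 k, ((ENNReal.ofReal (2 / x)) ^ (1 - s) * ρ i)) := by gcongr
      _ = _ := by ring

/-- The main probabilistic estimate on a range of blocks. -/
lemma pot_bound (hξ : ∀ v, Measurable (ξ v)) (hU : ∀ n, Measurable (U n))
    (hind : iIndepFun (fun i : List Bool ⊕ ℕ => (Sum.elim ξ U i : Ω → ℝ)) P)
    (hlev : Monotone lev) (hs0 : 0 < s) (hs1 : s < 1) (hx0 : 0 < x) (hx1 : x ≤ 1)
    (ρ : ℕ → ℝ≥0∞) {k : ℕ} (hk : k0 ≤ k)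
    (hρ : ∀ i, k0 ≤ i → i < k → ∀ u ∈ wd (lev i), ∫⁻ ω, (Wt (fun e ω => gg θ u e (cfg ξ U ω))
      (lev (i+1) - lev i) ω) ^ s ∂P ≤ ρ i) (z : ℝ) :
    P {ω | ∃ v : List Bool, v.length = lev k ∧
        Vis n (query alg (X (fun v => ξ v ω)) (fun m => U m ω)) v ∧
        -z ≤ -((1-s)*x) * tc n lev k0 k v (query alg (X (fun v => ξ v ω)) (fun m => U m ω)) +
          s * (θ * (X (fun v => ξ v ω) v - X (fun v => ξ v ω) (v.take (lev k0))) -
            ((lev k:ℝ) - lev k0) * Real.log 4)} ≤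
      ENNReal.ofReal (Real.exp z) *
      (n * ∏ i ∈ Finset.Ico k0 k, ((ENNReal.ofReal (2 / x)) ^ (1 - s) * ρ i)) := by
  classical
  have hc := measurable_cfg hξ hU
  have hRm : Measurable (fun ω => RR alg n lev k0 θ s x k (cfg ξ U ω)) := by
    unfold RR
    apply Finset.measurable_sum
    intro u _
    exact (measurable_Ph alg n lev k0 θ s x k u).comp hc
  have hsub : {ω | ∃ v : List Bool, v.length = lev k ∧
        Vis n (query alg (X (fun v => ξ v ω)) (fun m => U m ω)) v ∧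
        -z ≤ -((1-s)*x) * tc n lev k0 k v (query alg (X (fun v => ξ v ω)) (fun m => U m ω)) +
          s * (θ * (X (fun v => ξ v ω) v - X (fun v => ξ v ω) (v.take (lev k0))) -
            ((lev k:ℝ) - lev k0) * Real.log 4)} ⊆
      {ω | ENNReal.ofReal (Real.exp (-z)) ≤ RR alg n lev k0 θ s x k (cfg ξ U ω)} := by
    rintro ω ⟨v, hl, hV, hw⟩
    have hq : ∀ t < n, qq alg n (cfg ξ U ω) t =
        query alg (X (fun v => ξ v ω)) (fun m => U m ω) t := fun t ht => extd_hist alg n _ ht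
    have hV' : Vis n (qq alg n (cfg ξ U ω)) v := (vis_congr hq v).2 hV
    have htc : tc n lev k0 k v (query alg (X (fun v => ξ v ω)) (fun m => U m ω)) =
        tc n lev k0 k v (qq alg n (cfg ξ U ω)) := by
      unfold tc
      apply Finset.sum_congr rfl
      intro i _
      rw [cst_congr hq]
    show ENNReal.ofReal (Real.exp (-z)) ≤ RR alg n lev k0 θ s x k (cfg ξ U ω)
    unfold RR
    refine le_trans ?_ (Finset.single_le_sum (f := fun u =>
      Ph alg n lev k0 θ s x k u (cfg ξ U ω)) (fun _ _ => bot_le) (mem_wd.2 hl))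
    show _ ≤ Ph alg n lev k0 θ s x k v (cfg ξ U ω)
    unfold Ph
    simp only [hV', if_true]
    rw [← ENNReal.ofReal_mul (by positivity), ← Real.exp_add, ← htc]
    apply ENNReal.ofReal_le_ofReal
    apply Real.exp_le_exp.2
    exact hw
  calc _ ≤ P {ω | ENNReal.ofReal (Real.exp (-z)) ≤ RR alg n lev k0 θ s x k (cfg ξ U ω)} :=
        measure_mono hsub
    _ ≤ (∫⁻ ω, RR alg n lev k0 θ s x k (cfg ξ U ω) ∂P) / ENNReal.ofReal (Real.exp (-z)) :=
        meas_ge_le_lintegral_div hRm.aemeasurable (by simp [Real.exp_pos]) (by simp)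
    _ = ENNReal.ofReal (Real.exp z) * (∫⁻ ω, RR alg n lev k0 θ s x k (cfg ξ U ω) ∂P) := by
        rw [ENNReal.div_eq_inv_mul, ← ENNReal.ofReal_inv_of_pos (Real.exp_pos _), ← Real.exp_neg,
          neg_neg]
    _ ≤ _ := by
        gcongr
        exact lint_RR alg n lev k0 θ s x hξ hU hind hlev hs0 hs1 hx0 hx1 ρ hk hρ

end expect

end Pool.Agent.H654R3.Crem
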