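import Mathlib

namespace Pool.Agent.H654R3.Crem

open MeasureTheory Set Filter Topology

section riem

/-- local supremum of `a` near `j / M` -/
noncomputable def hh (a : ℝ → ℝ) (M j : ℕ) : ℝ :=
  sSup (a '' {t | t ∈ Icc (0:ℝ) 1 ∧ |t - j / M| ≤ 3 / M})

variable {a : ℝ → ℝ} {B : ℝ}

lemma hh_nonneg (ha0 : ∀ t ∈ Icc (0:ℝ) 1, 0 ≤ a t) (M j : ℕ) : 0 ≤ hh a M j := by
  apply Real.sSup_nonneg
  rintro _ ⟨t, ht, rfl⟩
  exact ha0 t ht.1

lemma hh_le (hB : 0 ≤ B) (hbd : ∀ t ∈ Icc (0:ℝ) 1, a t ≤ B) (M j : ℕ) : hh a M j ≤ B := by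
  apply Real.sSup_le _ hB
  rintro _ ⟨t, ht, rfl⟩
  exact hbd t ht.1

lemma le_hh (hbd : ∀ t ∈ Icc (0:ℝ) 1, a t ≤ B) {M j : ℕ} {t : ℝ} (ht : t ∈ Icc (0:ℝ) 1)
    (h : |t - j / M| ≤ 3 / M) : a t ≤ hh a M j := by
  apply le_csSup
  · refine ⟨B, ?_⟩
    rintro _ ⟨t, ht, rfl⟩
    exact hbd t ht.1
  · exact ⟨t, ⟨ht, h⟩, rfl⟩

/-- upper step function -/
noncomputable def HM (a : ℝ → ℝ) (M : ℕ) (t : ℝ) : ℝ := hh a M ⌊t * M⌋₊

lemma measurable_HM (M : ℕ) : Measurable (HM a M) := by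
  unfold HM
  have h1 : Measurable (fun t : ℝ => ⌊t * (M:ℝ)⌋₊) := Nat.measurable_floor.comp (by fun_prop)
  exact (measurable_from_nat (f := fun j => hh a M j)).comp h1

lemma floor_close {M : ℕ} (hM : 0 < M) {t : ℝ} (ht : 0 ≤ t) :
    |t - (⌊t * M⌋₊ : ℕ) / (M:ℝ)| ≤ 1 / M := by
  have hM' : (0:ℝ) < M := by exact_mod_cast hM
  have h1 : ((⌊t * M⌋₊ : ℕ) : ℝ) ≤ t * M := Nat.floor_le (by positivity)
  have h2 : t * M < (⌊t * M⌋₊ : ℕ) + 1 := Nat.lt_floor_add_one _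
  rw [show t - (⌊t * M⌋₊ : ℕ) / (M:ℝ) = (t * M - (⌊t * M⌋₊ : ℕ)) / M by field_simp]
  rw [abs_div, abs_of_pos hM', div_le_div_iff_of_pos_right hM', abs_le]
  constructor <;> linarith

lemma tendsto_HM (hbd : ∀ t ∈ Icc (0:ℝ) 1, a t ≤ B) {t : ℝ} (ht : t ∈ Icc (0:ℝ) 1)
    (hc : ContinuousWithinAt a (Icc (0:ℝ) 1) t) :
    Tendsto (fun M => HM a M t) atTop (𝓝 (a t)) := by
  rw [Metric.tendsto_atTop]
  intro ε hε
  rw [Metric.continuousWithinAt_iff] at hc
  obtain ⟨δ, hδ, hc⟩ := hc (ε/2) (by positivity)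
  obtain ⟨M0, hM0⟩ := exists_nat_gt (4 / δ)
  refine ⟨M0 + 1, fun M hM => ?_⟩
  have hMpos : 0 < M := by omega
  have hM' : (0:ℝ) < M := by exact_mod_cast hMpos
  have hMδ : 4 / (M:ℝ) < δ := by
    rw [div_lt_iff₀ hM']
    have : (M0:ℝ) ≤ M := by exact_mod_cast (by omega : M0 ≤ M)
    rw [div_lt_iff₀ hδ] at hM0
    nlinarith
  have hfl := floor_close hMpos ht.1
  have h1 : a t ≤ HM a M t := by
    unfold HM
    apply le_hh hbd ht
    refine hfl.trans ?_
    gcongr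
    norm_num
  have h2 : HM a M t ≤ a t + ε / 2 := by
    unfold HM hh
    apply csSup_le
    · exact ⟨a t, t, ⟨ht, hfl.trans (by gcongr; norm_num)⟩, rfl⟩
    · rintro _ ⟨s, ⟨hs, hs2⟩, rfl⟩
      have h3 : dist s t < δ := by
        rw [Real.dist_eq]
        calc |s - t| = |(s - (⌊t * M⌋₊ : ℕ) / (M:ℝ)) - (t - (⌊t * M⌋₊ : ℕ) / (M:ℝ))| := by
              congr 1; ring
          _ ≤ |s - (⌊t * M⌋₊ : ℕ) / (M:ℝ)| + |t - (⌊t * M⌋₊ : ℕ) / (M:ℝ)| := abs_sub _ _
          _ ≤ 3 / M + 1 / M := add_le_add hs2 hfl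
          _ = 4 / M := by ring
          _ < δ := hMδ
      have h4 := hc hs h3
      rw [Real.dist_eq] at h4
      have := (abs_lt.1 h4).2
      linarith
  rw [Real.dist_eq, abs_lt]
  constructor <;> linarith

lemma intInt_HM (hB : 0 ≤ B)
    (hbd : ∀ t ∈ Icc (0:ℝ) 1, a t ≤ B) (M : ℕ) (c d : ℝ) :
    IntervalIntegrable (fun t => √(HM a M t)) volume c d := by
  have h : IntervalIntegrable (fun _ : ℝ => √B) volume c d := by simp
  apply h.mono_fun
  · exact ((measurable_HM M).sqrt).aestronglyMeasurable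
  · filter_upwards with t
    rw [Real.norm_eq_abs, Real.norm_eq_abs, abs_of_nonneg (by positivity),
      abs_of_nonneg (by positivity)]
    exact Real.sqrt_le_sqrt (hh_le hB hbd _ _)

lemma integral_HM (hB : 0 ≤ B)
    (hbd : ∀ t ∈ Icc (0:ℝ) 1, a t ≤ B) {M : ℕ} (hM : 0 < M) :
    ∫ t in (0:ℝ)..1, √(HM a M t) = (∑ j ∈ Finset.range M, √(hh a M j)) / M := by
  have hM' : (0:ℝ) < M := by exact_mod_cast hM
  have h1 := intervalIntegral.sum_integral_adjacent_intervals (μ := volume)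
    (f := fun t => √(HM a M t)) (a := fun k : ℕ => (k:ℝ) / M) (n := M)
    (fun k _ => intInt_HM hB hbd M _ _)
  simp only [Nat.cast_zero, zero_div, div_self hM'.ne'] at h1
  rw [← h1, Finset.sum_div]
  apply Finset.sum_congr rfl
  intro j _
  have h2 : ∫ t in ((j:ℝ) / M)..(((j+1 : ℕ) : ℝ) / M), √(HM a M t) =
      ∫ t in ((j:ℝ) / M)..(((j+1 : ℕ) : ℝ) / M), √(hh a M j) := by
    apply intervalIntegral.integral_congr_ae
    have h3 : ∀ᵐ t : ℝ, t ≠ ((j+1 : ℕ) : ℝ) / M := by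
      have := (measure_eq_zero_iff_ae_notMem (μ := (volume : Measure ℝ))).1
        (measure_singleton (((j+1 : ℕ) : ℝ) / M))
      filter_upwards [this] with t ht
      simpa using ht
    filter_upwards [h3] with t ht hmem
    rw [uIoc_of_le (by gcongr; omega)] at hmem
    have h4 : t < ((j+1 : ℕ) : ℝ) / M := lt_of_le_of_ne hmem.2 ht
    have h5 : ⌊t * M⌋₊ = j := by
      rw [Nat.floor_eq_iff]
      · constructor
        · have := hmem.1
          rw [div_lt_iff₀ hM'] at this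
          exact this.le
        · rw [lt_div_iff₀ hM'] at h4
          push_cast at h4
          exact h4
      · have := hmem.1
        have h0 : (0:ℝ) ≤ j / M := by positivity
        have : 0 ≤ t := by linarith
        positivity
    unfold HM
    rw [h5]
  rw [h2, intervalIntegral.integral_const, smul_eq_mul]
  push_cast
  field_simp
  ring

/-- Upper Riemann sums with overlapping windows for `√a`. -/
lemma exists_steps (ha0 : ∀ t ∈ Icc (0:ℝ) 1, 0 ≤ a t) (hB : 0 ≤ B)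
    (hbd : ∀ t ∈ Icc (0:ℝ) 1, a t ≤ B)
    (hcont : ∀ᵐ t ∂(volume.restrict (Icc (0:ℝ) 1)), ContinuousWithinAt a (Icc (0:ℝ) 1) t)
    {ε : ℝ} (hε : 0 < ε) :
    ∃ (M : ℕ) (h : ℕ → ℝ), 0 < M ∧ (∀ j, 0 < h j) ∧ (∀ j, h j ≤ B + 1) ∧
      (∀ j : ℕ, ∀ t ∈ Icc (0:ℝ) 1, |t - j / M| ≤ 3 / M → a t ≤ h j) ∧
      ∑ j ∈ Finset.range M, √(h j) ≤ M * ((∫ t in (0:ℝ)..1, √(a t)) + ε) := by
  have hlim : Tendsto (fun M : ℕ => ∫ t in (0:ℝ)..1, √(HM a M t)) atTop
      (𝓝 (∫ t in (0:ℝ)..1, √(a t))) := by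
    apply intervalIntegral.tendsto_integral_filter_of_dominated_convergence (fun _ => √B)
    · filter_upwards with M
      exact ((measurable_HM M).sqrt).aestronglyMeasurable
    · filter_upwards with M
      filter_upwards with t _
      rw [Real.norm_eq_abs, abs_of_nonneg (by positivity)]
      exact Real.sqrt_le_sqrt (hh_le hB hbd _ _)
    · simp
    · rw [ae_restrict_iff' measurableSet_Icc] at hcont
      filter_upwards [hcont] with t ht hmem
      rw [uIoc_of_le zero_le_one] at hmem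
      have hmem' : t ∈ Icc (0:ℝ) 1 := ⟨hmem.1.le, hmem.2⟩
      exact (tendsto_HM hbd hmem' (ht hmem')).sqrt
  have h1 := (Metric.tendsto_atTop.1 hlim) (ε/2) (by positivity)
  obtain ⟨M0, hM0⟩ := h1
  have h2 := hM0 (M0 + 1) (by omega)
  set M := M0 + 1 with hM
  have hM' : (0:ℝ) < M := by rw [hM]; positivity
  rw [Real.dist_eq] at h2
  have h3 := (abs_lt.1 h2).2
  rw [integral_HM hB hbd (by omega)] at h3
  set δ := min 1 ((ε/2)^2) with hδ
  have hδ0 : 0 < δ := by rw [hδ]; positivity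
  refine ⟨M, fun j => hh a M j + δ, by omega, ?_, ?_, ?_, ?_⟩
  · intro j
    have := hh_nonneg ha0 M j
    show 0 < hh a M j + δ
    linarith
  · intro j
    have := hh_le hB hbd M j
    have h4 : δ ≤ 1 := min_le_left _ _
    show hh a M j + δ ≤ B + 1
    linarith
  · intro j t ht h
    have := le_hh hbd ht h
    show a t ≤ hh a M j + δ
    linarith
  · have h4 : ∀ j, √(hh a M j + δ) ≤ √(hh a M j) + ε / 2 := by
      intro j
      have h5 : δ ≤ (ε/2)^2 := min_le_right _ _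
      have h6 := hh_nonneg ha0 M j
      rw [Real.sqrt_le_iff]
      refine ⟨by positivity, ?_⟩
      have h7 := Real.sq_sqrt h6
      have h8 : 0 ≤ √(hh a M j) * ε := by positivity
      nlinarith
    have h5 : ∑ j ∈ Finset.range M, √(hh a M j) <
        M * ((∫ t in (0:ℝ)..1, √(a t)) + ε / 2) := by
      have : (∑ j ∈ Finset.range M, √(hh a M j)) / M < (∫ t in (0:ℝ)..1, √(a t)) + ε / 2 := by
        linarith
      rw [div_lt_iff₀ hM'] at this
      linarith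
    calc ∑ j ∈ Finset.range M, √(hh a M j + δ) ≤
        ∑ j ∈ Finset.range M, (√(hh a M j) + ε / 2) := Finset.sum_le_sum (fun j _ => h4 j)
      _ = ∑ j ∈ Finset.range M, √(hh a M j) + M * (ε / 2) := by
        rw [Finset.sum_add_distrib]; simp
      _ ≤ M * ((∫ t in (0:ℝ)..1, √(a t)) + ε / 2) + M * (ε / 2) := by linarith
      _ = _ := by ring

end riem

end Pool.Agent.H654R3.Crem
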