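import Pool.Agent.H654R3.CremDet
import Pool.Agent.H654R3.CremRiem

namespace Pool.Agent.H654R3.Crem

open MeasureTheory ProbabilityTheory Set
open scoped ENNReal NNReal

/-- macro-block boundaries, in blocks -/
def kx (N L M j : ℕ) : ℕ := j * (N / L + 1) / M

lemma kx_mono (N L M : ℕ) : Monotone (kx N L M) := by
  intro i j h
  unfold kx
  exact Nat.div_le_div_right (Nat.mul_le_mul_right _ h)

lemma kx_zero (N L M : ℕ) : kx N L M 0 = 0 := by simp [kx]

lemma kx_top (N L : ℕ) {M : ℕ} (hM : 0 < M) : kx N L M M = N / L + 1 := by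
  unfold kx
  exact Nat.mul_div_cancel_left _ hM

lemma lv_top (N : ℕ) {L : ℕ} (hL : 0 < L) : lv N L (N / L + 1) = N := by
  unfold lv
  apply min_eq_right
  have := Nat.lt_mul_div_succ N hL
  rw [Nat.mul_comm] at this
  exact this.le

lemma kx_real_le (N L : ℕ) {M : ℕ} (hM : 0 < M) (j : ℕ) :
    (kx N L M j : ℝ) ≤ j * ((N / L + 1 : ℕ) : ℝ) / M := by
  unfold kx
  have h := @Nat.cast_div_le ℝ _ _ _ (j * (N / L + 1)) M
  rwa [Nat.cast_mul] at h

lemma kx_real_ge (N L : ℕ) {M : ℕ} (hM : 0 < M) (j : ℕ) :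
    (j:ℝ) * ((N / L + 1 : ℕ) : ℝ) / M - 1 ≤ (kx N L M j : ℝ) := by
  unfold kx
  have hM' : (0:ℝ) < M := by exact_mod_cast hM
  have h := Nat.lt_mul_div_succ (j * (N / L + 1)) hM
  have h2 : ((j * (N / L + 1) : ℕ) : ℝ) < (M:ℝ) * (((j * (N / L + 1) / M : ℕ) : ℝ) + 1) := by
    exact_mod_cast h
  rw [Nat.cast_mul] at h2
  rw [sub_le_iff_le_add, div_le_iff₀ hM']
  linarith

lemma m_real_le (N : ℕ) {L : ℕ} (hL : 0 < L) :
    ((N / L + 1 : ℕ) : ℝ) * L ≤ N + L := by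
  have h : (N / L + 1) * L ≤ N + L := by
    have := Nat.div_mul_le_self N L
    rw [Nat.add_mul]; omega
  exact_mod_cast h

lemma m_real_ge (N : ℕ) {L : ℕ} (hL : 0 < L) :
    (N : ℝ) ≤ ((N / L + 1 : ℕ) : ℝ) * L := by
  have h : N ≤ (N / L + 1) * L := by
    have := Nat.lt_mul_div_succ N hL
    rw [Nat.mul_comm] at this
    exact this.le
  exact_mod_cast h

lemma window_lo {N L M : ℕ} (hL : 0 < L) (hM : 0 < M) (hN : L * M ≤ N) {j : ℕ} (hj : j ≤ M) :
    ((j:ℝ) - 1) / M ≤ (lv N L (kx N L M j) : ℝ) / N := by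
  have hL' : (0:ℝ) < L := by exact_mod_cast hL
  have hM' : (0:ℝ) < M := by exact_mod_cast hM
  have hNLM : (L:ℝ) * M ≤ N := by exact_mod_cast hN
  have hN' : (0:ℝ) < N := lt_of_lt_of_le (by positivity) hNLM
  have h1 := kx_real_ge N L hM j
  have h2 := m_real_ge N hL
  rw [div_le_div_iff₀ hM' hN']
  have hj' : (j:ℝ) ≤ M := by exact_mod_cast hj
  have h3 : (lv N L (kx N L M j) : ℝ) = min ((kx N L M j : ℝ) * L) N := by
    unfold lv; push_cast; rfl
  rw [h3]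
  rcases min_choice ((kx N L M j : ℝ) * L) (N:ℝ) with h | h
  · rw [h]
    have h4 : ((j:ℝ) * ((N / L + 1 : ℕ) : ℝ) / M - 1) * L * M ≤ (kx N L M j : ℝ) * L * M := by
      gcongr
    have h5 : ((j:ℝ) * ((N / L + 1 : ℕ) : ℝ) / M - 1) * L * M =
        j * (((N / L + 1 : ℕ) : ℝ) * L) - L * M := by
      field_simp
    have h6 : (j:ℝ) * N ≤ j * (((N / L + 1 : ℕ) : ℝ) * L) := by gcongr
    rw [h5] at h4
    nlinarith
  · rw [h]
    nlinarith

lemma window_hi {N L M : ℕ} (hL : 0 < L) (hM : 0 < M) (hN : L * M ≤ N) {j : ℕ} (hj : j < M) :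
    (lv N L (kx N L M (j+1)) : ℝ) / N ≤ ((j:ℝ) + 2) / M := by
  have hL' : (0:ℝ) < L := by exact_mod_cast hL
  have hM' : (0:ℝ) < M := by exact_mod_cast hM
  have hNLM : (L:ℝ) * M ≤ N := by exact_mod_cast hN
  have hN' : (0:ℝ) < N := lt_of_lt_of_le (by positivity) hNLM
  have h1 := kx_real_le N L hM (j+1)
  have h2 := m_real_le N hL
  rw [div_le_div_iff₀ hN' hM']
  have hj' : ((j+1 : ℕ):ℝ) ≤ M := by exact_mod_cast hj
  have h3 : (lv N L (kx N L M (j+1)) : ℝ) ≤ (kx N L M (j+1) : ℝ) * L := by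
    unfold lv; push_cast; exact min_le_left _ _
  have h4 : (kx N L M (j+1) : ℝ) * L * M ≤ ((j+1 : ℕ):ℝ) * (N + L) := by
    calc (kx N L M (j+1) : ℝ) * L * M ≤
        (((j+1 : ℕ):ℝ) * ((N / L + 1 : ℕ) : ℝ) / M) * L * M := by gcongr
      _ = ((j+1 : ℕ):ℝ) * (((N / L + 1 : ℕ) : ℝ) * L) := by field_simp
      _ ≤ _ := by gcongr
  have h5 : ((j+1 : ℕ):ℝ) * L ≤ N := by
    calc ((j+1 : ℕ):ℝ) * L ≤ M * L := by gcongr
      _ ≤ N := by linarith
  have h6 : (lv N L (kx N L M (j+1)) : ℝ) * M ≤ (kx N L M (j+1) : ℝ) * L * M := by gcongr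
  push_cast at h4 h5
  nlinarith

lemma len_le {N L M : ℕ} (hL : 0 < L) (hM : 0 < M) (j : ℕ) :
    (lv N L (kx N L M (j+1)) : ℝ) - lv N L (kx N L M j) ≤ (N:ℝ) / M + 2 * L := by
  have hL' : (0:ℝ) < L := by exact_mod_cast hL
  have hM' : (0:ℝ) < M := by exact_mod_cast hM
  have hM1 : (1:ℝ) ≤ M := by exact_mod_cast hM
  have h1 := kx_real_le N L hM (j+1)
  have h2 := kx_real_ge N L hM j
  have h3 := lv_sub_le N L (kx_mono N L M (Nat.le_succ j))
  have h4 : ((kx N L M (j+1) : ℝ) - kx N L M j) ≤ ((N / L + 1 : ℕ) : ℝ) / M + 1 := by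
    push_cast at h1 ⊢
    have : ((j:ℝ) + 1) * ((N / L : ℕ) + 1 : ℝ) / M =
      (j:ℝ) * ((N / L : ℕ) + 1 : ℝ) / M + ((N / L : ℕ) + 1 : ℝ) / M := by ring
    push_cast at h2
    linarith
  calc _ ≤ _ := h3
    _ ≤ (((N / L + 1 : ℕ) : ℝ) / M + 1) * L := by gcongr
    _ = (((N / L + 1 : ℕ) : ℝ) * L) / M + L := by ring
    _ ≤ (N + L) / M + L := by
      gcongr
      exact m_real_le N hL
    _ = N / M + L / M + L := by ring
    _ ≤ N / M + L + L := by
      have : (L:ℝ) / M ≤ L := div_le_self hL'.le hM1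
      linarith
    _ = _ := by ring

lemma diff_ge {N L M : ℕ} (hL : 0 < L) (hM : 0 < M) (j : ℕ) :
    (N:ℝ) / (L * M) - 1 ≤ ((kx N L M (j+1) : ℝ) - kx N L M j) := by
  have hL' : (0:ℝ) < L := by exact_mod_cast hL
  have hM' : (0:ℝ) < M := by exact_mod_cast hM
  have h1 := kx_real_ge N L hM (j+1)
  have h2 := kx_real_le N L hM j
  have h3 := m_real_ge N hL
  have h4 : (N:ℝ) / (L * M) ≤ ((N / L + 1 : ℕ) : ℝ) / M := by
    rw [div_le_div_iff₀ (by positivity) hM']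
    calc (N:ℝ) * M ≤ (((N / L + 1 : ℕ) : ℝ) * L) * M := by gcongr
      _ = _ := by ring
  push_cast at h1 h2 h4 ⊢
  have : ((j:ℝ) + 1) * ((N / L : ℕ) + 1 : ℝ) / M =
      (j:ℝ) * ((N / L : ℕ) + 1 : ℝ) / M + ((N / L : ℕ) + 1 : ℝ) / M := by ring
  linarith

/-- bound of increments of `A` -/
lemma A_bound {a : ℝ → ℝ} (hint : IntervalIntegrable a volume 0 1) {c d h : ℝ} (hc : 0 ≤ c)
    (hcd : c ≤ d) (hd : d ≤ 1) (hb : ∀ t ∈ Icc c d, a t ≤ h) :
    (∫ t in (0:ℝ)..d, a t) - (∫ t in (0:ℝ)..c, a t) ≤ h * (d - c) := by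
  have i1 : IntervalIntegrable a volume 0 d := hint.mono_set (by
    rw [uIcc_of_le (by linarith), uIcc_of_le zero_le_one]
    exact Icc_subset_Icc le_rfl hd)
  have i2 : IntervalIntegrable a volume 0 c := hint.mono_set (by
    rw [uIcc_of_le (by linarith), uIcc_of_le zero_le_one]
    exact Icc_subset_Icc le_rfl (by linarith))
  have i3 : IntervalIntegrable a volume c d := hint.mono_set (by
    rw [uIcc_of_le (by linarith), uIcc_of_le zero_le_one]
    exact Icc_subset_Icc hc hd)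
  rw [intervalIntegral.integral_interval_sub_left i1 i2]
  calc _ ≤ ∫ t in c..d, h := by
        apply intervalIntegral.integral_mono_on hcd i3 (by simp) hb
    _ = _ := by simp [mul_comm]

/-- the variance of the increment at level `i` -/
noncomputable def incVar (a : ℝ → ℝ) (N i : ℕ) : ℝ≥0 :=
  Real.toNNReal ((N:ℝ) * ((∫ t in (0:ℝ)..((i:ℝ) / N), a t) -
    ∫ t in (0:ℝ)..(((i:ℝ) - 1) / N), a t))

section fixed
variable {a : ℝ → ℝ} {N L M : ℕ} {h : ℕ → ℝ}

lemma seg_window (hL : 0 < L) (hM : 0 < M) (hN : L * M ≤ N) {j : ℕ} (hj : j < M) {t : ℝ}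
    (h1 : (lv N L (kx N L M j) : ℝ) / N ≤ t) (h2 : t ≤ (lv N L (kx N L M (j+1)) : ℝ) / N) :
    t ∈ Icc (0:ℝ) 1 ∧ |t - j / M| ≤ 3 / M := by
  have hL' : (0:ℝ) < L := by exact_mod_cast hL
  have hM' : (0:ℝ) < M := by exact_mod_cast hM
  have hNLM : (L:ℝ) * M ≤ N := by exact_mod_cast hN
  have hN' : (0:ℝ) < N := lt_of_lt_of_le (by positivity) hNLM
  have w1 := window_lo hL hM hN hj.le
  have w2 := window_hi hL hM hN hj
  refine ⟨⟨le_trans (by positivity) h1, h2.trans ?_⟩, ?_⟩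
  · rw [div_le_one hN']
    exact_mod_cast min_le_right _ _
  · rw [abs_le]
    have e1 : ((j:ℝ) - 1) / M = j / M - 1 / M := by ring
    have e2 : ((j:ℝ) + 2) / M = j / M + 2 * (1 / M) := by ring
    have e3 : (3:ℝ) / M = 3 * (1 / M) := by ring
    have e4 : (0:ℝ) < 1 / M := by positivity
    rw [e1] at w1
    rw [e2] at w2
    rw [e3]
    constructor <;> linarith

lemma incVar_le (hint : IntervalIntegrable a volume 0 1) (hL : 0 < L) (hM : 0 < M)
    (hN : L * M ≤ N) (hpos : ∀ j, 0 < h j)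
    (hwin : ∀ j : ℕ, ∀ t ∈ Icc (0:ℝ) 1, |t - j / M| ≤ 3 / M → a t ≤ h j) {j : ℕ} (hj : j < M)
    (i : ℕ) (hi1 : lv N L (kx N L M j) < i) (hi2 : i ≤ lv N L (kx N L M (j+1))) :
    (incVar a N i : ℝ) ≤ h j := by
  have hL' : (0:ℝ) < L := by exact_mod_cast hL
  have hM' : (0:ℝ) < M := by exact_mod_cast hM
  have hNLM : (L:ℝ) * M ≤ N := by exact_mod_cast hN
  have hN' : (0:ℝ) < N := lt_of_lt_of_le (by positivity) hNLM
  unfold incVar
  rw [Real.coe_toNNReal', max_le_iff]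
  refine ⟨?_, (hpos j).le⟩
  have hi0 : (1:ℝ) ≤ i := by exact_mod_cast (by omega : 1 ≤ i)
  have hi1' : (lv N L (kx N L M j) : ℝ) + 1 ≤ i := by exact_mod_cast hi1
  have hi2' : (i:ℝ) ≤ lv N L (kx N L M (j+1)) := by exact_mod_cast hi2
  have hiN : (i:ℝ) ≤ N := hi2'.trans (by exact_mod_cast min_le_right _ _)
  have hA := A_bound hint (c := ((i:ℝ) - 1) / N) (d := (i:ℝ) / N) (h := h j)
    (div_nonneg (by linarith) hN'.le) (by gcongr; linarith) (by rw [div_le_one hN']; exact hiN)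
    (by
      intro t ht
      have := seg_window hL hM hN hj (t := t)
        (le_trans (by gcongr; linarith) ht.1) (le_trans ht.2 (by gcongr))
      exact hwin j t this.1 this.2)
  calc (N:ℝ) * _ ≤ N * (h j * ((i:ℝ) / N - ((i:ℝ) - 1) / N)) := by gcongr
    _ = h j := by field_simp; ring

lemma S_lower (hint : IntervalIntegrable a volume 0 1) (hone : ∫ t in (0:ℝ)..1, a t = 1)
    (hL : 0 < L) (hM : 0 < M)
    (hN : L * M ≤ N) (hpos : ∀ j, 0 < h j) {H : ℝ} (hH : ∀ j, h j ≤ H)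
    (hwin : ∀ j : ℕ, ∀ t ∈ Icc (0:ℝ) 1, |t - j / M| ≤ 3 / M → a t ≤ h j) :
    (N:ℝ) ≤ √H * ∑ j ∈ Finset.range M,
      √(h j) * ((lv N L (kx N L M (j+1)) : ℝ) - lv N L (kx N L M j)) := by
  have hL' : (0:ℝ) < L := by exact_mod_cast hL
  have hM' : (0:ℝ) < M := by exact_mod_cast hM
  have hNLM : (L:ℝ) * M ≤ N := by exact_mod_cast hN
  have hN' : (0:ℝ) < N := lt_of_lt_of_le (by positivity) hNLM
  have h1 := Finset.sum_range_sub (fun j => ∫ t in (0:ℝ)..((lv N L (kx N L M j) : ℝ) / N), a t) M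
  rw [kx_zero, kx_top N L hM, lv_top N hL, div_self hN'.ne', hone] at h1
  have h2 : lv N L 0 = 0 := by unfold lv; simp
  rw [h2] at h1
  simp only [Nat.cast_zero, zero_div, intervalIntegral.integral_same, sub_zero] at h1
  have h3 : (1:ℝ) ≤ ∑ j ∈ Finset.range M, h j * (((lv N L (kx N L M (j+1)) : ℝ) -
      lv N L (kx N L M j)) / N) := by
    rw [← h1]
    apply Finset.sum_le_sum
    intro j hj
    rw [Finset.mem_range] at hj
    have hle : (lv N L (kx N L M j) : ℝ) ≤ lv N L (kx N L M (j+1)) := by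
      exact_mod_cast lv_mono N L (kx_mono N L M (Nat.le_succ j))
    have hA := A_bound hint (c := (lv N L (kx N L M j) : ℝ) / N)
      (d := (lv N L (kx N L M (j+1)) : ℝ) / N) (h := h j) (by positivity) (by gcongr)
      (by rw [div_le_one hN']; exact_mod_cast min_le_right _ _)
      (by
        intro t ht
        have := seg_window hL hM hN hj (t := t) ht.1 ht.2
        exact hwin j t this.1 this.2)
    refine hA.trans (le_of_eq ?_)
    ring
  have h4 : (N:ℝ) ≤ ∑ j ∈ Finset.range M, h j * (((lv N L (kx N L M (j+1)) : ℝ) -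
      lv N L (kx N L M j))) := by
    have : ∑ j ∈ Finset.range M, h j * (((lv N L (kx N L M (j+1)) : ℝ) -
      lv N L (kx N L M j)) / N) = (∑ j ∈ Finset.range M, h j * (((lv N L (kx N L M (j+1)) : ℝ) -
      lv N L (kx N L M j)))) / N := by
      rw [Finset.sum_div]
      apply Finset.sum_congr rfl
      intro j _
      ring
    rw [this, le_div_iff₀ hN'] at h3
    linarith
  refine h4.trans ?_
  rw [Finset.mul_sum]
  apply Finset.sum_le_sum
  intro j _
  have hle : (lv N L (kx N L M j) : ℝ) ≤ lv N L (kx N L M (j+1)) := by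
    exact_mod_cast lv_mono N L (kx_mono N L M (Nat.le_succ j))
  have h5 : h j ≤ √H * √(h j) := by
    calc h j = √(h j) * √(h j) := (Real.mul_self_sqrt (hpos j).le).symm
      _ ≤ √H * √(h j) := by
        apply mul_le_mul_of_nonneg_right (Real.sqrt_le_sqrt (hH j)) (Real.sqrt_nonneg _)
  calc _ ≤ (√H * √(h j)) * ((lv N L (kx N L M (j+1)) : ℝ) - lv N L (kx N L M j)) := by
        apply mul_le_mul_of_nonneg_right h5 (by linarith)
    _ = _ := by ring

lemma S_upper (hL : 0 < L) (hM : 0 < M) {J : ℝ}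
    (hJ : ∑ j ∈ Finset.range M, √(h j) ≤ M * J) :
    ∑ j ∈ Finset.range M,
      √(h j) * ((lv N L (kx N L M (j+1)) : ℝ) - lv N L (kx N L M j)) ≤ (N + 2 * L * M) * J := by
  have hM' : (0:ℝ) < M := by exact_mod_cast hM
  calc _ ≤ ∑ j ∈ Finset.range M, √(h j) * ((N:ℝ) / M + 2 * L) := by
        apply Finset.sum_le_sum
        intro j _
        exact mul_le_mul_of_nonneg_left (len_le hL hM j) (Real.sqrt_nonneg _)
    _ = (∑ j ∈ Finset.range M, √(h j)) * ((N:ℝ) / M + 2 * L) := by rw [Finset.sum_mul]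
    _ ≤ (M * J) * ((N:ℝ) / M + 2 * L) := by gcongr
    _ = _ := by field_simp

end fixed

end Pool.Agent.H654R3.Crem
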