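import Pool.Agent.H654R3.CremDefs

namespace Pool.Agent.H654R3.Crem

open MeasureTheory ProbabilityTheory
open scoped ENNReal NNReal

lemma tilt (v : ℝ≥0) (S : Set ℝ) (hS : MeasurableSet S) :
    ∫⁻ x in S, ENNReal.ofReal (Real.exp x) ∂(gaussianReal 0 v) =
      ENNReal.ofReal (Real.exp (v / 2)) * gaussianReal v v S := by
  by_cases hv : v = 0
  · subst hv
    simp only [gaussianReal_zero_var, NNReal.coe_zero, zero_div, Real.exp_zero, ENNReal.ofReal_one,
      one_mul]
    rw [← lintegral_indicator hS, lintegral_dirac']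
    · by_cases h0 : (0:ℝ) ∈ S
      · rw [Set.indicator_of_mem h0, Measure.dirac_apply' _ hS, Set.indicator_of_mem h0]
        simp
      · rw [Set.indicator_of_notMem h0, Measure.dirac_apply' _ hS, Set.indicator_of_notMem h0]
    · exact (by fun_prop : Measurable fun x : ℝ => ENNReal.ofReal (Real.exp x)).indicator hS
  · rw [gaussianReal_of_var_ne_zero _ hv, gaussianReal_of_var_ne_zero _ hv,
      setLIntegral_withDensity_eq_setLIntegral_mul _ (measurable_gaussianPDF _ _) (by fun_prop) hS,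
      withDensity_apply _ hS, ← lintegral_const_mul _ (measurable_gaussianPDF _ _)]
    apply lintegral_congr
    intro x
    simp only [Pi.mul_apply, gaussianPDF]
    rw [← ENNReal.ofReal_mul (gaussianPDFReal_nonneg _ _ _), ← ENNReal.ofReal_mul (by positivity)]
    congr 1
    unfold gaussianPDFReal
    have hv' : (v:ℝ) ≠ 0 := by exact_mod_cast hv
    have : Real.exp (-(x - 0) ^ 2 / (2 * ↑v)) * Real.exp x =
        Real.exp (↑v / 2) * Real.exp (-(x - ↑v) ^ 2 / (2 * ↑v)) := by
      rw [← Real.exp_add, ← Real.exp_add]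
      congr 1
      field_simp
      ring
    rw [mul_assoc, this]; ring

lemma lint_exp (v : ℝ≥0) :
    ∫⁻ x, ENNReal.ofReal (Real.exp x) ∂(gaussianReal 0 v) = ENNReal.ofReal (Real.exp (v / 2)) := by
  have := tilt v Set.univ MeasurableSet.univ
  simpa using this

lemma gauss_Iio (v : ℝ≥0) (hv : v ≠ 0) (z : ℝ) :
    gaussianReal v v (Set.Iio z) = gaussianReal 0 1 (Set.Iio ((z - v) / Real.sqrt v)) := by
  have h1 : gaussianReal v v = ((gaussianReal 0 1).map (fun x => Real.sqrt v * x)).map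
      (fun x => x + (v:ℝ)) := by
    rw [gaussianReal_map_const_mul, gaussianReal_map_add_const]
    congr 1
    · simp
    · ext; simp
  have hs : 0 < Real.sqrt v := Real.sqrt_pos.2 (by exact_mod_cast pos_iff_ne_zero.2 hv)
  rw [h1, Measure.map_map (by fun_prop) (by fun_prop), Measure.map_apply (by fun_prop)
    measurableSet_Iio]
  congr 1
  ext x
  simp only [Set.mem_preimage, Function.comp_apply, Set.mem_Iio]
  rw [lt_div_iff₀ hs]
  constructor <;> intro h <;> nlinarith

lemma exists_p1 : ∃ p1 : ℝ, 0 < p1 ∧ p1 < 1 ∧ ∀ r : ℕ, 2 ≤ r → ∀ v : ℝ≥0, (v:ℝ) ≤ r * Real.log 4 →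
    ENNReal.ofReal (Real.exp (v / 2 - r * Real.log 2)) *
      gaussianReal v v (Set.Iio (r * Real.log 4 + Real.sqrt r)) ≤ ENNReal.ofReal p1 := by
  have hG : gaussianReal 0 1 (Set.Iio 2) < 1 := by
    have hpos : 0 < gaussianReal 0 1 (Set.Ioi (2:ℝ)) := by
      have : (gaussianReal 0 1) ≠ 0 := by
        intro h; have := measure_univ (μ := gaussianReal 0 1); rw [h] at this; simp at this
      have hac : (volume : Measure ℝ) ≪ gaussianReal 0 1 :=
        gaussianReal_absolutelyContinuous' 0 (by simp)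
      by_contra h0
      have h0' : gaussianReal 0 1 (Set.Ioi (2:ℝ)) = 0 := by
        exact le_antisymm (not_lt.1 h0) bot_le
      have := hac h0'
      simp at this
    have hle : gaussianReal 0 1 (Set.Iio 2) + gaussianReal 0 1 (Set.Ioi (2:ℝ)) ≤ 1 := by
      rw [← measure_union (by
        rw [Set.disjoint_left]; intro x h1 h2; simp only [Set.mem_Iio, Set.mem_Ioi] at h1 h2
        linarith) measurableSet_Ioi]
      exact prob_le_one
    by_contra hcon
    have h1 : 1 ≤ gaussianReal 0 1 (Set.Iio 2) := not_lt.1 hcon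
    have : (1:ℝ≥0∞) < 1 := by
      calc (1:ℝ≥0∞) < 1 + gaussianReal 0 1 (Set.Ioi (2:ℝ)) := by
            apply ENNReal.lt_add_right (by simp) hpos.ne'
        _ ≤ gaussianReal 0 1 (Set.Iio 2) + gaussianReal 0 1 (Set.Ioi (2:ℝ)) := by gcongr
        _ ≤ 1 := hle
    exact lt_irrefl _ this
  set G := (gaussianReal 0 1 (Set.Iio (2:ℝ))).toReal with hGdef
  have hG1 : G < 1 := by
    rw [hGdef]; exact ENNReal.toReal_lt_of_lt_ofReal (by simpa using hG)
  refine ⟨max (Real.exp (-(1/2))) G, lt_max_of_lt_left (Real.exp_pos _),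
    max_lt (by rw [Real.exp_lt_one_iff]; norm_num) hG1, ?_⟩
  intro r hr v hv
  have hlog4 : Real.log 4 = 2 * Real.log 2 := by
    rw [show (4:ℝ) = 2 ^ 2 by norm_num, Real.log_pow]; norm_num
  have hl2 : 0.6931471803 < Real.log 2 := Real.log_two_gt_d9
  by_cases hcase : (v:ℝ) ≤ r * Real.log 4 - 1
  · calc _ ≤ ENNReal.ofReal (Real.exp (v / 2 - r * Real.log 2)) * 1 := by
          gcongr; exact prob_le_one
      _ ≤ _ := by
          rw [mul_one]
          apply ENNReal.ofReal_le_ofReal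
          apply le_max_of_le_left
          apply Real.exp_le_exp.2
          rw [hlog4] at hcase; linarith
  · push Not at hcase
    have hr2 : (2:ℝ) ≤ r := by exact_mod_cast hr
    have hvpos : 0 < (v:ℝ) := by rw [hlog4] at hcase; nlinarith
    have hv0 : v ≠ 0 := by intro h; rw [h] at hvpos; simp at hvpos
    rw [gauss_Iio v hv0]
    have hs : 0 < Real.sqrt v := Real.sqrt_pos.2 hvpos
    have harg : ((r * Real.log 4 + Real.sqrt r) - v) / Real.sqrt v ≤ 2 := by
      rw [div_le_iff₀ hs]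
      have h1 : (r * Real.log 4 + Real.sqrt r) - v ≤ 1 + Real.sqrt r := by linarith
      have h2 : (1 + Real.sqrt r) ≤ 2 * Real.sqrt v := by
        have h3 : (1 + Real.sqrt r) ^ 2 ≤ (2 * Real.sqrt v) ^ 2 := by
          rw [mul_pow, Real.sq_sqrt hvpos.le]
          have h4 : Real.sqrt r ^ 2 = r := Real.sq_sqrt (by positivity)
          have h5 : (1 + Real.sqrt r) ^ 2 ≤ 2 * (1 + r) := by nlinarith [sq_nonneg (1 - Real.sqrt r)]
          rw [hlog4] at hcase
          nlinarith
        exact le_of_sq_le_sq h3 (by positivity)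
      linarith
    calc _ ≤ 1 * gaussianReal 0 1 (Set.Iio 2) := by
          gcongr
          rw [ENNReal.ofReal_le_one]
          rw [← Real.exp_zero]
          apply Real.exp_le_exp.2
          rw [hlog4] at hv; linarith
      _ = ENNReal.ofReal G := by
          rw [one_mul, hGdef, ENNReal.ofReal_toReal (measure_ne_top _ _)]
      _ ≤ _ := ENNReal.ofReal_le_ofReal (le_max_right _ _)

lemma holder_set {Ω : Type*} [MeasurableSpace Ω] {P : Measure Ω} {f : Ω → ℝ≥0∞}
    (hf : Measurable f) {s : ℝ} (hs0 : 0 ≤ s) (hs1 : s ≤ 1) (A : Set Ω) :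
    ∫⁻ ω in A, f ω ^ s ∂P ≤ (∫⁻ ω in A, f ω ∂P) ^ s * (P A) ^ (1 - s) := by
  have := ENNReal.lintegral_mul_norm_pow_le (μ := P.restrict A) (f := f) (g := fun _ => 1)
    hf.aemeasurable aemeasurable_const hs0 (by linarith : 0 ≤ 1 - s) (by ring)
  simpa using this

/-- the block weight -/
noncomputable def Wt {Ω : Type*} (g : List Bool → Ω → ℝ) (r : ℕ) (ω : Ω) : ℝ≥0∞ :=
  ∑ e ∈ wd r, ENNReal.ofReal (Real.exp (g e ω - r * Real.log 4))

section
variable {Ω : Type*} [MeasurableSpace Ω] {P : Measure Ω} [IsProbabilityMeasure P]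
  {g : List Bool → Ω → ℝ} {r : ℕ} {v : ℝ≥0}

lemma measurable_Wt (hg : ∀ e ∈ wd r, Measurable (g e)) : Measurable (Wt g r) := by
  unfold Wt
  apply Finset.measurable_sum
  intro e he
  have := hg e he
  fun_prop

lemma lint_term (hg : ∀ e ∈ wd r, Measurable (g e))
    (hlaw : ∀ e ∈ wd r, P.map (g e) = gaussianReal 0 v) (S : Set ℝ) (hS : MeasurableSet S)
    (e : List Bool) (he : e ∈ wd r) :
    ∫⁻ ω in (g e) ⁻¹' S, ENNReal.ofReal (Real.exp (g e ω - r * Real.log 4)) ∂P =
      ENNReal.ofReal (Real.exp (v / 2 - r * Real.log 4)) * gaussianReal v v S := by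
  have h1 : ∀ ω, ENNReal.ofReal (Real.exp (g e ω - r * Real.log 4)) =
      ENNReal.ofReal (Real.exp (- (r * Real.log 4))) * ENNReal.ofReal (Real.exp (g e ω)) := by
    intro ω
    rw [← ENNReal.ofReal_mul (by positivity), ← Real.exp_add]
    congr 2; ring
  simp_rw [h1]
  rw [lintegral_const_mul _ (by have := hg e he; fun_prop)]
  have h2 : ∫⁻ ω in (g e) ⁻¹' S, ENNReal.ofReal (Real.exp (g e ω)) ∂P =
      ∫⁻ x in S, ENNReal.ofReal (Real.exp x) ∂(P.map (g e)) := by
    rw [setLIntegral_map hS (by fun_prop) (hg e he)]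
  rw [h2, hlaw e he, tilt v S hS, ← mul_assoc, ← ENNReal.ofReal_mul (by positivity),
    ← Real.exp_add]
  congr 3; ring

lemma lint_Wt_le_one (hg : ∀ e ∈ wd r, Measurable (g e))
    (hlaw : ∀ e ∈ wd r, P.map (g e) = gaussianReal 0 v) (hv : (v:ℝ) ≤ r * Real.log 4) :
    ∫⁻ ω, Wt g r ω ∂P ≤ 1 := by
  unfold Wt
  rw [lintegral_finset_sum' _ (fun e he => by have := hg e he; fun_prop)]
  have h1 : ∀ e ∈ wd r, ∫⁻ ω, ENNReal.ofReal (Real.exp (g e ω - r * Real.log 4)) ∂P ≤
      ENNReal.ofReal (Real.exp (-(r * Real.log 2))) := by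
    intro e he
    have := lint_term hg hlaw Set.univ MeasurableSet.univ e he
    simp only [Set.preimage_univ, Measure.restrict_univ, measure_univ, mul_one] at this
    rw [this]
    apply ENNReal.ofReal_le_ofReal
    apply Real.exp_le_exp.2
    have hlog4 : Real.log 4 = 2 * Real.log 2 := by
      rw [show (4:ℝ) = 2 ^ 2 by norm_num, Real.log_pow]; norm_num
    rw [hlog4] at hv ⊢; linarith
  calc _ ≤ ∑ e ∈ wd r, ENNReal.ofReal (Real.exp (-(r * Real.log 2))) := Finset.sum_le_sum h1
    _ = 1 := by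
      rw [Finset.sum_const, card_wd, nsmul_eq_mul, Real.exp_neg, mul_comm (r:ℝ), Real.exp_mul,
        Real.exp_log (by norm_num), Real.rpow_natCast, Nat.cast_pow,
        ENNReal.ofReal_inv_of_pos (by positivity), ENNReal.ofReal_pow (by norm_num)]
      rw [show ENNReal.ofReal 2 = ((2:ℕ):ℝ≥0∞) by simp]
      apply ENNReal.mul_inv_cancel (by positivity) (by simp)

lemma lint_Wt_rpow_le_one (hg : ∀ e ∈ wd r, Measurable (g e))
    (hlaw : ∀ e ∈ wd r, P.map (g e) = gaussianReal 0 v) (hv : (v:ℝ) ≤ r * Real.log 4)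
    {s : ℝ} (hs0 : 0 ≤ s) (hs1 : s ≤ 1) :
    ∫⁻ ω, Wt g r ω ^ s ∂P ≤ 1 := by
  have h := holder_set (P := P) (measurable_Wt hg) hs0 hs1 Set.univ
  simp only [Measure.restrict_univ, measure_univ, ENNReal.one_rpow, mul_one] at h
  exact h.trans (ENNReal.rpow_le_one (lint_Wt_le_one hg hlaw hv) hs0)

/-- the key estimate for one full block -/
lemma lint_Wt_rpow_le {p1 : ℝ} (hp1 : ENNReal.ofReal (Real.exp (v / 2 - r * Real.log 2)) *
      gaussianReal v v (Set.Iio (r * Real.log 4 + Real.sqrt r)) ≤ ENNReal.ofReal p1)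
    (hg : ∀ e ∈ wd r, Measurable (g e))
    (hlaw : ∀ e ∈ wd r, P.map (g e) = gaussianReal 0 v) (hv : (v:ℝ) ≤ r * Real.log 4)
    {s : ℝ} (hs0 : 0 ≤ s) (hs1 : s ≤ 1) :
    ∫⁻ ω, Wt g r ω ^ s ∂P ≤ ENNReal.ofReal (Real.exp (-(Real.sqrt r))) ^ (1 - s) +
      (ENNReal.ofReal p1) ^ s := by
  set z := r * Real.log 4 + Real.sqrt r with hz
  set A : Set Ω := ⋃ e ∈ wd r, (g e) ⁻¹' (Set.Ici z) with hA
  have hAm : MeasurableSet A := by
    apply Finset.measurableSet_biUnion
    intro e he
    exact hg e he measurableSet_Ici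
  rw [← lintegral_add_compl _ hAm]
  have hlog4 : Real.log 4 = 2 * Real.log 2 := by
    rw [show (4:ℝ) = 2 ^ 2 by norm_num, Real.log_pow]; norm_num
  apply add_le_add
  · refine (holder_set (measurable_Wt hg) hs0 hs1 A).trans ?_
    have h1 : ∫⁻ ω in A, Wt g r ω ∂P ≤ 1 :=
      (setLIntegral_le_lintegral _ _).trans (lint_Wt_le_one hg hlaw hv)
    have h2 : P A ≤ ENNReal.ofReal (Real.exp (-(Real.sqrt r))) := by
      have h3 : ∀ ω ∈ A, ENNReal.ofReal (Real.exp (Real.sqrt r)) ≤ Wt g r ω := by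
        intro ω hω
        simp only [hA, Set.mem_iUnion, Set.mem_preimage, Set.mem_Ici] at hω
        obtain ⟨e, he, hge⟩ := hω
        unfold Wt
        refine le_trans ?_ (Finset.single_le_sum (f := fun e =>
          ENNReal.ofReal (Real.exp (g e ω - r * Real.log 4))) (fun _ _ => bot_le) he)
        apply ENNReal.ofReal_le_ofReal
        apply Real.exp_le_exp.2
        linarith
      have h4 : ENNReal.ofReal (Real.exp (Real.sqrt r)) * P A ≤ 1 := by
        calc _ = ∫⁻ ω in A, ENNReal.ofReal (Real.exp (Real.sqrt r)) ∂P := by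
              rw [setLIntegral_const]
          _ ≤ ∫⁻ ω in A, Wt g r ω ∂P := setLIntegral_mono (measurable_Wt hg) h3
          _ ≤ 1 := h1
      calc P A = ENNReal.ofReal (Real.exp (-(Real.sqrt r))) *
            (ENNReal.ofReal (Real.exp (Real.sqrt r)) * P A) := by
            rw [← mul_assoc, ← ENNReal.ofReal_mul (by positivity), ← Real.exp_add]
            simp
        _ ≤ ENNReal.ofReal (Real.exp (-(Real.sqrt r))) * 1 := by gcongr
        _ = _ := mul_one _
    calc _ ≤ (1:ℝ≥0∞) ^ s * (ENNReal.ofReal (Real.exp (-(Real.sqrt r)))) ^ (1 - s) := by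
          gcongr
      _ = _ := by simp
  · refine (holder_set (measurable_Wt hg) hs0 hs1 Aᶜ).trans ?_
    have h1 : ∫⁻ ω in Aᶜ, Wt g r ω ∂P ≤ ENNReal.ofReal p1 := by
      unfold Wt
      rw [lintegral_finset_sum' _ (fun e he => by have := hg e he; fun_prop)]
      have h5 : ∀ e ∈ wd r, ∫⁻ ω in Aᶜ, ENNReal.ofReal (Real.exp (g e ω - r * Real.log 4)) ∂P ≤
          ENNReal.ofReal (Real.exp (v / 2 - r * Real.log 4)) * gaussianReal v v (Set.Iio z) := by
        intro e he
        rw [← lint_term hg hlaw (Set.Iio z) measurableSet_Iio e he]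
        apply lintegral_mono_set
        intro ω hω
        simp only [hA, Set.mem_compl_iff, Set.mem_iUnion, Set.mem_preimage, Set.mem_Ici,
          not_exists, not_le] at hω
        exact hω e he
      calc _ ≤ ∑ e ∈ wd r, ENNReal.ofReal (Real.exp (v / 2 - r * Real.log 4)) *
            gaussianReal v v (Set.Iio z) := Finset.sum_le_sum h5
        _ = ENNReal.ofReal (Real.exp (v / 2 - r * Real.log 2)) * gaussianReal v v (Set.Iio z) := by
          rw [Finset.sum_const, card_wd, nsmul_eq_mul, ← mul_assoc]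
          congr 1
          rw [show ((2 ^ r : ℕ) : ℝ≥0∞) = ENNReal.ofReal (Real.exp (r * Real.log 2)) by
            rw [mul_comm (r:ℝ), Real.exp_mul, Real.exp_log (by norm_num), Real.rpow_natCast,
              ENNReal.ofReal_pow (by norm_num)]
            simp]
          rw [← ENNReal.ofReal_mul (by positivity), ← Real.exp_add]
          congr 2
          rw [hlog4]; ring
        _ ≤ _ := hp1
    calc _ ≤ (ENNReal.ofReal p1) ^ s * 1 ^ (1 - s) := by
          gcongr
          exact prob_le_one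
      _ = _ := by simp

end

end Pool.Agent.H654R3.Crem
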