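import Pool.Agent.H654R3.CremDefs

namespace Pool.Agent.H654R3.Crem

/-- `v ∧ w`: the deepest common ancestor of `v` and `w`, that is, their longest common prefix. -/
def meet : List Bool → List Bool → List Bool
  | a :: u, b :: w => if a = b then a :: meet u w else []
  | [], _ => []
  | _ :: _, [] => []

lemma meet_comm (v w : List Bool) : meet v w = meet w v := by
  induction v generalizing w with
  | nil => cases w <;> simp [meet]
  | cons a u ih =>
    cases w with
    | nil => simp [meet]
    | cons b w =>
      simp only [meet]
      by_cases h : a = b
      · subst h; simp [ih w]
      · rw [if_neg h, if_neg (Ne.symm h)]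

lemma meet_self (v : List Bool) : meet v v = v := by
  induction v with
  | nil => simp [meet]
  | cons a u ih => simp [meet, ih]

lemma length_meet_le (v w : List Bool) : (meet v w).length ≤ v.length := by
  induction v generalizing w with
  | nil => cases w <;> simp [meet]
  | cons a u ih =>
    cases w with
    | nil => simp [meet]
    | cons b w =>
      simp only [meet]
      split_ifs
      · simpa using ih w
      · simp

lemma length_meet_take (v w : List Bool) (k : ℕ) :
    (meet v (w.take k)).length = min (meet v w).length k := by
  induction v generalizing w k with
  | nil => cases w <;> cases k <;> simp [meet]
  | cons a u ih =>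
    cases w with
    | nil => cases k <;> simp [meet]
    | cons b w =>
      cases k with
      | zero => simp [meet]
      | succ k =>
        simp only [List.take_succ_cons, meet]
        split_ifs
        · simp [ih w k]
        · simp

lemma eq_of_length_meet {v w : List Bool} (h1 : (meet v w).length = v.length)
    (h2 : (meet v w).length = w.length) : v = w := by
  induction v generalizing w with
  | nil =>
    cases w with
    | nil => rfl
    | cons b w => simp [meet] at h2
  | cons a u ih =>
    cases w with
    | nil => simp [meet] at h1
    | cons b w =>
      simp only [meet] at h1 h2
      split_ifs at h1 h2 with h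
      · subst h
        simp only [List.length_cons, add_left_inj] at h1 h2
        rw [ih h1 h2]

/-- `meet v w` is a common prefix, and every common prefix is a prefix of it. -/
lemma prefix_meet_iff (u v w : List Bool) : u <+: meet v w ↔ u <+: v ∧ u <+: w := by
  induction v generalizing u w with
  | nil =>
    cases w <;> simp only [meet, List.prefix_nil] <;> constructor <;> intro h
    · exact ⟨h, h⟩
    · exact h.1
    · subst h; simp
    · exact h.1
  | cons a v ih =>
    cases w with
    | nil => simp only [meet, List.prefix_nil]; constructor <;> intro h
             · subst h; simp
             · exact h.2
    | cons b w =>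
      simp only [meet]
      cases u with
      | nil => simp
      | cons c u =>
        by_cases hab : a = b
        · subst hab
          simp only [if_true, List.cons_prefix_cons, ih]
          tauto
        · simp only [if_neg hab, List.prefix_nil, List.cons_prefix_cons]
          constructor
          · intro h; simp at h
          · rintro ⟨⟨h1, _⟩, ⟨h2, _⟩⟩
            exact absurd (h1.symm.trans h2) hab

/-- the combination of covariances that makes increments uncorrelated -/
lemma meet_cancel (F : ℕ → ℝ) {v w : List Bool} (hv : v ≠ []) (hw : w ≠ []) (hvw : v ≠ w) :
    F (meet v w).length - F (meet v w.dropLast).length - F (meet v.dropLast w).length +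
      F (meet v.dropLast w.dropLast).length = 0 := by
  have hv' : 0 < v.length := List.length_pos_iff.2 hv
  have hw' : 0 < w.length := List.length_pos_iff.2 hw
  have e1 : (meet v w.dropLast).length = min (meet v w).length (w.length - 1) := by
    rw [List.dropLast_eq_take, length_meet_take]
  have e2 : (meet v.dropLast w).length = min (meet v w).length (v.length - 1) := by
    rw [meet_comm, List.dropLast_eq_take, length_meet_take, meet_comm]
  have e3 : (meet v.dropLast w.dropLast).length =
      min (min (meet v w).length (v.length - 1)) (w.length - 1) := by
    rw [← e2, List.dropLast_eq_take (l := w), length_meet_take]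
  rw [e1, e2, e3]
  have h1 := length_meet_le v w
  have h2 : (meet v w).length ≤ w.length := by rw [meet_comm]; exact length_meet_le w v
  by_cases h3 : (meet v w).length = w.length
  · have h4 : (meet v w).length ≠ v.length := fun h => hvw (eq_of_length_meet h h3)
    rw [show min (meet v w).length (v.length - 1) = (meet v w).length by omega]
    ring
  · rw [show min (meet v w).length (w.length - 1) = (meet v w).length by omega,
      show min (min (meet v w).length (v.length - 1)) (w.length - 1) =
        min (meet v w).length (v.length - 1) by omega]
    ring

lemma meet_var (F : ℕ → ℝ) {v : List Bool} (hv : v ≠ []) :
    F (meet v v).length - F (meet v v.dropLast).length - F (meet v.dropLast v).length +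
      F (meet v.dropLast v.dropLast).length = F v.length - F (v.length - 1) := by
  have hv' : 0 < v.length := List.length_pos_iff.2 hv
  have e1 : (meet v v.dropLast).length = v.length - 1 := by
    rw [List.dropLast_eq_take, length_meet_take, meet_self]; omega
  rw [meet_comm v.dropLast v, e1, meet_self, meet_self, List.length_dropLast]
  ring

end Pool.Agent.H654R3.Crem
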