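import Pool.Agent.H654R3.CremThm
import Pool.Agent.H654R3.CremMeet

namespace Pool.Agent.H654R3.Crem

open MeasureTheory ProbabilityTheory Set
open scoped ENNReal NNReal

/-- Two independent families of independent variables form one independent family. -/
lemma iIndepFun_sumElim {Ω ι κ : Type*} [MeasurableSpace Ω] {P : Measure Ω}
    [IsProbabilityMeasure P] {f : ι → Ω → ℝ} {g : κ → Ω → ℝ}
    (h1 : iIndepFun f P) (h2 : iIndepFun g P)
    (h3 : IndepFun (fun ω i => f i ω) (fun ω i => g i ω) P) :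
    iIndepFun (fun i : ι ⊕ κ => (Sum.elim f g i : Ω → ℝ)) P := by
  classical
  rw [iIndepFun_iff_measure_inter_preimage_eq_mul] at h1 h2 ⊢
  intro S sets hS
  have e1 : (⋂ i ∈ S, (Sum.elim f g i) ⁻¹' sets i) =
      (⋂ i ∈ S.toLeft, f i ⁻¹' sets (Sum.inl i)) ∩ (⋂ i ∈ S.toRight, g i ⁻¹' sets (Sum.inr i)) := by
    ext ω
    simp only [mem_iInter, mem_inter_iff, Finset.mem_toLeft, Finset.mem_toRight, Sum.forall,
      Sum.elim_inl, Sum.elim_inr]
  have e2 : (⋂ i ∈ S.toLeft, f i ⁻¹' sets (Sum.inl i)) = (fun ω i => f i ω) ⁻¹'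
      (⋂ i ∈ S.toLeft, (fun z : ι → ℝ => z i) ⁻¹' sets (Sum.inl i)) := by
    ext ω; simp
  have e3 : (⋂ i ∈ S.toRight, g i ⁻¹' sets (Sum.inr i)) = (fun ω i => g i ω) ⁻¹'
      (⋂ i ∈ S.toRight, (fun z : κ → ℝ => z i) ⁻¹' sets (Sum.inr i)) := by
    ext ω; simp
  rw [e1, e2, e3, h3.measure_inter_preimage_eq_mul, ← e2, ← e3, h1, h2]
  · have := Finset.prod_disjSum S.toLeft S.toRight
      (fun i => P ((Sum.elim f g i) ⁻¹' sets i))
    rw [Finset.toLeft_disjSum_toRight] at this
    rw [this]
    rfl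
  · intro i hi; exact hS _ (Finset.mem_toRight.1 hi)
  · intro i hi; exact hS _ (Finset.mem_toLeft.1 hi)
  · apply Finset.measurableSet_biInter
    intro i hi
    exact measurable_pi_apply i (hS _ (Finset.mem_toLeft.1 hi))
  · apply Finset.measurableSet_biInter
    intro i hi
    exact measurable_pi_apply i (hS _ (Finset.mem_toRight.1 hi))

/-- The vertices of `T_N`: the binary strings of length at most `N`. -/
abbrev Vertex (N : ℕ) : Type := {v : List Bool // v.length ≤ N}

/-- increments of a process on `T_N` -/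
noncomputable def incr {Ω : Type*} {N : ℕ} (Y : Vertex N → Ω → ℝ) (v : List Bool) (ω : Ω) : ℝ :=
  if h : v ≠ [] ∧ v.length ≤ N then
    Y ⟨v, h.2⟩ ω - Y ⟨v.dropLast, (List.length_dropLast.trans_le (Nat.sub_le _ _)).trans h.2⟩ ω
  else 0

lemma X_incr {Ω : Type*} {N : ℕ} (Y : Vertex N → Ω → ℝ) (ω : Ω) (v : Vertex N) :
    X (fun w => incr Y w ω) v.1 = Y v ω - Y ⟨[], by simp⟩ ω := by
  unfold X
  obtain ⟨v, hv⟩ := v
  have h1 : ∀ i, (v.take i).length ≤ N := fun i => (List.length_take_le' i v).trans hv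
  have h2 : ∀ i ∈ Finset.range v.length, incr Y (v.take (i+1)) ω =
      Y ⟨v.take (i+1), h1 _⟩ ω - Y ⟨v.take i, h1 _⟩ ω := by
    intro i hi
    rw [Finset.mem_range] at hi
    have hne : v.take (i+1) ≠ [] := by
      intro h
      have := congrArg List.length h
      rw [List.length_take, List.length_nil] at this
      omega
    unfold incr
    rw [dif_pos ⟨hne, h1 _⟩]
    congr 3
    rw [List.dropLast_eq_take, List.take_take, List.length_take]
    congr 1
    omega
  show ∑ i ∈ Finset.range v.length, incr Y (v.take (i+1)) ω = _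
  rw [Finset.sum_congr rfl h2, Finset.sum_range_sub (fun i => Y ⟨v.take i, h1 _⟩ ω)]
  congr 3
  · rw [List.take_length]

section incr
variable {Ω : Type*} [MeasurableSpace Ω] {P : Measure Ω} [IsProbabilityMeasure P] {N : ℕ}
  {Y : Vertex N → Ω → ℝ}

set_option linter.unusedSectionVars false

lemma measurable_incr (hm : ∀ v, Measurable (Y v)) (v : List Bool) : Measurable (incr Y v) := by
  unfold incr
  split_ifs with h
  · exact (hm _).sub (hm _)
  · exact measurable_const

lemma gaussian_incr (hG : IsGaussianProcess Y P) :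
    IsGaussianProcess (fun v : List Bool => incr Y v) P := by
  classical
  apply hG.of_isGaussianProcess
  intro v
  by_cases h : v ≠ [] ∧ v.length ≤ N
  · refine ⟨{⟨v, h.2⟩, ⟨v.dropLast, (List.length_dropLast.trans_le (Nat.sub_le _ _)).trans h.2⟩},
      ContinuousLinearMap.proj ⟨⟨v, h.2⟩, by simp⟩ - ContinuousLinearMap.proj
        ⟨⟨v.dropLast, (List.length_dropLast.trans_le (Nat.sub_le _ _)).trans h.2⟩, by simp⟩, ?_⟩
    intro ω
    unfold incr
    rw [dif_pos h]
    simp
  · refine ⟨∅, 0, ?_⟩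
    intro ω
    unfold incr
    rw [dif_neg h]
    simp

lemma incr_eq_zero {v : List Bool} (h : ¬ (v ≠ [] ∧ v.length ≤ N)) : incr Y v = fun _ => 0 := by
  funext ω
  unfold incr
  rw [dif_neg h]

lemma incr_eq {v : List Bool} (h : v ≠ [] ∧ v.length ≤ N) : incr Y v =
    fun ω => Y ⟨v, h.2⟩ ω -
      Y ⟨v.dropLast, (List.length_dropLast.trans_le (Nat.sub_le _ _)).trans h.2⟩ ω := by
  funext ω
  unfold incr
  rw [dif_pos h]

lemma memLp_Y (hG : IsGaussianProcess Y P) (v : Vertex N) : MemLp (Y v) 2 P :=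
  (hG.hasGaussianLaw_eval v).memLp_two

/-- covariance of increments in terms of the covariance function `F` -/
lemma cov_incr (hG : IsGaussianProcess Y P) (F : ℕ → ℝ)
    (hcov : ∀ v w : Vertex N, cov[Y v, Y w; P] = F (meet v.1 w.1).length) {v w : List Bool}
    (hv : v ≠ [] ∧ v.length ≤ N) (hw : w ≠ [] ∧ w.length ≤ N) :
    cov[incr Y v, incr Y w; P] =
      F (meet v w).length - F (meet v w.dropLast).length - F (meet v.dropLast w).length +
      F (meet v.dropLast w.dropLast).length := by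
  rw [incr_eq hv, incr_eq hw]
  rw [covariance_fun_sub_fun_sub (memLp_Y hG _) (memLp_Y hG _) (memLp_Y hG _) (memLp_Y hG _),
    hcov, hcov, hcov, hcov]

lemma indep_incr (hm : ∀ v, Measurable (Y v)) (hG : IsGaussianProcess Y P) (F : ℕ → ℝ)
    (hcov : ∀ v w : Vertex N, cov[Y v, Y w; P] = F (meet v.1 w.1).length) :
    iIndepFun (fun v : List Bool => incr Y v) P := by
  have h1 : iIndepFun (fun (v : List Bool) ω (_ : Unit) => incr Y v ω) P := by
    apply IsGaussianProcess.iIndepFun_of_covariance_eq_zero (T := List Bool) (S := fun _ => Unit)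
      (X := fun v _ => incr Y v)
    · exact (gaussian_incr hG).comp_right (fun p : (_ : List Bool) × Unit => p.1)
    · intro v _
      exact (measurable_incr hm v).aemeasurable
    · intro v w hvw _ _
      by_cases hv : v ≠ [] ∧ v.length ≤ N
      · by_cases hw : w ≠ [] ∧ w.length ≤ N
        · show cov[incr Y v, incr Y w; P] = 0
          rw [cov_incr hG F hcov hv hw]
          exact meet_cancel F hv.1 hw.1 hvw
        · show cov[incr Y v, incr Y w; P] = 0
          rw [incr_eq_zero hw]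
          exact covariance_const_right _
      · show cov[incr Y v, incr Y w; P] = 0
        rw [incr_eq_zero hv]
        exact covariance_const_left _
  have h2 := h1.comp (fun _ (f : Unit → ℝ) => f ()) (fun _ => measurable_pi_apply ())
  exact h2

lemma law_incr (hm : ∀ v, Measurable (Y v)) (hG : IsGaussianProcess Y P)
    (hmean : ∀ v, ∫ ω, Y v ω ∂P = 0) (F : ℕ → ℝ)
    (hcov : ∀ v w : Vertex N, cov[Y v, Y w; P] = F (meet v.1 w.1).length) {v : List Bool}
    (hv : v ≠ []) (hv2 : v.length ≤ N) :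
    P.map (incr Y v) = gaussianReal 0 (F v.length - F (v.length - 1)).toNNReal := by
  have hG2 := (gaussian_incr hG).hasGaussianLaw_eval v
  have h1 := hG2.map_eq_gaussianReal
  have h2 : ∫ ω, incr Y v ω ∂P = 0 := by
    rw [incr_eq ⟨hv, hv2⟩]
    rw [integral_sub ((memLp_Y hG _).integrable (by norm_num))
      ((memLp_Y hG _).integrable (by norm_num)), hmean, hmean, sub_zero]
  have h3 : Var[incr Y v; P] = F v.length - F (v.length - 1) := by
    rw [← covariance_self (measurable_incr hm v).aemeasurable,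
      cov_incr hG F hcov ⟨hv, hv2⟩ ⟨hv, hv2⟩]
    exact meet_var F hv
  rw [h2, h3] at h1
  exact h1

/-- the root value vanishes almost surely -/
lemma root_zero (hm : ∀ v, Measurable (Y v)) (hG : IsGaussianProcess Y P)
    (hmean : ∀ v, ∫ ω, Y v ω ∂P = 0) (F : ℕ → ℝ) (hF0 : F 0 = 0)
    (hcov : ∀ v w : Vertex N, cov[Y v, Y w; P] = F (meet v.1 w.1).length) :
    ∀ᵐ ω ∂P, Y ⟨[], by simp⟩ ω = 0 := by
  have h1 : Var[Y ⟨[], by simp⟩; P] = 0 := by
    rw [← covariance_self (hm _).aemeasurable, hcov]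
    simp [meet, hF0]
  have h2 := ae_eq_integral_of_variance_eq_zero (memLp_Y hG _) h1
  rw [hmean] at h2
  exact h2

end incr

end Pool.Agent.H654R3.Crem
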