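import Pool.Agent.H654R3.CremExp

namespace Pool.Agent.H654R3.Crem

open MeasureTheory ProbabilityTheory
open scoped ENNReal NNReal

section law
variable {Ω : Type*} [mΩ : MeasurableSpace Ω] {P : Measure Ω} [IsProbabilityMeasure P]
  {ξ : List Bool → Ω → ℝ} {U : ℕ → Ω → ℝ}

lemma law_sum (hξ : ∀ v, Measurable (ξ v)) (hU : ∀ n, Measurable (U n))
    (hind : iIndepFun (fun i : List Bool ⊕ ℕ => (Sum.elim ξ U i : Ω → ℝ)) P)
    (V : ℕ → ℝ≥0) (u e : List Bool)
    (hlaw : ∀ i < e.length, P.map (ξ (u ++ e.take (i+1))) = gaussianReal 0 (V i))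
    (r : ℕ) (hr : r ≤ e.length) :
    P.map (∑ i ∈ Finset.range r, ξ (u ++ e.take (i+1))) =
      gaussianReal 0 (∑ i ∈ Finset.range r, V i) := by
  induction r with
  | zero =>
    simp only [Finset.range_zero, Finset.sum_empty, gaussianReal_zero_var]
    rw [show (0 : Ω → ℝ) = fun _ => (0:ℝ) from rfl, Measure.map_const]
    simp
  | succ r ih =>
    have hm : ∀ i, Measurable (Sum.elim ξ U i) := by
      rintro (v | n)
      · exact hξ v
      · exact hU n
    set f := fun i : ℕ => (Sum.inl (u ++ e.take (i+1)) : List Bool ⊕ ℕ) with hf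
    have hinj : ∀ i < r + 1, ∀ j < r + 1, f i = f j → i = j := by
      intro i hi j hj h
      simp only [hf, Sum.inl.injEq] at h
      have := congrArg List.length h
      simp only [List.length_append, List.length_take] at this
      omega
    have hnot : f r ∉ (Finset.range r).image f := by
      intro h
      rw [Finset.mem_image] at h
      obtain ⟨i, hi, h⟩ := h
      rw [Finset.mem_range] at hi
      have := hinj i (by omega) r (by omega) h
      omega
    have h := hind.indepFun_finsetSum_of_notMem hm hnot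
    rw [Finset.sum_image (by
      intro i hi j hj h
      rw [Finset.mem_coe, Finset.mem_range] at hi hj
      exact hinj i (by omega) j (by omega) h)] at h
    have h2 := gaussianReal_add_gaussianReal_of_indepFun h (ih (by omega)) (hlaw r (by omega))
    rw [Finset.sum_range_succ, Finset.sum_range_succ]
    rw [zero_add] at h2
    exact h2

lemma law_gg (hξ : ∀ v, Measurable (ξ v)) (hU : ∀ n, Measurable (U n))
    (hind : iIndepFun (fun i : List Bool ⊕ ℕ => (Sum.elim ξ U i : Ω → ℝ)) P)
    (θ : ℝ) (V : ℕ → ℝ≥0) (u e : List Bool)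
    (hlaw : ∀ i < e.length, P.map (ξ (u ++ e.take (i+1))) = gaussianReal 0 (V i)) :
    P.map (fun ω => gg θ u e (cfg ξ U ω)) =
      gaussianReal 0 (.mk (θ ^ 2) (sq_nonneg _) * ∑ i ∈ Finset.range e.length, V i) := by
  have h1 := law_sum hξ hU hind V u e hlaw e.length le_rfl
  have h2 : (fun ω => gg θ u e (cfg ξ U ω)) =
      (fun x => θ * x) ∘ (∑ i ∈ Finset.range e.length, ξ (u ++ e.take (i+1))) := by
    funext ω
    unfold gg
    rw [X_append_sub]
    simp [cfg]
  rw [h2, ← Measure.map_map (by fun_prop) (by
    have h3 := Finset.measurable_sum (Finset.range e.length)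
      (fun i _ => hξ (u ++ e.take (i+1)))
    convert h3 using 1
    ext ω
    simp), h1, gaussianReal_map_const_mul]
  simp

end law

end Pool.Agent.H654R3.Crem
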