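import Mathlib

namespace Pool.Agent.H654R3.Crem

open Filter Topology

lemma tendsto_log_div_sqrt : Tendsto (fun L : ℕ => Real.log L / √(L:ℝ)) atTop (𝓝 0) := by
  have h := (isLittleO_log_rpow_atTop (by norm_num : (0:ℝ) < 1/2)).tendsto_div_nhds_zero
  have h2 := h.comp tendsto_natCast_atTop_atTop
  refine h2.congr (fun L => ?_)
  simp only [Function.comp_apply, Real.sqrt_eq_rpow]

lemma exists_L_sigma {p1 b : ℝ} (hp0 : 0 < p1) (hp1 : p1 < 1) (hb : 0 < b) :
    ∃ (L : ℕ) (σ : ℝ), 2 ≤ L ∧ 0 < σ ∧ σ < 1 ∧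
      (2 / (b / L)) ^ σ * (Real.exp (-√(L:ℝ)) ^ σ + p1 ^ (1 - σ)) ≤ Real.exp (-2 * σ) := by
  set c : ℝ := 2 * Real.exp 2 / b with hc
  have hc0 : 0 < c := by rw [hc]; positivity
  set γ : ℝ := -Real.log p1 / 2 with hγ
  have hγ0 : 0 < γ := by
    have := Real.log_neg hp0 hp1
    rw [hγ]; linarith
  have hlogp : Real.log p1 = -2 * γ := by rw [hγ]; ring
  have T1 : Tendsto (fun L : ℕ => Real.log (c * L)) atTop atTop :=
    Real.tendsto_log_atTop.comp
      (Tendsto.const_mul_atTop hc0 tendsto_natCast_atTop_atTop)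
  have T2a : Tendsto (fun L : ℕ => Real.log (c * L) / √(L:ℝ)) atTop (𝓝 0) := by
    have h1 : Tendsto (fun L : ℕ => Real.log c / √(L:ℝ) + Real.log L / √(L:ℝ)) atTop
        (𝓝 (0 + 0)) := by
      apply Tendsto.add _ tendsto_log_div_sqrt
      apply Tendsto.div_atTop tendsto_const_nhds
      exact Real.tendsto_sqrt_atTop.comp tendsto_natCast_atTop_atTop
    rw [add_zero] at h1
    refine h1.congr' ?_
    filter_upwards [eventually_gt_atTop 0] with L hL
    have : (0:ℝ) < L := by exact_mod_cast hL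
    rw [Real.log_mul hc0.ne' this.ne']
    ring
  have T2 : Tendsto (fun L : ℕ => √(L:ℝ) / Real.log (c * L)) atTop atTop := by
    have h1 : Tendsto (fun L : ℕ => Real.log (c * L) / √(L:ℝ)) atTop (𝓝[>] 0) := by
      rw [tendsto_nhdsWithin_iff]
      refine ⟨T2a, ?_⟩
      filter_upwards [T1.eventually_gt_atTop 0, eventually_gt_atTop 0] with L h1 h2
      have : (0:ℝ) < L := by exact_mod_cast h2
      exact div_pos h1 (Real.sqrt_pos.2 this)
    have h2 := h1.inv_tendsto_nhdsGT_zero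
    refine h2.congr (fun L => ?_)
    simp
  have T3 : Tendsto (fun L : ℕ => Real.exp (γ - γ * (√(L:ℝ) / Real.log (c * L))) +
      Real.exp (-γ + 2 * γ * (γ / Real.log (c * L)))) atTop
      (𝓝 (0 + Real.exp (-γ + 2 * γ * 0))) := by
    apply Tendsto.add
    · apply Real.tendsto_exp_atBot.comp
      have : Tendsto (fun L : ℕ => γ * (√(L:ℝ) / Real.log (c * L))) atTop atTop :=
        Tendsto.const_mul_atTop hγ0 T2
      exact tendsto_atBot_add_const_left _ γ (tendsto_neg_atTop_atBot.comp this)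
    · apply (Real.continuous_exp.tendsto _).comp
      apply Tendsto.add tendsto_const_nhds
      apply Tendsto.mul tendsto_const_nhds
      exact Tendsto.div_atTop tendsto_const_nhds T1
  have hlt : 0 + Real.exp (-γ + 2 * γ * 0) < 1 := by
    rw [zero_add, mul_zero, add_zero]
    exact (Real.exp_lt_one_iff.2 (by linarith))
  have hE := T3.eventually (gt_mem_nhds hlt)
  obtain ⟨L, hL1, hL2, hL3⟩ := (hE.and ((T1.eventually_gt_atTop γ).and
    (eventually_ge_atTop 2))).exists
  have hL0 : (0:ℝ) < L := by exact_mod_cast (by omega : 0 < L)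
  have hlog0 : 0 < Real.log (c * L) := by linarith
  set σ : ℝ := γ / Real.log (c * L) with hσ
  have hσ0 : 0 < σ := by rw [hσ]; positivity
  have hσ1 : σ < 1 := by rw [hσ, div_lt_one hlog0]; exact hL2
  have hσγ : σ * Real.log (c * L) = γ := by rw [hσ]; field_simp
  refine ⟨L, σ, hL3, hσ0, hσ1, ?_⟩
  have e1 : (2 / (b / L)) ^ σ = Real.exp (γ - 2 * σ) := by
    have h1 : 2 / (b / L) = c * L * Real.exp (-2) := by
      rw [hc, Real.exp_neg]
      field_simp
    rw [h1, Real.rpow_def_of_pos (by positivity), Real.log_mul (by positivity) (by positivity),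
      Real.log_exp]
    congr 1
    rw [← hσγ]; ring
  have e2 : Real.exp (-√(L:ℝ)) ^ σ = Real.exp (-√(L:ℝ) * σ) := by
    rw [← Real.exp_mul]
  have e3 : p1 ^ (1 - σ) = Real.exp (-2 * γ * (1 - σ)) := by
    rw [Real.rpow_def_of_pos hp0, hlogp]
  rw [e1, e2, e3, mul_add, ← Real.exp_add, ← Real.exp_add]
  have e4 : γ - 2 * σ + -√(L:ℝ) * σ = -2 * σ + (γ - γ * (√(L:ℝ) / Real.log (c * L))) := by
    rw [hσ]; ring
  have e5 : γ - 2 * σ + -2 * γ * (1 - σ) = -2 * σ + (-γ + 2 * γ * σ) := by ring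
  rw [e4, e5, Real.exp_add, Real.exp_add (-2 * σ), ← mul_add]
  calc _ ≤ Real.exp (-2 * σ) * 1 := by
        apply mul_le_mul_of_nonneg_left hL1.le (by positivity)
    _ = _ := mul_one _

end Pool.Agent.H654R3.Crem
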