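import Pool.Agent.H654R3.CremFix
import Pool.Agent.H654R3.CremNum

namespace Pool.Agent.H654R3.Crem

open MeasureTheory ProbabilityTheory Set Filter Topology
open scoped ENNReal NNReal

section fixedN
variable {N : ℕ} (alg : Algorithm N) (n : ℕ)
variable {Ω : Type*} [mΩ : MeasurableSpace Ω] {P : Measure Ω} [IsProbabilityMeasure P]
  {ξ : List Bool → Ω → ℝ} {U : ℕ → Ω → ℝ}

lemma fixedN (hξ : ∀ v, Measurable (ξ v)) (hU : ∀ n, Measurable (U n))
    (hind : iIndepFun (fun i : List Bool ⊕ ℕ => (Sum.elim ξ U i : Ω → ℝ)) P)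
    {a : ℝ → ℝ} (hint : IntervalIntegrable a volume 0 1) (hone : ∫ t in (0:ℝ)..1, a t = 1)
    (hlaw : ∀ w : List Bool, w ≠ [] → w.length ≤ N →
      P.map (ξ w) = gaussianReal 0 (incVar a N w.length))
    {L M : ℕ} (hL : 2 ≤ L) (hM : 0 < M) (hN : L * M ≤ N) {p1 : ℝ} (hp0 : 0 < p1)
    (hp : ∀ r : ℕ, 2 ≤ r → ∀ v : ℝ≥0, (v:ℝ) ≤ r * Real.log 4 →
      ENNReal.ofReal (Real.exp (v / 2 - r * Real.log 2)) *
        gaussianReal v v (Set.Iio (r * Real.log 4 + Real.sqrt r)) ≤ ENNReal.ofReal p1)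
    {h : ℕ → ℝ} (hpos : ∀ j, 0 < h j) {H : ℝ} (hH : ∀ j, h j ≤ H)
    (hwin : ∀ j : ℕ, ∀ t ∈ Icc (0:ℝ) 1, |t - j / M| ≤ 3 / M → a t ≤ h j)
    {J : ℝ} (hJ : ∑ j ∈ Finset.range M, √(h j) ≤ M * J)
    {b σ : ℝ} (hb : 0 < b) (hb1 : b ≤ 1) (hσ0 : 0 < σ) (hσ1 : σ < 1)
    (hkey : (2 / (b / L)) ^ σ * (Real.exp (-√(L:ℝ)) ^ σ + p1 ^ (1 - σ)) ≤ Real.exp (-2 * σ))
    {y : ℝ} (hy : √(Real.log 4) * ((N + 2 * L * M) * J) +
      (σ / ((1 - σ) * √(Real.log 4) * L)) * (b * √H * n - N / √H) < y) :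
    P {ω | ∃ t < n, (query alg (X (fun v => ξ v ω)) (fun m => U m ω) t).length = N ∧
      y ≤ X (fun v => ξ v ω) (query alg (X (fun v => ξ v ω)) (fun m => U m ω) t)} ≤
      M * ENNReal.ofReal (n * (2 / (b / L)) * Real.exp (2 * σ) *
        Real.exp (-(σ * ((N:ℝ) / (L * M) - 1)))) := by
  have hL0 : 0 < L := by omega
  have hLr : (0:ℝ) < L := by exact_mod_cast hL0
  have hMr : (0:ℝ) < M := by exact_mod_cast hM
  have hNLM : (L:ℝ) * M ≤ N := by exact_mod_cast hN
  have hN' : (0:ℝ) < N := lt_of_lt_of_le (by positivity) hNLM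
  have hH0 : 0 < H := lt_of_lt_of_le (hpos 0) (hH 0)
  have hsH : 0 < √H := Real.sqrt_pos.2 hH0
  have hlog4 : 0 < Real.log 4 := Real.log_pos (by norm_num)
  have hc0 : 0 < √(Real.log 4) := Real.sqrt_pos.2 hlog4
  set kk := kx N L M with hkk
  set E : ℕ → Set Ω := fun j => {ω | ∃ v : List Bool, v.length = lv N L (kk (j+1)) ∧
        Vis n (query alg (X (fun v => ξ v ω)) (fun m => U m ω)) v ∧
        -(σ * ((kk (j+1):ℝ) - kk j)) ≤
          -(σ * (b / L)) * tc n (lv N L) (kk j) (kk (j+1)) v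
            (query alg (X (fun v => ξ v ω)) (fun m => U m ω)) +
          (1 - σ) * (√(Real.log 4 / h j) * (X (fun v => ξ v ω) v -
            X (fun v => ξ v ω) (v.take (lv N L (kk j)))) -
            ((lv N L (kk (j+1)):ℝ) - lv N L (kk j)) * Real.log 4)} with hE
  have hEp : ∀ j < M, P (E j) ≤ ENNReal.ofReal (n * (2 / (b / L)) * Real.exp (2 * σ) *
        Real.exp (-(σ * ((N:ℝ) / (L * M) - 1)))) := by
    intro j hj
    have hk1 : (kk (j+1) - 1) * L ≤ N := by
      have h1 : kk (j+1) ≤ N / L + 1 := by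
        rw [← kx_top N L hM]
        exact kx_mono N L M (by omega)
      calc (kk (j+1) - 1) * L ≤ (N / L) * L := Nat.mul_le_mul_right L (Nat.sub_le_of_le_add h1)
        _ ≤ N := Nat.div_mul_le_self N L
    have h1 := block_prob alg n hξ hU hind (incVar a N) hlaw hL hp0 hp
      (kx_mono N L M (Nat.le_succ j)) hk1 (hpos j)
      (fun i hi1 hi2 => incVar_le hint hL0 hM hN hpos hwin hj i hi1 hi2) hb hb1 hσ0 hσ1 hkey
    refine h1.trans (ENNReal.ofReal_le_ofReal ?_)
    have h2 := diff_ge (N := N) hL0 hM j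
    have h3 : Real.exp (-(σ * ((kk (j+1):ℝ) - kk j))) ≤
        Real.exp (-(σ * ((N:ℝ) / (L * M) - 1))) := by
      apply Real.exp_le_exp.2
      have := mul_le_mul_of_nonneg_left h2 hσ0.le
      linarith
    exact mul_le_mul_of_nonneg_left h3 (by positivity)
  have hsub : {ω | ∃ t < n, (query alg (X (fun v => ξ v ω)) (fun m => U m ω) t).length = N ∧
      y ≤ X (fun v => ξ v ω) (query alg (X (fun v => ξ v ω)) (fun m => U m ω) t)} ⊆
      ⋃ j ∈ Finset.range M, E j := by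
    rintro ω ⟨t, ht, hlen, hyX⟩
    by_contra hcon
    simp only [Set.mem_iUnion, Finset.mem_range, not_exists] at hcon
    set q := query alg (X (fun v => ξ v ω)) (fun m => U m ω) with hq
    set x := X (fun v => ξ v ω) with hx
    have hdet := det_bound (N := N) (n := n) (L := L) (M := M) hL0 q x (by simp [hx, X]) kk
      (kx_mono N L M) (kx_zero N L M) (by rw [hkk, kx_top N L hM, lv_top N hL0]) h hpos hH
      hb hσ0 hσ1 (q t) hlen (by
        intro j hj hineq
        apply hcon j hj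
        refine ⟨(q t).take (lv N L (kk (j+1))), ?_, ⟨t, ht, List.take_prefix _ _⟩, hineq⟩
        rw [List.length_take, hlen]
        exact min_eq_left (min_le_right _ _))
    have hSl := S_lower hint hone hL0 hM hN hpos hH hwin
    have hSu := S_upper (N := N) hL0 hM hJ
    set S := ∑ j ∈ Finset.range M,
      √(h j) * ((lv N L (kk (j+1)) : ℝ) - lv N L (kk j)) with hS
    have hSl' : N / √H ≤ S := by
      rw [div_le_iff₀ hsH]; linarith
    have hκ : 0 < (σ / ((1 - σ) * √(Real.log 4) * L)) := by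
      have : 0 < 1 - σ := by linarith
      positivity
    have h5 : x (q t) ≤ √(Real.log 4) * ((N + 2 * L * M) * J) +
      (σ / ((1 - σ) * √(Real.log 4) * L)) * (b * √H * n - N / √H) := by
      refine hdet.trans ?_
      gcongr
    exact absurd hyX (not_le.2 (lt_of_le_of_lt h5 hy))
  calc _ ≤ P (⋃ j ∈ Finset.range M, E j) := measure_mono hsub
    _ ≤ ∑ j ∈ Finset.range M, P (E j) := measure_biUnion_finset_le _ _
    _ ≤ ∑ j ∈ Finset.range M, ENNReal.ofReal (n * (2 / (b / L)) * Real.exp (2 * σ) *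
        Real.exp (-(σ * ((N:ℝ) / (L * M) - 1)))) :=
        Finset.sum_le_sum (fun j hj => hEp j (Finset.mem_range.1 hj))
    _ = _ := by
        rw [Finset.sum_const, Finset.card_range, nsmul_eq_mul]

end fixedN

end Pool.Agent.H654R3.Crem
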