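import Pool.Agent.H654R3.CremComb

namespace Pool.Agent.H654R3.Crem

open MeasureTheory ProbabilityTheory
open scoped ENNReal NNReal

abbrev Cfg := (List Bool → ℝ) × (ℕ → ℝ)

instance : DiscreteMeasurableSpace (List Bool) := ⟨fun _ => trivial⟩

lemma measurable_X (v : List Bool) : Measurable (fun ξ : List Bool → ℝ => X ξ v) := by
  unfold X
  apply Finset.measurable_sum
  intro i _
  exact measurable_pi_apply _

lemma measurable_eval : Measurable (fun p : (List Bool → ℝ) × List Bool => X p.1 p.2) := by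
  apply measurable_from_prod_countable_left
  intro v
  exact measurable_X v

lemma measurable_query {N : ℕ} (alg : Algorithm N) (t : ℕ) :
    Measurable (fun c : Cfg => query alg (X c.1) c.2 t) := by
  induction t using Nat.strong_induction_on with
  | _ t ih =>
    have h1 : Measurable (fun c : Cfg => (fun i : Fin t => query alg (X c.1) c.2 i)) := by
      rw [measurable_pi_iff]
      intro i
      exact ih i i.2
    have h2 : Measurable (fun c : Cfg => (fun i : Fin t => X c.1 (query alg (X c.1) c.2 i))) := by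
      rw [measurable_pi_iff]
      intro i
      exact measurable_eval.comp (measurable_fst.prodMk (ih i i.2))
    have h3 : Measurable (fun c : Cfg => (fun i : Fin (t+1) => c.2 i)) := by
      rw [measurable_pi_iff]
      intro i
      exact (measurable_pi_apply _).comp measurable_snd
    have h4 := (alg.meas t).comp (h1.prodMk (h2.prodMk h3))
    have h5 : (fun c : Cfg => query alg (X c.1) c.2 t) = (fun p : (Fin t → List Bool) × (Fin t → ℝ) ×
        (Fin (t + 1) → ℝ) => alg.step t p.1 p.2.1 p.2.2) ∘ (fun c : Cfg =>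
        ((fun i : Fin t => query alg (X c.1) c.2 i),
          (fun i : Fin t => X c.1 (query alg (X c.1) c.2 i)),
          (fun i : Fin (t+1) => c.2 i))) := by
      funext c
      rw [query]
      rfl
    rw [h5]
    exact h4

/-- history of the first `n` queries -/
def hist {N : ℕ} (alg : Algorithm N) (n : ℕ) (c : Cfg) : Fin n → List Bool :=
  fun i => query alg (X c.1) c.2 i

lemma measurable_hist {N : ℕ} (alg : Algorithm N) (n : ℕ) : Measurable (hist alg n) := by
  rw [measurable_pi_iff]
  intro i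
  exact measurable_query alg i

/-- extension of a finite history by the empty word -/
def extd {n : ℕ} (h : Fin n → List Bool) (t : ℕ) : List Bool := if ht : t < n then h ⟨t, ht⟩ else []

lemma extd_hist {N : ℕ} (alg : Algorithm N) (n : ℕ) (c : Cfg) {t : ℕ} (ht : t < n) :
    extd (hist alg n c) t = query alg (X c.1) c.2 t := by
  unfold extd hist
  simp [ht]

lemma vis_congr {n : ℕ} {q q' : ℕ → List Bool} (h : ∀ t < n, q t = q' t) (u : List Bool) :
    Vis n q u ↔ Vis n q' u := by
  unfold Vis
  constructor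
  · rintro ⟨i, hi, h1⟩; exact ⟨i, hi, h i hi ▸ h1⟩
  · rintro ⟨i, hi, h1⟩; exact ⟨i, hi, (h i hi).symm ▸ h1⟩

lemma cst_congr {n : ℕ} {q q' : ℕ → List Bool} (h : ∀ t < n, q t = q' t) (u w : List Bool) :
    cst n q u w = cst n q' u w := by
  classical
  unfold cst
  congr 1
  apply Finset.filter_congr
  intro t ht
  rw [Finset.mem_range] at ht
  rw [h t ht]
  constructor
  · rintro ⟨h1, h2⟩; exact ⟨h1, fun i hi => by rw [← h i (by omega)]; exact h2 i hi⟩
  · rintro ⟨h1, h2⟩; exact ⟨h1, fun i hi => by rw [h i (by omega)]; exact h2 i hi⟩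

/-- strict extension -/
def SExt (u w : List Bool) : Prop := u <+: w ∧ w ≠ u

section indep
variable {Ω : Type*} [mΩ : MeasurableSpace Ω] {P : Measure Ω} [IsProbabilityMeasure P]
  {ξ : List Bool → Ω → ℝ} {U : ℕ → Ω → ℝ}

open Classical in
lemma lint_indep (hξ : ∀ v, Measurable (ξ v)) (hU : ∀ n, Measurable (U n))
    (hind : iIndepFun (fun i : List Bool ⊕ ℕ => (Sum.elim ξ U i : Ω → ℝ)) P) (u : List Bool)
    (Φ : Cfg → ℝ≥0∞) (hΦ : Measurable Φ)
    (hΦu : ∀ ξ ξ' r, (∀ w, ¬ SExt u w → ξ w = ξ' w) → Φ (ξ, r) = Φ (ξ', r))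
    (Ψ : (List Bool → ℝ) → ℝ≥0∞) (hΨ : Measurable Ψ)
    (hΨu : ∀ ξ ξ', (∀ w, SExt u w → ξ w = ξ' w) → Ψ ξ = Ψ ξ') :
    ∫⁻ ω, Φ (fun v => ξ v ω, fun n => U n ω) * Ψ (fun v => ξ v ω) ∂P =
      (∫⁻ ω, Φ (fun v => ξ v ω, fun n => U n ω) ∂P) * ∫⁻ ω, Ψ (fun v => ξ v ω) ∂P := by
  set f : List Bool ⊕ ℕ → Ω → ℝ := fun i => Sum.elim ξ U i with hf
  set m : List Bool ⊕ ℕ → MeasurableSpace Ω := fun i => MeasurableSpace.comap (f i) inferInstance
    with hm
  have hle : ∀ i, m i ≤ mΩ := by
    intro i
    rcases i with v | n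
    · exact (hξ v).comap_le
    · exact (hU n).comap_le
  set T : Set (List Bool ⊕ ℕ) := {i | ∃ w, i = Sum.inl w ∧ SExt u w} with hT
  have hdisj : Disjoint Tᶜ T := disjoint_compl_left
  have hI : Indep (⨆ i ∈ Tᶜ, m i) (⨆ i ∈ T, m i) P :=
    indep_iSup_of_disjoint hle hind.iIndep hdisj
  set M1 : MeasurableSpace Ω := ⨆ i ∈ Tᶜ, m i with hM1
  set M2 : MeasurableSpace Ω := ⨆ i ∈ T, m i with hM2
  have hM1le : M1 ≤ mΩ := iSup₂_le (fun i _ => hle i)
  have hM2le : M2 ≤ mΩ := iSup₂_le (fun i _ => hle i)
  have hfm1 : ∀ i ∈ Tᶜ, @Measurable Ω ℝ M1 _ (f i) := by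
    intro i hi
    have : @Measurable Ω ℝ (m i) _ (f i) := comap_measurable _
    exact this.mono (le_iSup₂ (f := fun i _ => m i) i hi) le_rfl
  have hfm2 : ∀ i ∈ T, @Measurable Ω ℝ M2 _ (f i) := by
    intro i hi
    have : @Measurable Ω ℝ (m i) _ (f i) := comap_measurable _
    exact this.mono (le_iSup₂ (f := fun i _ => m i) i hi) le_rfl
  apply lintegral_mul_eq_lintegral_mul_lintegral_of_independent_measurableSpace hM1le hM2le hI
  · -- Φ part
    have h1 : (fun ω => Φ (fun v => ξ v ω, fun n => U n ω)) =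
        Φ ∘ (fun ω => ((fun v => if SExt u v then 0 else ξ v ω), fun n => U n ω)) := by
      funext ω
      simp only [Function.comp_apply]
      apply hΦu
      intro w hw
      simp [hw]
    rw [h1]
    apply hΦ.comp
    refine Measurable.prodMk ?_ ?_
    · apply @measurable_pi_lambda _ _ _ M1
      intro v
      by_cases hv : SExt u v
      · simp only [hv, if_true]
        exact @measurable_const _ _ _ M1 _
      · simp only [hv, if_false]
        exact hfm1 (Sum.inl v) (by
          simp only [hT, Set.mem_compl_iff, Set.mem_setOf_eq, not_exists, not_and]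
          intro w hw h2
          rw [Sum.inl.injEq] at hw
          exact hv (hw ▸ h2))
    · apply @measurable_pi_lambda _ _ _ M1
      intro n
      exact hfm1 (Sum.inr n) (by
        simp only [hT, Set.mem_compl_iff, Set.mem_setOf_eq, not_exists, not_and]
        intro w hw; cases hw)
  · have h1 : (fun ω => Ψ (fun v => ξ v ω)) =
        Ψ ∘ (fun ω => (fun v => if SExt u v then ξ v ω else 0)) := by
      funext ω
      simp only [Function.comp_apply]
      apply hΨu
      intro w hw
      simp [hw]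
    rw [h1]
    apply hΨ.comp
    apply @measurable_pi_lambda _ _ _ M2
    intro v
    by_cases hv : SExt u v
    · simp only [hv, if_true]
      exact hfm2 (Sum.inl v) ⟨v, rfl, hv⟩
    · simp only [hv, if_false]
      exact @measurable_const _ _ _ M2 _

end indep

end Pool.Agent.H654R3.Crem
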