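import Pool.Agent.H654R3.CremMeas
import Pool.Agent.H654R3.CremGauss

namespace Pool.Agent.H654R3.Crem

open MeasureTheory ProbabilityTheory
open scoped ENNReal NNReal

lemma exp_neg_le {x : ℝ} (h0 : 0 < x) (h1 : x ≤ 1) : Real.exp (-x) ≤ 1 - x / 2 := by
  rw [Real.exp_neg]
  have h2 : 1 + x ≤ Real.exp x := by linarith [Real.add_one_le_exp x]
  calc (Real.exp x)⁻¹ ≤ (1 + x)⁻¹ := by gcongr
    _ ≤ 1 - x / 2 := by
      rw [inv_le_iff_one_le_mul₀ (by linarith)]
      nlinarith

lemma geom_le {ι : Type*} (E : Finset ι) (c : ι → ℕ) (hc : Set.InjOn c E) {x : ℝ} (h0 : 0 < x)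
    (h1 : x ≤ 1) : ∑ e ∈ E, (ENNReal.ofReal (Real.exp (-x))) ^ (c e) ≤ ENNReal.ofReal (2 / x) := by
  classical
  calc ∑ e ∈ E, (ENNReal.ofReal (Real.exp (-x))) ^ (c e)
      = ∑ j ∈ E.image c, (ENNReal.ofReal (Real.exp (-x))) ^ j := by
        rw [Finset.sum_image hc]
    _ ≤ ∑' j : ℕ, (ENNReal.ofReal (Real.exp (-x))) ^ j := ENNReal.sum_le_tsum _
    _ = (1 - ENNReal.ofReal (Real.exp (-x)))⁻¹ := ENNReal.tsum_geometric _
    _ ≤ (ENNReal.ofReal (x / 2))⁻¹ := by
        apply ENNReal.inv_le_inv.2
        rw [← ENNReal.ofReal_one, ← ENNReal.ofReal_sub _ (by positivity)]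
        apply ENNReal.ofReal_le_ofReal
        linarith [exp_neg_le h0 h1]
    _ = ENNReal.ofReal (2 / x) := by
        rw [← ENNReal.ofReal_inv_of_pos (by positivity)]
        congr 1; field_simp

section pot
variable {N : ℕ} (alg : Algorithm N) (n : ℕ) (lev : ℕ → ℕ) (k0 : ℕ) (θ s x : ℝ)

/-- the sequence of queries, cut at `n` -/
noncomputable def qq (c : Cfg) : ℕ → List Bool := extd (hist alg n c)

/-- total cost along the path to `u` -/
noncomputable def tc (k : ℕ) (u : List Bool) (q : ℕ → List Bool) : ℝ :=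
  ∑ i ∈ Finset.Ico k0 k, (cst n q (u.take (lev i)) (u.take (lev (i+1))) : ℝ)

open Classical in
/-- the weight of a vertex -/
noncomputable def Ph (k : ℕ) (u : List Bool) (c : Cfg) : ℝ≥0∞ :=
  (if Vis n (qq alg n c) u then
    ENNReal.ofReal (Real.exp (-((1-s)*x) * tc n lev k0 k u (qq alg n c))) else 0) *
  ENNReal.ofReal (Real.exp (s * (θ * (X c.1 u - X c.1 (u.take (lev k0))) -
    ((lev k:ℝ) - lev k0) * Real.log 4)))

lemma measurable_Ph (k : ℕ) (u : List Bool) : Measurable (Ph alg n lev k0 θ s x k u) := by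
  classical
  unfold Ph
  apply Measurable.mul
  · have h1 : Measurable (fun h : Fin n → List Bool => if Vis n (extd h) u then
      ENNReal.ofReal (Real.exp (-((1-s)*x) * tc n lev k0 k u (extd h))) else 0) :=
      Measurable.of_discrete
    exact h1.comp (measurable_hist alg n)
  · have h1 : Measurable (fun c : Cfg => X c.1 u) := (measurable_X u).comp measurable_fst
    have h2 : Measurable (fun c : Cfg => X c.1 (u.take (lev k0))) :=
      (measurable_X _).comp measurable_fst
    fun_prop

lemma agree_hist {ξ ξ' : List Bool → ℝ} {r : ℕ → ℝ} {u : List Bool}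
    (h : ∀ w, ¬ SExt u w → ξ w = ξ' w) :
    Agree (query alg (X ξ) r) (query alg (X ξ') r) u := by
  apply query_agree
  intro v hv
  apply X_congr (u := u) h
  rintro ⟨h1, _⟩
  exact hv h1

lemma Ph_congr (k : ℕ) (u : List Bool) (ξ ξ' : List Bool → ℝ) (r : ℕ → ℝ)
    (h : ∀ w, ¬ SExt u w → ξ w = ξ' w) :
    Ph alg n lev k0 θ s x k u (ξ, r) = Ph alg n lev k0 θ s x k u (ξ', r) := by
  classical
  have ha := agree_hist alg (r := r) h
  have ha' := agree_hist alg (r := r) (fun w hw => (h w hw).symm)
  have e1 : ∀ t < n, qq alg n (ξ, r) t = query alg (X ξ) r t := fun t ht => extd_hist alg n _ ht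
  have e2 : ∀ t < n, qq alg n (ξ', r) t = query alg (X ξ') r t := fun t ht => extd_hist alg n _ ht
  have hV : Vis n (qq alg n (ξ, r)) u ↔ Vis n (qq alg n (ξ', r)) u := by
    rw [vis_congr e1, vis_congr e2]
    exact ⟨vis_of_agree ha, vis_of_agree ha'⟩
  have hC : tc n lev k0 k u (qq alg n (ξ, r)) = tc n lev k0 k u (qq alg n (ξ', r)) := by
    unfold tc
    apply Finset.sum_congr rfl
    intro i _
    rw [cst_congr e1, cst_congr e2]
    congr 1
    exact le_antisymm (cst_le_of_agree ha (List.take_prefix _ _))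
      (cst_le_of_agree ha' (List.take_prefix _ _))
  have hX1 : X ξ u = X ξ' u := X_congr (u := u) h (by simp)
  have hX2 : X ξ (u.take (lev k0)) = X ξ' (u.take (lev k0)) := by
    apply X_congr (u := u) h
    rintro ⟨h1, h2⟩
    exact h2 ((List.take_prefix _ _).eq_of_length_le h1.length_le)
  unfold Ph
  simp only [hV, hC, hX1, hX2]

lemma vis_of_append {q : ℕ → List Bool} {u e : List Bool} (h : Vis n q (u ++ e)) : Vis n q u := by
  obtain ⟨i, hi, h⟩ := h
  exact ⟨i, hi, (List.prefix_append u e).trans h⟩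

/-- increments from `u`, scaled -/
noncomputable def gg (u : List Bool) (e : List Bool) (c : Cfg) : ℝ := θ * (X c.1 (u ++ e) - X c.1 u)

lemma step_vertex (hlev : Monotone lev) (hs0 : 0 < s) (hs1 : s < 1) (hx0 : 0 < x) (hx1 : x ≤ 1)
    {k : ℕ} (hk : k0 ≤ k) {u : List Bool} (hu : u.length = lev k) (c : Cfg) :
    ∑ e ∈ wd (lev (k+1) - lev k), Ph alg n lev k0 θ s x (k+1) (u ++ e) c ≤
      (ENNReal.ofReal (2 / x)) ^ (1 - s) * (Ph alg n lev k0 θ s x k u c *
        (Wt (gg θ u) (lev (k+1) - lev k) c) ^ s) := by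
  classical
  set r := lev (k+1) - lev k with hr
  have hlk : lev k ≤ lev (k+1) := hlev (Nat.le_succ k)
  set q := qq alg n c with hq
  set a : List Bool → ℝ≥0∞ := fun e => if Vis n q (u ++ e) then
    ENNReal.ofReal (Real.exp (-((1-s)*x) * (cst n q u (u ++ e) : ℝ))) else 0 with ha
  set y : List Bool → ℝ≥0∞ := fun e =>
    ENNReal.ofReal (Real.exp (gg θ u e c - r * Real.log 4)) with hy
  have hrcast : (r:ℝ) = (lev (k+1) : ℝ) - lev k := by
    rw [hr, Nat.cast_sub hlk]
  have h1 : ∀ e ∈ wd r, Ph alg n lev k0 θ s x (k+1) (u ++ e) c ≤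
      Ph alg n lev k0 θ s x k u c * (a e * (y e) ^ s) := by
    intro e he
    rw [mem_wd] at he
    by_cases hV : Vis n q (u ++ e)
    · have hVu := vis_of_append n hV
      have htake : ∀ i ≤ k, (u ++ e).take (lev i) = u.take (lev i) := by
        intro i hi
        apply List.take_append_of_le_length
        rw [hu]; exact hlev hi
      have htk : (u ++ e).take (lev (k+1)) = u ++ e := by
        apply List.take_of_length_le
        rw [List.length_append, hu, he]; omega
      have htku : (u ++ e).take (lev k) = u := by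
        rw [htake k le_rfl, ← hu, List.take_length]
      have htc : tc n lev k0 (k+1) (u ++ e) q = tc n lev k0 k u q + (cst n q u (u ++ e) : ℝ) := by
        unfold tc
        rw [Finset.sum_Ico_succ_top hk, htk, htku]
        congr 1
        apply Finset.sum_congr rfl
        intro i hi
        rw [Finset.mem_Ico] at hi
        rw [htake i (by omega), htake (i+1) (by omega)]
      have hye : (y e) ^ s = ENNReal.ofReal (Real.exp (s * (gg θ u e c - r * Real.log 4))) := by
        simp only [hy]
        rw [ENNReal.ofReal_rpow_of_pos (Real.exp_pos _), ← Real.exp_mul]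
        congr 2; ring
      rw [hye]
      simp only [ha, Ph, ← hq, hV, hVu, if_true]
      rw [htc, htake k0 hk]
      rw [← ENNReal.ofReal_mul (by positivity), ← ENNReal.ofReal_mul (by positivity),
        ← ENNReal.ofReal_mul (by positivity), ← ENNReal.ofReal_mul (by positivity)]
      apply le_of_eq
      congr 1
      rw [← Real.exp_add, ← Real.exp_add, ← Real.exp_add, ← Real.exp_add]
      congr 1
      rw [hrcast]
      unfold gg
      ring
    · simp only [Ph, ← hq, hV, if_false, zero_mul]
      exact bot_le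
  have hpq : (1 / (1 - s)).HolderConjugate (1 / s) := by
    rw [Real.holderConjugate_iff]
    constructor
    · rw [lt_div_iff₀ (by linarith)]; linarith
    · simp
  have h2 : ∑ e ∈ wd r, a e * (y e) ^ s ≤
      (∑ e ∈ wd r, (a e) ^ (1 / (1 - s))) ^ (1 - s) * (∑ e ∈ wd r, y e) ^ s := by
    have := ENNReal.inner_le_Lp_mul_Lq (wd r) a (fun e => (y e) ^ s) hpq
    have h3 : ∀ e, ((y e) ^ s) ^ (1 / s) = y e := by
      intro e
      rw [← ENNReal.rpow_mul]
      rw [mul_one_div_cancel hs0.ne', ENNReal.rpow_one]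
    simp only [h3, one_div_one_div] at this
    exact this
  have h4 : ∑ e ∈ wd r, (a e) ^ (1 / (1 - s)) ≤ ENNReal.ofReal (2 / x) := by
    have h5 : ∀ e, (a e) ^ (1 / (1 - s)) = if Vis n q (u ++ e) then
        (ENNReal.ofReal (Real.exp (-x))) ^ (cst n q u (u ++ e)) else 0 := by
      intro e
      simp only [ha]
      by_cases hV : Vis n q (u ++ e)
      · simp only [hV, if_true]
        rw [ENNReal.ofReal_rpow_of_pos (Real.exp_pos _), ← Real.exp_mul,
          ← ENNReal.ofReal_pow (Real.exp_pos _).le, ← Real.exp_nat_mul]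
        congr 2
        have : (1 - s) ≠ 0 := by linarith
        field_simp
      · simp only [hV, if_false]
        rw [ENNReal.zero_rpow_of_pos]
        rw [one_div]; apply inv_pos.2; linarith
    simp_rw [h5]
    rw [← Finset.sum_filter]
    apply geom_le _ _ _ hx0 hx1
    intro e he e' he' hee
    simp only [Finset.coe_filter, Set.mem_setOf_eq, mem_wd] at he he'
    have := cst_inj (w := u ++ e) (w' := u ++ e') (u := u)
      (by rw [List.length_append, List.length_append, he.1, he'.1])
      (List.prefix_append _ _) (List.prefix_append _ _) he.2 he'.2 hee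
    exact List.append_cancel_left this
  calc _ ≤ ∑ e ∈ wd r, Ph alg n lev k0 θ s x k u c * (a e * (y e) ^ s) := Finset.sum_le_sum h1
    _ = Ph alg n lev k0 θ s x k u c * ∑ e ∈ wd r, (a e * (y e) ^ s) := by rw [Finset.mul_sum]
    _ ≤ Ph alg n lev k0 θ s x k u c * ((ENNReal.ofReal (2 / x)) ^ (1 - s) *
          (∑ e ∈ wd r, y e) ^ s) := by
        gcongr
        refine h2.trans ?_
        gcongr
    _ = _ := by
        unfold Wt
        ring

/-- total weight at block level `k` -/
noncomputable def RR (k : ℕ) (c : Cfg) : ℝ≥0∞ := ∑ u ∈ wd (lev k), Ph alg n lev k0 θ s x k u c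

lemma step_all (hlev : Monotone lev) (hs0 : 0 < s) (hs1 : s < 1) (hx0 : 0 < x) (hx1 : x ≤ 1)
    {k : ℕ} (hk : k0 ≤ k) (c : Cfg) :
    RR alg n lev k0 θ s x (k+1) c ≤ (ENNReal.ofReal (2 / x)) ^ (1 - s) *
      ∑ u ∈ wd (lev k), (Ph alg n lev k0 θ s x k u c *
        (Wt (gg θ u) (lev (k+1) - lev k) c) ^ s) := by
  unfold RR
  have hlk : lev (k+1) = lev k + (lev (k+1) - lev k) := by
    have := hlev (Nat.le_add_right k 1); omega
  rw [hlk, sum_wd_add, Finset.mul_sum, ← hlk]
  apply Finset.sum_le_sum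
  intro u hu
  rw [mem_wd] at hu
  exact step_vertex alg n lev k0 θ s x hlev hs0 hs1 hx0 hx1 hk hu c

lemma RR_start (c : Cfg) : RR alg n lev k0 θ s x k0 c ≤ n := by
  classical
  unfold RR
  have h1 : ∀ u ∈ wd (lev k0), Ph alg n lev k0 θ s x k0 u c =
      if Vis n (qq alg n c) u then 1 else 0 := by
    intro u hu
    rw [mem_wd] at hu
    unfold Ph tc
    rw [← hu, List.take_length]
    simp
  rw [Finset.sum_congr rfl h1, ← Finset.sum_filter, Finset.sum_const, nsmul_eq_mul, mul_one]
  have h2 : ((wd (lev k0)).filter (fun u => Vis n (qq alg n c) u)).card ≤ n := by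
    calc _ ≤ ((Finset.range n).image (fun i => (qq alg n c i).take (lev k0))).card := by
          apply Finset.card_le_card
          intro u hu
          simp only [Finset.mem_filter, mem_wd] at hu
          obtain ⟨hl, i, hi, hp⟩ := hu
          simp only [Finset.mem_image, Finset.mem_range]
          refine ⟨i, hi, ?_⟩
          rw [List.prefix_iff_eq_take] at hp
          rw [← hl, ← hp]
      _ ≤ n := by
          refine Finset.card_image_le.trans ?_
          rw [Finset.card_range]
  exact_mod_cast h2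

end pot

end Pool.Agent.H654R3.Crem
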