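import Pool.Agent.H654R3.CremInc

namespace Pool.Agent.H654R3.Crem

open MeasureTheory ProbabilityTheory Set Filter Topology
open scoped ENNReal NNReal

/-- information available before query number `n + 1`, as a map -/
def info {Ω : Type*} {N : ℕ} (Y : Vertex N → Ω → ℝ) (U : ℕ → Ω → ℝ) (v : ℕ → Ω → Vertex N)
    (n : ℕ) (ω : Ω) : (Fin n → Vertex N) × (Fin n → ℝ) × (Fin (n + 1) → ℝ) :=
  (fun i => v i ω, fun i => Y (v i ω) ω, fun i => U i ω)

/-- The sigma-algebra `F_n` generated by the first `n` queries, the `n` values found there, and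
`U_1, ..., U_{n+1}`. The variable `v i` is query number `i + 1`, and `U i` is `U_{i+1}`. -/
@[reducible] def sigmaF {Ω : Type*} {N : ℕ} (Y : Vertex N → Ω → ℝ) (U : ℕ → Ω → ℝ) (v : ℕ → Ω → Vertex N)
    (n : ℕ) : MeasurableSpace Ω :=
  (⨆ i : Fin n, MeasurableSpace.comap (v i) ⊤) ⊔
    (⨆ i : Fin n, MeasurableSpace.comap (fun ω => Y (v i ω) ω) inferInstance) ⊔
    (⨆ i : Fin (n + 1), MeasurableSpace.comap (U i) inferInstance)

lemma sigmaF_le {Ω : Type*} {N : ℕ} (Y : Vertex N → Ω → ℝ) (U : ℕ → Ω → ℝ)
    (v : ℕ → Ω → Vertex N) (n : ℕ) :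
    sigmaF Y U v n ≤ MeasurableSpace.comap (info Y U v n) inferInstance := by
  have key : ∀ {β : Type} (m : MeasurableSpace β)
      (g : (Fin n → Vertex N) × (Fin n → ℝ) × (Fin (n + 1) → ℝ) → β) (_ : Measurable g),
      MeasurableSpace.comap (fun ω => g (info Y U v n ω)) m ≤
        MeasurableSpace.comap (info Y U v n) inferInstance := by
    intro β m g hg
    have h1 : (fun ω => g (info Y U v n ω)) = g ∘ info Y U v n := rfl
    rw [h1, ← MeasurableSpace.comap_comp]
    exact MeasurableSpace.comap_mono hg.comap_le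
  unfold sigmaF
  refine sup_le (sup_le ?_ ?_) ?_
  · apply iSup_le
    intro i
    refine key ⊤ (fun z => z.1 i) ?_
    intro s _
    have : Measurable (fun z : (Fin n → Vertex N) × (Fin n → ℝ) × (Fin (n + 1) → ℝ) => z.1 i) :=
      (measurable_pi_apply i).comp measurable_fst
    exact this (DiscreteMeasurableSpace.forall_measurableSet s)
  · apply iSup_le
    intro i
    exact key inferInstance (fun z => z.2.1 i) (by fun_prop)
  · apply iSup_le
    intro i
    exact key inferInstance (fun z => z.2.2 i) (by fun_prop)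

/-- view a string as a vertex of `T_N` -/
def toVertex (N : ℕ) (l : List Bool) : Vertex N := ⟨l.take N, List.length_take_le N l⟩

lemma toVertex_coe {N : ℕ} (v : Vertex N) : toVertex N v.1 = v := by
  unfold toVertex
  apply Subtype.ext
  exact List.take_of_length_le v.2

instance instNonemptyVertex (N : ℕ) : Nonempty (Vertex N) := ⟨⟨[], by simp⟩⟩

/-- Every adapted sequence of queries is produced by some `Algorithm`. -/
lemma exists_algorithm {Ω : Type*} {N : ℕ} (Y : Vertex N → Ω → ℝ) (U : ℕ → Ω → ℝ)
    (v : ℕ → Ω → Vertex N) (hv : ∀ n, Measurable[sigmaF Y U v n, ⊤] (v n)) :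
    ∃ alg : Algorithm N, ∀ ω, Y ⟨[], by simp⟩ ω = 0 → ∀ n,
      query alg (X (fun w => incr Y w ω)) (fun m => U m ω) n = (v n ω).1 := by
  have h1 : ∀ n, ∃ h : (Fin n → Vertex N) × (Fin n → ℝ) × (Fin (n + 1) → ℝ) → Vertex N,
      Measurable h ∧ v n = h ∘ info Y U v n := by
    intro n
    exact ((hv n).mono (sigmaF_le Y U v n) le_top).exists_eq_measurable_comp
  choose h hm hh using h1
  refine ⟨⟨fun n a b c => (h n (fun i => toVertex N (a i), b, c)).1, ?_, ?_⟩, ?_⟩
  · intro n
    have h2 : Measurable (fun p : (Fin n → List Bool) × (Fin n → ℝ) × (Fin (n + 1) → ℝ) =>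
        ((fun i => toVertex N (p.1 i) : Fin n → Vertex N), p.2.1, p.2.2)) := by
      refine Measurable.prodMk ?_ ?_
      · apply measurable_pi_lambda
        intro i
        have h3 : Measurable (toVertex N) := fun s _ => trivial
        exact h3.comp ((measurable_pi_apply i).comp measurable_fst)
      · exact measurable_snd
    exact measurable_subtype_coe.comp ((hm n).comp h2)
  · intro n a b c
    exact (h n _).2
  · intro ω hω n
    induction n using Nat.strong_induction_on with
    | _ n ih =>
      unfold query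
      show (h n (fun i : Fin n => toVertex N _, fun i : Fin n => _, fun i : Fin (n+1) => U i ω)).1 =
        (v n ω).1
      have h4 : v n ω = h n (info Y U v n ω) := congrFun (hh n) ω
      rw [h4]
      congr 2
      unfold info
      refine Prod.ext ?_ (Prod.ext ?_ rfl)
      · funext i
        show toVertex N (query _ _ _ i) = v i ω
        rw [ih i i.isLt, toVertex_coe]
      · funext i
        show X (fun w => incr Y w ω) (query _ _ _ i) = Y (v i ω) ω
        rw [ih i i.isLt, X_incr, hω, sub_zero]

end Pool.Agent.H654R3.Crem
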