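import Pool.Agent.H654R3.CremLim

namespace Pool.Agent.H654R3.Crem

open MeasureTheory ProbabilityTheory Set Filter Topology
open scoped ENNReal NNReal

lemma tendsto_bound {K α : ℝ} (hα : 0 < α) :
    Tendsto (fun N : ℕ => K * ((N:ℝ) * Real.exp (-(α * N)))) atTop (𝓝 0) := by
  have h1 := Real.tendsto_pow_mul_exp_neg_atTop_nhds_zero 1
  have h2 : Tendsto (fun N : ℕ => α * (N:ℝ)) atTop atTop :=
    Tendsto.const_mul_atTop hα tendsto_natCast_atTop_atTop
  have h3 := (h1.comp h2).const_mul (K / α)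
  rw [mul_zero] at h3
  refine h3.congr (fun N => ?_)
  simp only [Function.comp_apply, pow_one]
  field_simp

theorem crem_lim {a : ℝ → ℝ} (ha0 : ∀ t ∈ Icc (0:ℝ) 1, 0 ≤ a t) {B : ℝ}
    (hbd : ∀ t ∈ Icc (0:ℝ) 1, a t ≤ B)
    (hcont : ∀ᵐ t ∂(volume.restrict (Icc (0:ℝ) 1)), ContinuousWithinAt a (Icc (0:ℝ) 1) t)
    (hone : ∫ t in (0:ℝ)..1, a t = 1) (g : ℕ → ℝ)
    (hg : Tendsto (fun N => g N / N) atTop (𝓝 0)) (C : ℝ)
    {Ω : ℕ → Type*} [∀ N, MeasurableSpace (Ω N)] (P : ∀ N, Measure (Ω N))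
    [∀ N, IsProbabilityMeasure (P N)]
    (ξ : ∀ N, List Bool → Ω N → ℝ) (U : ∀ N, ℕ → Ω N → ℝ)
    (hξ : ∀ N v, Measurable (ξ N v)) (hU : ∀ N n, Measurable (U N n))
    (hind : ∀ N, iIndepFun (fun i : List Bool ⊕ ℕ => (Sum.elim (ξ N) (U N) i : Ω N → ℝ)) (P N))
    (hlaw : ∀ N, ∀ w : List Bool, w ≠ [] → w.length ≤ N →
      (P N).map (ξ N w) = gaussianReal 0 (incVar a N w.length))
    (alg : ∀ N, Algorithm N) :
    Tendsto (fun N => P N {ω | ∃ t : ℕ, (t:ℝ) + 1 ≤ C * N ∧
      (query (alg N) (X (fun v => ξ N v ω)) (fun m => U N m ω) t).length = N ∧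
      √(2 * Real.log 2) * (∫ t in (0:ℝ)..1, √(a t)) * N - g N ≤
        X (fun v => ξ N v ω) (query (alg N) (X (fun v => ξ N v ω)) (fun m => U N m ω) t)})
      atTop (𝓝 0) := by
  have hB : 0 ≤ B := (ha0 0 (by simp)).trans (hbd 0 (by simp))
  have hint : IntervalIntegrable a volume 0 1 := by
    by_contra hcon
    rw [intervalIntegral.integral_undef hcon] at hone
    exact zero_ne_one hone
  have hlog4 : 0 < Real.log 4 := Real.log_pos (by norm_num)
  have hlog42 : Real.log 4 = 2 * Real.log 2 := by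
    rw [show (4:ℝ) = 2 ^ 2 by norm_num, Real.log_pow]; norm_num
  rw [← hlog42]
  set c := √(Real.log 4) with hc
  have hc0 : 0 < c := Real.sqrt_pos.2 hlog4
  set I := ∫ t in (0:ℝ)..1, √(a t) with hI
  set H := B + 1 with hHdef
  have hH0 : 0 < H := by linarith
  have hsH : 0 < √H := Real.sqrt_pos.2 hH0
  have hsHH : √H * √H = H := Real.mul_self_sqrt hH0.le
  set C' := max C 1 with hC'
  have hC1 : 1 ≤ C' := le_max_right _ _
  set b := min 1 (1 / (2 * H * C')) with hb
  have hb0 : 0 < b := by rw [hb]; positivity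
  have hb1 : b ≤ 1 := min_le_left _ _
  have hbH : b * (2 * H * C') ≤ 1 := by
    have : b ≤ 1 / (2 * H * C') := min_le_right _ _
    rwa [le_div_iff₀ (by positivity)] at this
  obtain ⟨p1, hp0, hp1, hp⟩ := exists_p1
  obtain ⟨L, σ, hL2, hσ0, hσ1, hkey⟩ := exists_L_sigma hp0 hp1 hb0
  have hL0 : (0:ℝ) < L := by exact_mod_cast (by omega : 0 < L)
  have hs0 : 0 < 1 - σ := by linarith
  set κ := σ / ((1 - σ) * c * L) with hκ
  have hκ0 : 0 < κ := by rw [hκ]; positivity
  set ε := κ / (8 * c * √H) with hε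
  have hε0 : 0 < ε := by rw [hε]; positivity
  have hcε : c * ε = κ / (8 * √H) := by rw [hε]; field_simp
  obtain ⟨M, h, hM0, hpos, hH, hwin, hJ⟩ := exists_steps ha0 hB hbd hcont hε0
  have hM0' : (0:ℝ) < M := by exact_mod_cast hM0
  rw [← hI] at hJ
  -- eventually the numeric inequality holds
  have hev1 : ∀ᶠ N : ℕ in atTop, 2 * c * L * M * (I + ε) / N + g N / N < 3 / 8 * κ / √H := by
    have h1 : Tendsto (fun N : ℕ => 2 * c * L * M * (I + ε) / N + g N / N) atTop (𝓝 (0 + 0)) := by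
      apply Tendsto.add _ hg
      exact Tendsto.div_atTop tendsto_const_nhds tendsto_natCast_atTop_atTop
    rw [add_zero] at h1
    exact h1.eventually (gt_mem_nhds (by positivity))
  set K := C' * (2 / (b / L)) * Real.exp (2 * σ) * Real.exp σ with hK
  have hupper : Tendsto (fun N : ℕ => (M:ℝ≥0∞) * ENNReal.ofReal
      (K * ((N:ℝ) * Real.exp (-((σ / (L * M)) * N))))) atTop (𝓝 0) := by
    have h1 := tendsto_bound (K := K) (α := σ / (L * M)) (by positivity)
    have h2 := ENNReal.tendsto_ofReal h1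
    rw [ENNReal.ofReal_zero] at h2
    have h3 := ENNReal.Tendsto.const_mul (a := (M:ℝ≥0∞)) h2 (Or.inr (by simp))
    rwa [mul_zero] at h3
  refine tendsto_of_tendsto_of_tendsto_of_le_of_le' tendsto_const_nhds hupper
    (Eventually.of_forall (fun _ => bot_le)) ?_
  filter_upwards [hev1, eventually_ge_atTop (L * M), eventually_gt_atTop 0] with N hN1 hN2 hN3
  have hN' : (0:ℝ) < N := by exact_mod_cast hN3
  set n := ⌊C' * N⌋₊ with hn
  have hnle : (n:ℝ) ≤ C' * N := Nat.floor_le (by positivity)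
  have hy : c * ((N + 2 * L * M) * (I + ε)) + κ * (b * √H * n - N / √H) < c * I * N - g N := by
    have h1 : b * √H * n ≤ N / (2 * √H) := by
      rw [le_div_iff₀ (by positivity)]
      calc b * √H * n * (2 * √H) = b * (2 * (√H * √H)) * n := by ring
        _ = b * (2 * H) * n := by rw [hsHH]
        _ ≤ b * (2 * H) * (C' * N) := by gcongr
        _ = (b * (2 * H * C')) * N := by ring
        _ ≤ 1 * N := by gcongr
        _ = N := one_mul _
    have h2 : κ * (b * √H * n - N / √H) ≤ κ * (N / (2 * √H) - N / √H) := by gcongr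
    have h3 : κ * (N / (2 * √H) - N / √H) = - (κ * N / (2 * √H)) := by
      field_simp; ring
    have h4 : 2 * c * L * M * (I + ε) + g N < 3 / 8 * κ / √H * N := by
      have h5 := mul_lt_mul_of_pos_right hN1 hN'
      have h6 : (2 * c * L * M * (I + ε) / N + g N / N) * N = 2 * c * L * M * (I + ε) + g N := by
        field_simp
      rwa [h6] at h5
    have h7 : c * ((N + 2 * L * M) * (I + ε)) = c * I * N + (c * ε) * N +
        2 * c * L * M * (I + ε) := by ring
    rw [h7, hcε]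
    have h8 : κ / (8 * √H) * N + 3 / 8 * κ / √H * N = κ * N / (2 * √H) := by
      field_simp; ring
    linarith
  have hmain := fixedN (alg N) n (hξ N) (hU N) (hind N) hint hone (hlaw N) hL2 hM0 hN2 hp0 hp
    hpos hH hwin hJ hb0 hb1 hσ0 hσ1 hkey hy
  calc _ ≤ P N {ω | ∃ t < n, (query (alg N) (X (fun v => ξ N v ω)) (fun m => U N m ω) t).length = N
        ∧ c * I * N - g N ≤
        X (fun v => ξ N v ω) (query (alg N) (X (fun v => ξ N v ω)) (fun m => U N m ω) t)} := by
        apply measure_mono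
        rintro ω ⟨t, ht, h1, h2⟩
        refine ⟨t, ?_, h1, h2⟩
        have : ((t + 1 : ℕ) : ℝ) ≤ C' * N := by
          push_cast
          refine ht.trans ?_
          have : C ≤ C' := le_max_left _ _
          gcongr
        exact Nat.le_floor this
    _ ≤ _ := hmain
    _ ≤ _ := by
      refine mul_le_mul' le_rfl (ENNReal.ofReal_le_ofReal ?_)
      calc (n:ℝ) * (2 / (b / L)) * Real.exp (2 * σ) * Real.exp (-(σ * ((N:ℝ) / (L * M) - 1)))
          ≤ (C' * N) * (2 / (b / L)) * Real.exp (2 * σ) *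
            Real.exp (-(σ * ((N:ℝ) / (L * M) - 1))) := by gcongr
        _ = _ := by
          have : Real.exp (-(σ * ((N:ℝ) / (L * M) - 1))) =
              Real.exp σ * Real.exp (-((σ / (L * M)) * N)) := by
            rw [← Real.exp_add]; congr 1; ring
          rw [this, hK]; ring

end Pool.Agent.H654R3.Crem
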