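import Pool.Agent.H654R3.SecondDiff

set_option autoImplicit false

/-!
Additive energy inequality and block lower bound.
-/

namespace Pool.Agent.H654R3

open Finset

lemma sum_norm_fiber {α : Type*} (X : Finset α) (J : Finset ℤ) (key : α → ℤ) (f : α → ℂ)
    (hkey : ∀ x ∈ X, key x ∈ J) :
    ((∑ N ∈ J, ‖∑ x ∈ X, if key x = N then f x else 0‖ ^ 2 : ℝ) : ℂ) =
      ∑ x ∈ X, ∑ y ∈ X, if key x = key y then f x * star (f y) else 0 := by
  have h1 : ∀ N ∈ J, ((‖∑ x ∈ X, if key x = N then f x else 0‖ ^ 2 : ℝ) : ℂ) =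
      ∑ x ∈ X, ∑ y ∈ X, if key x = N then (if key y = N then f x * star (f y) else 0) else 0 := by
    intro N _
    rw [← Complex.normSq_eq_norm_sq, ← Complex.mul_conj, map_sum, Finset.sum_mul_sum]
    refine Finset.sum_congr rfl fun x _ => Finset.sum_congr rfl fun y _ => ?_
    split_ifs with h h' <;> simp
  push_cast at h1 ⊢
  rw [Finset.sum_congr rfl h1, Finset.sum_comm]
  refine Finset.sum_congr rfl fun x hx => ?_
  rw [Finset.sum_comm]
  refine Finset.sum_congr rfl fun y _ => ?_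
  rw [Finset.sum_ite_eq, if_pos (hkey x hx)]
  simp only [eq_comm]

/-- Additive energy: `∑_N |∑ φ_p φ_{N-p}|² ≥ (∑ |φ_p|²)²`. -/
lemma energy_ineq (I J : Finset ℤ) (φ : ℤ → ℂ) (hJ : ∀ p ∈ I, ∀ q ∈ I, p + q ∈ J) :
    (∑ p ∈ I, ‖φ p‖ ^ 2) ^ 2 ≤
      ∑ N ∈ J, ‖∑ p ∈ I, ∑ q ∈ I, if p + q = N then φ p * φ q else 0‖ ^ 2 := by
  set J' : Finset ℤ := insert 0 ((I ×ˢ I).image fun x => x.1 - x.2) with hJ'
  have e1 := sum_norm_fiber (I ×ˢ I) J (fun x => x.1 + x.2) (fun x => φ x.1 * φ x.2)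
    (fun x hx => by
      rw [Finset.mem_product] at hx
      exact hJ _ hx.1 _ hx.2)
  have e2 := sum_norm_fiber (I ×ˢ I) J' (fun x => x.1 - x.2) (fun x => φ x.1 * star (φ x.2))
    (fun x hx => by
      rw [hJ', Finset.mem_insert]
      right
      exact Finset.mem_image_of_mem (fun x => x.1 - x.2) hx)
  have e3 : (∑ x ∈ I ×ˢ I, ∑ y ∈ I ×ˢ I, if x.1 + x.2 = y.1 + y.2 then
      φ x.1 * φ x.2 * star (φ y.1 * φ y.2) else 0) =
      ∑ x ∈ I ×ˢ I, ∑ y ∈ I ×ˢ I, if x.1 - x.2 = y.1 - y.2 then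
      φ x.1 * star (φ x.2) * star (φ y.1 * star (φ y.2)) else 0 := by
    simp only [Finset.sum_product]
    refine Finset.sum_congr rfl fun p _ => ?_
    rw [Finset.sum_comm]
    refine Finset.sum_congr rfl fun r _ => ?_
    rw [Finset.sum_comm]
    refine Finset.sum_congr rfl fun s _ => ?_
    refine Finset.sum_congr rfl fun q _ => ?_
    by_cases h : p + q = r + s
    · rw [if_pos h, if_pos (by omega)]
      simp only [star_mul', star_star]
      ring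
    · rw [if_neg h, if_neg (by omega)]
  have e4 : (∑ N ∈ J, ‖∑ x ∈ I ×ˢ I, if x.1 + x.2 = N then φ x.1 * φ x.2 else 0‖ ^ 2 : ℝ) =
      ∑ N ∈ J', ‖∑ x ∈ I ×ˢ I, if x.1 - x.2 = N then φ x.1 * star (φ x.2) else 0‖ ^ 2 := by
    have : ((∑ N ∈ J, ‖∑ x ∈ I ×ˢ I, if x.1 + x.2 = N then φ x.1 * φ x.2 else 0‖ ^ 2 : ℝ) : ℂ) =
      ((∑ N ∈ J', ‖∑ x ∈ I ×ˢ I, if x.1 - x.2 = N then φ x.1 * star (φ x.2) else 0‖ ^ 2 : ℝ) :
        ℂ) := by
      rw [e1, e2]; exact e3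
    exact_mod_cast this
  have conv : ∀ N : ℤ, (∑ p ∈ I, ∑ q ∈ I, if p + q = N then φ p * φ q else 0) =
      ∑ x ∈ I ×ˢ I, if x.1 + x.2 = N then φ x.1 * φ x.2 else 0 := fun N => by
    rw [Finset.sum_product]
  have conv2 : (∑ N ∈ J, ‖∑ p ∈ I, ∑ q ∈ I, if p + q = N then φ p * φ q else 0‖ ^ 2) =
      ∑ N ∈ J, ‖∑ x ∈ I ×ˢ I, if x.1 + x.2 = N then φ x.1 * φ x.2 else 0‖ ^ 2 :=
    Finset.sum_congr rfl fun N _ => by rw [conv N]
  rw [conv2, e4]
  have h0 : (0 : ℤ) ∈ J' := by rw [hJ']; exact Finset.mem_insert_self _ _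
  refine le_trans (le_of_eq ?_) (Finset.single_le_sum (f := fun N : ℤ =>
    ‖∑ x ∈ I ×ˢ I, if x.1 - x.2 = N then φ x.1 * star (φ x.2) else 0‖ ^ 2)
    (fun N _ => by positivity) h0)
  have h5 : (∑ x ∈ I ×ˢ I, if x.1 - x.2 = 0 then φ x.1 * star (φ x.2) else 0) =
      ((∑ p ∈ I, ‖φ p‖ ^ 2 : ℝ) : ℂ) := by
    rw [Finset.sum_product]
    push_cast
    refine Finset.sum_congr rfl fun p hp => ?_
    have : ∀ q ∈ I, (if (p, q).1 - (p, q).2 = 0 then φ (p, q).1 * star (φ (p, q).2) else 0) =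
        if p = q then φ p * star (φ q) else 0 := by
      intro q _
      simp only [sub_eq_zero]
    rw [Finset.sum_congr rfl this, Finset.sum_ite_eq, if_pos hp, Complex.star_def,
      Complex.mul_conj, Complex.normSq_eq_norm_sq]
    push_cast; rfl
  rw [h5, Complex.norm_real, Real.norm_of_nonneg (by positivity)]

/-- The block lower bound. -/
theorem block_lower (c : ℤ → ℂ) (M : ℕ) (hM : ∀ n : ℤ, (M : ℤ) < |n| → c n = 0)
    (L : ℕ) (hL : 1 ≤ L) :
    4 * (L : ℝ) ^ 5 * (∑ n ∈ Finset.Icc (2 * L : ℤ) (4 * L), ‖c n‖ ^ 2) ^ 2 ≤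
      5 * 56 ^ 2 * 6 ^ 12 * ∑ p ∈ Finset.Icc (L : ℤ) (5 * L), ∑ q ∈ Finset.Icc (L : ℤ) (5 * L),
        (p : ℝ) * q * ‖gf c p q‖ ^ 2 := by
  set I := Finset.Icc (L : ℤ) (5 * L) with hI
  set J := Finset.Icc (2 * L : ℤ) (10 * L) with hJ
  have hLr : (1 : ℝ) ≤ L := by exact_mod_cast hL
  set T := ∑ p ∈ I, ∑ q ∈ I, (p : ℝ) * q * ‖gf c p q‖ ^ 2 with hT
  -- Step 1: for every N
  have step1 : ∀ N : ℤ, 4 * ‖∑ p ∈ I, ∑ q ∈ I, if p + q = N then
      ((wind L p : ℂ) * c p) * ((wind L q : ℂ) * c q) else 0‖ ^ 2 ≤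
      (5 * 56 ^ 2 * 6 ^ 12 * (L : ℝ) ^ 11) * ∑ p ∈ I, ∑ q ∈ I, if p + q = N then
        (p : ℝ) * q * ‖gf c p q‖ ^ 2 else 0 := by
    intro N
    -- the sum over p
    set B := I.filter (fun p => N - p ∈ I) with hB
    have inner : ∀ (F : ℤ → ℤ → ℂ), (∑ p ∈ I, ∑ q ∈ I, if p + q = N then F p q else 0) =
        ∑ p ∈ B, F p (N - p) := by
      intro F
      rw [hB, Finset.sum_filter]
      refine Finset.sum_congr rfl fun p _ => ?_
      have : ∀ q ∈ I, (if p + q = N then F p q else 0) = if q = N - p then F p q else 0 := by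
        intro q _
        by_cases h : q = N - p
        · rw [if_pos h, if_pos (by omega)]
        · rw [if_neg h, if_neg (by omega)]
      rw [Finset.sum_congr rfl this, Finset.sum_ite_eq']
    have inner' : (∑ p ∈ I, ∑ q ∈ I, if p + q = N then (p : ℝ) * q * ‖gf c p q‖ ^ 2 else 0) =
        ∑ p ∈ B, (p : ℝ) * ((N - p : ℤ) : ℝ) * ‖gf c p (N - p)‖ ^ 2 := by
      rw [hB, Finset.sum_filter]
      refine Finset.sum_congr rfl fun p _ => ?_
      have : ∀ q ∈ I, (if p + q = N then (p : ℝ) * q * ‖gf c p q‖ ^ 2 else 0) =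
          if q = N - p then (p : ℝ) * q * ‖gf c p q‖ ^ 2 else 0 := by
        intro q _
        by_cases h : q = N - p
        · rw [if_pos h, if_pos (by omega)]
        · rw [if_neg h, if_neg (by omega)]
      rw [Finset.sum_congr rfl this, Finset.sum_ite_eq']
    rw [inner (fun p q => ((wind L p : ℂ) * c p) * ((wind L q : ℂ) * c q)), inner']
    -- identity
    have hWsupp : ∀ p, ((wwin L N p : ℝ) : ℂ) ≠ 0 → p ∈ I ∧ N - p ∈ I := by
      intro p hp
      have hp' : wind L p * wind L (N - p) ≠ 0 := by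
        intro h; apply hp; unfold wwin; rw [h]; simp
      rw [hI, Finset.mem_Icc, Finset.mem_Icc]
      have h1 : ¬ (p ≤ L ∨ 5 * (L : ℤ) ≤ p) := fun h => hp' (by
        rw [wind_eq_zero L p h, zero_mul])
      have h2 : ¬ (N - p ≤ L ∨ 5 * (L : ℤ) ≤ N - p) := fun h => hp' (by
        rw [wind_eq_zero L _ h, mul_zero])
      push Not at h1 h2
      omega
    have parts := sum_by_parts (fun p => gf c p (N - p)) (fun p => ((wwin L N p : ℝ) : ℂ))
      (L : ℤ) (5 * L) (fun p hp => (hWsupp p hp).1)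
    have lhs : ∑' p : ℤ, ((wwin L N p : ℝ) : ℂ) * (gf c (p + 1) (N - (p + 1)) +
        gf c (p - 1) (N - (p - 1)) - 2 * gf c p (N - p)) =
        2 * ∑ p ∈ B, ((wind L p : ℂ) * c p) * ((wind L (N - p) : ℂ) * c (N - p)) := by
      rw [Finset.mul_sum]
      rw [tsum_eq_sum (s := B)]
      · refine Finset.sum_congr rfl fun p _ => ?_
        have := gf_second_diff c M hM p (N - p)
        rw [show N - (p + 1) = N - p - 1 by ring, show N - (p - 1) = N - p + 1 by ring, this]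
        unfold wwin
        push_cast
        ring
      · intro p hp
        have : ((wwin L N p : ℝ) : ℂ) = 0 := by
          by_contra h
          apply hp
          rw [hB, Finset.mem_filter]
          exact hWsupp p h
        rw [this, zero_mul]
    have hsec := wwin_second L hL N
    have rhs : ∑' p : ℤ, gf c p (N - p) * (((wwin L N (p + 1) : ℝ) : ℂ) +
        ((wwin L N (p - 1) : ℝ) : ℂ) - 2 * ((wwin L N p : ℝ) : ℂ)) =
        ∑ p ∈ B, gf c p (N - p) * ((wwin L N (p + 1) + wwin L N (p - 1) - 2 * wwin L N p : ℝ) :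
          ℂ) := by
      rw [tsum_eq_sum (s := B)]
      · refine Finset.sum_congr rfl fun p _ => ?_
        push_cast; ring
      · intro p hp
        have h := hsec p
        rw [if_neg (by
          intro h'
          apply hp
          rw [hB, Finset.mem_filter]
          exact h')] at h
        have h' : wwin L N (p + 1) + wwin L N (p - 1) - 2 * wwin L N p = 0 :=
          abs_eq_zero.mp (le_antisymm h (abs_nonneg _))
        have h'' : (((wwin L N (p + 1) : ℝ) : ℂ) +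
          ((wwin L N (p - 1) : ℝ) : ℂ) - 2 * ((wwin L N p : ℝ) : ℂ)) = 0 := by
          exact_mod_cast h'
        rw [h'', mul_zero]
    have ident : 2 * ∑ p ∈ B, ((wind L p : ℂ) * c p) * ((wind L (N - p) : ℂ) * c (N - p)) =
        ∑ p ∈ B, gf c p (N - p) * ((wwin L N (p + 1) + wwin L N (p - 1) - 2 * wwin L N p : ℝ) :
          ℂ) := by
      rw [← lhs, ← rhs]; exact parts
    -- Cauchy-Schwarz
    set K6 : ℝ := 56 * (6 * L : ℝ) ^ 6 with hK6
    have hbound : ‖2 * ∑ p ∈ B, ((wind L p : ℂ) * c p) * ((wind L (N - p) : ℂ) * c (N - p))‖ ≤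
        ∑ p ∈ B, ‖gf c p (N - p)‖ * K6 := by
      rw [ident]
      refine (norm_sum_le _ _).trans (Finset.sum_le_sum fun p hp => ?_)
      rw [norm_mul, Complex.norm_real]
      apply mul_le_mul_of_nonneg_left _ (norm_nonneg _)
      rw [Real.norm_eq_abs]
      have h := hsec p
      rw [hB, Finset.mem_filter] at hp
      rw [if_pos hp] at h
      exact h
    have hsq : ‖2 * ∑ p ∈ B, ((wind L p : ℂ) * c p) * ((wind L (N - p) : ℂ) * c (N - p))‖ ^ 2 ≤
        (∑ p ∈ B, ‖gf c p (N - p)‖ * K6) ^ 2 :=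
      pow_le_pow_left₀ (norm_nonneg _) hbound 2
    have hpos : ∀ p ∈ B, (L : ℝ) ^ 2 ≤ (p : ℝ) * ((N - p : ℤ) : ℝ) := by
      intro p hp
      rw [hB, Finset.mem_filter, hI, Finset.mem_Icc, Finset.mem_Icc] at hp
      have h1 : (L : ℝ) ≤ p := by exact_mod_cast hp.1.1
      have h2 : (L : ℝ) ≤ ((N - p : ℤ) : ℝ) := by exact_mod_cast hp.2.1
      rw [pow_two]
      exact mul_le_mul h1 h2 (by positivity) (by linarith)
    have hcard : (B.card : ℝ) ≤ 5 * L := by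
      have h1 : B.card ≤ I.card := Finset.card_filter_le _ _
      have h2 : I.card = 4 * L + 1 := by
        rw [hI, Int.card_Icc]; omega
      have h3 : (B.card : ℝ) ≤ 4 * L + 1 := by
        have : B.card ≤ 4 * L + 1 := h1.trans (le_of_eq h2)
        exact_mod_cast this
      linarith
    have hcs : (∑ p ∈ B, ‖gf c p (N - p)‖ * K6) ^ 2 ≤
        (5 * L) * (∑ p ∈ B, (‖gf c p (N - p)‖ * K6) ^ 2) := by
      have := sq_sum_le_card_mul_sum_sq (s := B) (f := fun p => ‖gf c p (N - p)‖ * K6)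
      refine this.trans ?_
      apply mul_le_mul_of_nonneg_right hcard
      positivity
    have hlast : (L : ℝ) ^ 2 * ∑ p ∈ B, (‖gf c p (N - p)‖ * K6) ^ 2 ≤
        K6 ^ 2 * ∑ p ∈ B, (p : ℝ) * ((N - p : ℤ) : ℝ) * ‖gf c p (N - p)‖ ^ 2 := by
      rw [Finset.mul_sum, Finset.mul_sum]
      refine Finset.sum_le_sum fun p hp => ?_
      have h := mul_le_mul_of_nonneg_right (hpos p hp)
        (show 0 ≤ K6 ^ 2 * ‖gf c p (N - p)‖ ^ 2 by positivity)
      calc (L : ℝ) ^ 2 * (‖gf c p (N - p)‖ * K6) ^ 2 = (L : ℝ) ^ 2 * (K6 ^ 2 *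
            ‖gf c p (N - p)‖ ^ 2) := by ring
        _ ≤ _ := h
        _ = _ := by ring
    have hnorm : ‖2 * ∑ p ∈ B, ((wind L p : ℂ) * c p) * ((wind L (N - p) : ℂ) * c (N - p))‖ ^ 2 =
        4 * ‖∑ p ∈ B, ((wind L p : ℂ) * c p) * ((wind L (N - p) : ℂ) * c (N - p))‖ ^ 2 := by
      rw [norm_mul, mul_pow]; norm_num
    rw [hnorm] at hsq
    set Y := ∑ p ∈ B, (‖gf c p (N - p)‖ * K6) ^ 2 with hY
    set S := ∑ p ∈ B, (p : ℝ) * ((N - p : ℤ) : ℝ) * ‖gf c p (N - p)‖ ^ 2 with hS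
    have hfin : (L : ℝ) ^ 2 * (4 * ‖∑ p ∈ B, ((wind L p : ℂ) * c p) *
        ((wind L (N - p) : ℂ) * c (N - p))‖ ^ 2) ≤
        (L : ℝ) ^ 2 * ((5 * 56 ^ 2 * 6 ^ 12 * (L : ℝ) ^ 11) * S) := by
      calc (L : ℝ) ^ 2 * (4 * ‖∑ p ∈ B, ((wind L p : ℂ) * c p) *
          ((wind L (N - p) : ℂ) * c (N - p))‖ ^ 2)
          ≤ (L : ℝ) ^ 2 * ((5 * L) * Y) :=
            mul_le_mul_of_nonneg_left (hsq.trans hcs) (by positivity)
        _ = (5 * L) * ((L : ℝ) ^ 2 * Y) := by ring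
        _ ≤ (5 * L) * (K6 ^ 2 * S) := mul_le_mul_of_nonneg_left hlast (by positivity)
        _ = _ := by rw [hK6]; ring
    exact le_of_mul_le_mul_left hfin (by positivity)
  -- Step 2: sum over N
  have step2 := Finset.sum_le_sum (fun N (_ : N ∈ J) => step1 N)
  rw [← Finset.mul_sum, ← Finset.mul_sum] at step2
  have hswap : (∑ N ∈ J, ∑ p ∈ I, ∑ q ∈ I, if p + q = N then
        (p : ℝ) * q * ‖gf c p q‖ ^ 2 else 0) = T := by
    rw [Finset.sum_comm]
    refine Finset.sum_congr rfl fun p hp => ?_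
    rw [Finset.sum_comm]
    refine Finset.sum_congr rfl fun q hq => ?_
    rw [Finset.sum_ite_eq, if_pos]
    rw [hI, Finset.mem_Icc] at hp hq
    rw [hJ, Finset.mem_Icc]
    omega
  rw [hswap] at step2
  have hen := energy_ineq I J (fun p => (wind L p : ℂ) * c p) (by
    intro p hp q hq
    rw [hI, Finset.mem_Icc] at hp hq
    rw [hJ, Finset.mem_Icc]
    omega)
  have hlow : (L : ℝ) ^ 8 * (∑ n ∈ Finset.Icc (2 * L : ℤ) (4 * L), ‖c n‖ ^ 2) ≤
      ∑ p ∈ I, ‖(wind L p : ℂ) * c p‖ ^ 2 := by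
    rw [Finset.mul_sum]
    have hsub : Finset.Icc (2 * L : ℤ) (4 * L) ⊆ I := by
      intro x hx
      rw [Finset.mem_Icc] at hx
      rw [hI, Finset.mem_Icc]
      omega
    refine le_trans ?_ (Finset.sum_le_sum_of_subset_of_nonneg hsub (fun _ _ _ => by positivity))
    refine Finset.sum_le_sum fun p hp => ?_
    rw [Finset.mem_Icc] at hp
    have h := wind_ge L p hp.1 hp.2
    rw [norm_mul, mul_pow, Complex.norm_real, Real.norm_of_nonneg (wind_nonneg L p)]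
    apply mul_le_mul_of_nonneg_right _ (by positivity)
    calc (L : ℝ) ^ 8 = ((L : ℝ) ^ 4) ^ 2 := by ring
      _ ≤ _ := pow_le_pow_left₀ (by positivity) h 2
  set σ := ∑ n ∈ Finset.Icc (2 * L : ℤ) (4 * L), ‖c n‖ ^ 2 with hσ
  have hσ0 : 0 ≤ σ := by positivity
  have hlow2 : (L : ℝ) ^ 16 * σ ^ 2 ≤ (∑ p ∈ I, ‖(wind L p : ℂ) * c p‖ ^ 2) ^ 2 := by
    calc (L : ℝ) ^ 16 * σ ^ 2 = ((L : ℝ) ^ 8 * σ) ^ 2 := by ring
      _ ≤ _ := pow_le_pow_left₀ (by positivity) hlow 2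
  have hfin : (L : ℝ) ^ 11 * (4 * (L : ℝ) ^ 5 * σ ^ 2) ≤
      (L : ℝ) ^ 11 * (5 * 56 ^ 2 * 6 ^ 12 * T) := by
    calc (L : ℝ) ^ 11 * (4 * (L : ℝ) ^ 5 * σ ^ 2) = 4 * ((L : ℝ) ^ 16 * σ ^ 2) := by ring
      _ ≤ 4 * ∑ N ∈ J, ‖∑ p ∈ I, ∑ q ∈ I, if p + q = N then
            ((wind L p : ℂ) * c p) * ((wind L q : ℂ) * c q) else 0‖ ^ 2 :=
            mul_le_mul_of_nonneg_left (hlow2.trans hen) (by norm_num)
      _ ≤ _ := step2
      _ = _ := by ring
  exact le_of_mul_le_mul_left hfin (by positivity)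

end Pool.Agent.H654R3
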