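import Pool.Agent.H654R3.Assemble

set_option autoImplicit false

/-!
The zeta-invariant of a trigonometric polynomial as a difference of traces, and the lower
bound for all exponents.
-/

namespace Pool.Agent.H654R3

open Matrix

/-- The zeta-invariant of a trigonometric polynomial is a difference of traces. -/
theorem zeta_trig_eq (c : ℤ → ℂ) (M m : ℕ)
    (hM : ∀ n : ℤ, (M : ℤ) < |n| → c n = 0) (hm : Even (m + 1)) :
    (∑ j ∈ incBox m M,
      ((∑ᶠ n : ℤ, (|∏ i, toPath j.1 n i| - ∏ i, toPath j.1 n i) : ℤ) : ℂ) * ∏ i, c (j.1 i)) =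
    trace ((symA c (2 * ((m + 1) * M))) ^ (m + 1)) -
      trace ((sgnH (2 * ((m + 1) * M)) * symA c (2 * ((m + 1) * M))) ^ (m + 1)) := by
  set R : ℕ := (m + 1) * M with hR
  set N : ℕ := 2 * R with hN
  have h1 : ∑ j ∈ incBox m M,
      ((∑ᶠ n : ℤ, (|∏ i, toPath j.1 n i| - ∏ i, toPath j.1 n i) : ℤ) : ℂ) * ∏ i, c (j.1 i) =
      ∑ x ∈ incBox m M ×ˢ Finset.Icc (-(R : ℤ)) (R : ℤ), pathTerm c (pathEquiv m x) := by
    rw [Finset.sum_product]
    refine Finset.sum_congr rfl fun j hj => ?_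
    rw [finsum_eq_box hm j.1 ((mem_incBox j).mp hj)]
    push_cast
    rw [Finset.sum_mul]
    refine Finset.sum_congr rfl fun n _ => ?_
    have := pathTerm_toPath c j n
    push_cast at this
    rw [← this]
    rfl
  have h2 : ∑ x ∈ incBox m M ×ˢ Finset.Icc (-(R : ℤ)) (R : ℤ), pathTerm c (pathEquiv m x) =
      ∑' x, pathTerm c (pathEquiv m x) := by
    symm
    apply tsum_eq_sum
    rintro ⟨j, n⟩ hx
    rw [Finset.mem_product, not_and_or] at hx
    change pathTerm c (toPath j.1 n) = 0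
    rw [pathTerm_toPath]
    by_cases hj : j ∈ incBox m M
    · have hn : n ∉ Finset.Icc (-(R : ℤ)) (R : ℤ) := by tauto
      rw [Finset.mem_Icc, ← abs_le, not_le] at hn
      have := prod_toPath_nonneg hm j.1 n M (by positivity) ((mem_incBox j).mp hj)
        (by rw [hR] at hn; push_cast at hn ⊢; exact hn)
      rw [abs_of_nonneg this, sub_self]
      simp
    · rw [mem_incBox] at hj
      push Not at hj
      obtain ⟨i, hi⟩ := hj
      have h0 : ∏ i, c (j.1 i) = 0 := Finset.prod_eq_zero (Finset.mem_univ i) (hM _ hi)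
      rw [h0, mul_zero]
  have h3 : ∑' x, pathTerm c (pathEquiv m x) = ∑' p : Fin (m + 1) → ℤ, pathTerm c p :=
    (pathEquiv m).tsum_eq (pathTerm c)
  have hinj : Function.Injective (fun (p : Fin (m + 1) → Box N) (i : Fin (m + 1)) => (p i : ℤ)) := by
    intro p q hpq
    funext i
    exact Subtype.ext (congrFun hpq i)
  have h4 : ∑ p : Fin (m + 1) → Box N, pathTerm c (fun i => (p i : ℤ)) =
      ∑' p : Fin (m + 1) → ℤ, pathTerm c p := by
    have ht : ∑' p : Fin (m + 1) → Box N, pathTerm c (fun i => (p i : ℤ)) =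
        ∑ p : Fin (m + 1) → Box N, pathTerm c (fun i => (p i : ℤ)) := tsum_fintype _
    rw [← ht]
    apply hinj.tsum_eq (f := pathTerm c)
    intro p hp
    rw [Function.mem_support] at hp
    set x := (pathEquiv m).symm p with hx
    have hpx : p = toPath x.1.1 x.2 := by
      have := (pathEquiv m).apply_symm_apply p
      rw [← this]; rfl
    have hterm := pathTerm_toPath c x.1 x.2
    rw [← hpx] at hterm
    rw [hterm] at hp
    have hj : ∀ i, |x.1.1 i| ≤ (M : ℤ) := by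
      intro i
      by_contra hi
      push Not at hi
      apply hp
      have h0 : ∏ i, c (x.1.1 i) = 0 := Finset.prod_eq_zero (Finset.mem_univ i) (hM _ hi)
      rw [h0, mul_zero]
    have hn : |x.2| ≤ ((m + 1 : ℕ) : ℤ) * M := by
      by_contra hlt
      push Not at hlt
      apply hp
      have := prod_toPath_nonneg hm x.1.1 x.2 M (by positivity) hj hlt
      rw [← hpx] at this
      rw [abs_of_nonneg this, sub_self]
      simp
    have hb := abs_toPath_sub_le x.1.1 x.2 M (by positivity) hj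
    rw [← hpx] at hb
    have hbox : ∀ i, p i ∈ Finset.Icc (-(N : ℤ)) N := by
      intro i
      rw [Finset.mem_Icc, ← abs_le]
      have h5 := hb i
      have h6 : |p i| ≤ |p i - x.2| + |x.2| := by
        have := abs_add_le (p i - x.2) x.2
        rwa [sub_add_cancel] at this
      have h7 : (N : ℤ) = ((m + 1 : ℕ) : ℤ) * M + ((m + 1 : ℕ) : ℤ) * M := by
        rw [hN, hR]; push_cast; ring
      rw [h7]
      linarith
    exact ⟨fun i => ⟨p i, hbox i⟩, rfl⟩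
  rw [h1, h2, h3, ← h4, ← trace_diff]

lemma sum_comp_le' {α β : Type*} [DecidableEq β] (s : Finset α) (t : Finset β) (e : α → β)
    (he : Set.InjOn e s) (hmem : ∀ x ∈ s, e x ∈ t) (F : β → ℝ) (hF : ∀ y, 0 ≤ F y) :
    ∑ x ∈ s, F (e x) ≤ ∑ y ∈ t, F y := by
  rw [← Finset.sum_image he]
  refine Finset.sum_le_sum_of_subset_of_nonneg ?_ (fun y _ _ => hF y)
  intro y hy
  rw [Finset.mem_image] at hy
  obtain ⟨x, hx, rfl⟩ := hy
  exact hmem x hx

/-- The case `k = 1`. -/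
theorem trace_diff_lower_one (c : ℤ → ℂ) (hc : ∀ n, star (c n) = c (-n)) (M N : ℕ)
    (hN : M ≤ N) :
    (1 / 4 : ℝ) * ∑ n ∈ Finset.Icc 2 M, (n : ℝ) ^ 3 * ‖c n‖ ^ 2 ≤
      (trace ((symA c N) ^ 2)).re - (trace ((sgnH N * symA c N) ^ 2)).re := by
  have hA := symA_herm c hc N
  set A := symA c N with hAdef
  set s : Box N → ℝ := fun p => if (p : ℤ) < 0 then -1 else 1 with hs
  have hent : ∀ x y, (sgnH N * A) x y = (s x : ℂ) * A x y := by
    intro x y
    unfold sgnH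
    rw [diagonal_mul]
    simp only [hs]
    split_ifs <;> simp
  have e1 : (trace (A ^ 2)).re = ∑ x, ∑ y, ‖A x y‖ ^ 2 := by
    have h := trace_mul_conj_re A
    rw [hA.eq, ← pow_two] at h
    exact h
  have e2 : (trace ((sgnH N * A) ^ 2)).re = ∑ x, ∑ y, s x * s y * ‖A x y‖ ^ 2 := by
    rw [pow_two]
    simp only [trace, diag_apply, mul_apply (M := sgnH N * A), Complex.re_sum]
    refine Finset.sum_congr rfl fun x _ => Finset.sum_congr rfl fun y _ => ?_
    rw [hent, hent]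
    have : A y x = star (A x y) := by rw [hA.apply]
    rw [this, Complex.star_def]
    have h : (s x : ℂ) * A x y * ((s y : ℂ) * (starRingEnd ℂ) (A x y)) =
        ((s x * s y * ‖A x y‖ ^ 2 : ℝ) : ℂ) := by
      calc _ = (s x : ℂ) * (s y : ℂ) * (A x y * (starRingEnd ℂ) (A x y)) := by ring
        _ = _ := by
          rw [Complex.mul_conj, Complex.normSq_eq_norm_sq]; push_cast; ring
    rw [h, Complex.ofReal_re]
  rw [e1, e2, ← Finset.sum_sub_distrib]
  simp only [← Finset.sum_sub_distrib]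
  -- restrict to pairs (p, -q)
  have hmemp : ∀ p ∈ Finset.Icc (1 : ℤ) M, p ∈ Finset.Icc (-(N : ℤ)) N := by
    intro p hp
    rw [Finset.mem_Icc] at hp ⊢
    constructor <;> omega
  have hmemq : ∀ q ∈ Finset.Icc (1 : ℤ) M, -q ∈ Finset.Icc (-(N : ℤ)) N := by
    intro p hp
    rw [Finset.mem_Icc] at hp ⊢
    constructor <;> omega
  have hnn : ∀ x y : Box N, 0 ≤ ‖A x y‖ ^ 2 - s x * s y * ‖A x y‖ ^ 2 := by
    intro x y
    have : s x * s y ≤ 1 := by
      simp only [hs]; split_ifs <;> norm_num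
    nlinarith [sq_nonneg ‖A x y‖]
  have hsum : ∑ p ∈ Finset.Icc (1 : ℤ) M, ∑ q ∈ Finset.Icc (1 : ℤ) M,
      2 * ((p : ℝ) * q * ‖c (p + q)‖ ^ 2) ≤
      ∑ x, ∑ y, (‖A x y‖ ^ 2 - s x * s y * ‖A x y‖ ^ 2) := by
    rw [← Finset.sum_attach]
    have hin : ∀ p : {x // x ∈ Finset.Icc (1 : ℤ) M}, ∑ q ∈ Finset.Icc (1 : ℤ) M,
        2 * (((p : ℤ) : ℝ) * q * ‖c (p + q)‖ ^ 2) ≤
        ∑ y, (‖A ⟨p, hmemp p p.2⟩ y‖ ^ 2 - s ⟨p, hmemp p p.2⟩ * s y *
          ‖A ⟨p, hmemp p p.2⟩ y‖ ^ 2) := by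
      intro p
      rw [← Finset.sum_attach]
      refine le_trans (le_of_eq ?_) (sum_attach_le (Finset.Icc (1 : ℤ) M) Finset.univ
        (fun q => (⟨-q, hmemq q q.2⟩ : Box N)) (fun x y h => Subtype.ext (by simpa using h))
        (fun _ => Finset.mem_univ _) (fun y => (‖A ⟨p, hmemp p p.2⟩ y‖ ^ 2 -
          s ⟨p, hmemp p p.2⟩ * s y * ‖A ⟨p, hmemp p p.2⟩ y‖ ^ 2)) (fun y => hnn _ _))
      refine Finset.sum_congr rfl fun q _ => ?_
      have hp := p.2
      have hq := q.2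
      rw [Finset.mem_Icc] at hp hq
      have hp0 : (0 : ℤ) ≤ (p : ℤ) := by omega
      have hq0 : (0 : ℤ) ≤ (q : ℤ) := by omega
      have hs1 : s ⟨p, hmemp p p.2⟩ = 1 := by
        simp only [hs]; rw [if_neg (by omega)]
      have hs2 : s ⟨-q, hmemq q q.2⟩ = -1 := by
        simp only [hs]; rw [if_pos (by omega)]
      rw [hs1, hs2]
      have hA2 : ‖A ⟨p, hmemp p p.2⟩ ⟨-q, hmemq q q.2⟩‖ ^ 2 =
          ((p : ℤ) : ℝ) * ((q : ℤ) : ℝ) * ‖c (p + q)‖ ^ 2 := by
        rw [hAdef]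
        simp only [symA, of_apply]
        rw [norm_mul, norm_mul, Complex.norm_real, Complex.norm_real,
          Real.norm_of_nonneg (Real.sqrt_nonneg _), Real.norm_of_nonneg (Real.sqrt_nonneg _)]
        simp only [mul_pow]
        rw [Real.sq_sqrt (abs_nonneg _), Real.sq_sqrt (abs_nonneg _)]
        have n1 : ‖c (-(q : ℤ) - (p : ℤ))‖ = ‖c (p + q)‖ := by
          rw [show -(q : ℤ) - (p : ℤ) = -((p : ℤ) + q) by ring, ← hc, norm_star]
        rw [n1]
        push_cast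
        rw [abs_neg, abs_of_nonneg (by exact_mod_cast hp0 : (0 : ℝ) ≤ ((p : ℤ) : ℝ)),
          abs_of_nonneg (by exact_mod_cast hq0 : (0 : ℝ) ≤ ((q : ℤ) : ℝ))]
        ring
      rw [hA2]
      ring
    refine (Finset.sum_le_sum fun p _ => hin p).trans ?_
    exact sum_attach_le (Finset.Icc (1 : ℤ) M) Finset.univ
      (fun p => (⟨p, hmemp p p.2⟩ : Box N)) (fun x y h => Subtype.ext (by simpa using h))
      (fun _ => Finset.mem_univ _) (fun x => ∑ y, (‖A x y‖ ^ 2 - s x * s y * ‖A x y‖ ^ 2))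
      (fun x => Finset.sum_nonneg fun y _ => hnn x y)
  refine le_trans ?_ hsum
  -- the sum over p + q = n
  have hlow : ∑ x ∈ (Finset.Icc 2 M).sigma (fun n => Finset.Icc 1 (n - 1)),
      2 * ((x.2 : ℝ) * ((x.1 : ℝ) - x.2) * ‖c x.1‖ ^ 2) ≤
      ∑ p ∈ Finset.Icc (1 : ℤ) M, ∑ q ∈ Finset.Icc (1 : ℤ) M,
      2 * ((p : ℝ) * q * ‖c (p + q)‖ ^ 2) := by
    rw [← Finset.sum_product']
    have hF : ∀ x ∈ (Finset.Icc 2 M).sigma (fun n => Finset.Icc 1 (n - 1)),
        2 * ((x.2 : ℝ) * ((x.1 : ℝ) - x.2) * ‖c x.1‖ ^ 2) =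
        (fun y : ℤ × ℤ => |2 * ((y.1 : ℝ) * y.2 * ‖c (y.1 + y.2)‖ ^ 2)|)
          ((fun x : (_ : ℕ) × ℕ => ((x.2 : ℤ), ((x.1 : ℤ) - x.2))) x) := by
      rintro ⟨n, p⟩ hx
      rw [Finset.mem_sigma, Finset.mem_Icc, Finset.mem_Icc] at hx
      simp only at hx ⊢
      have h1 : (0 : ℝ) ≤ p := Nat.cast_nonneg p
      have h2 : (0 : ℝ) ≤ (n : ℝ) - p := by
        have : p ≤ n := by omega
        have : (p : ℝ) ≤ n := by exact_mod_cast this
        linarith
      push_cast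
      rw [show (p : ℤ) + ((n : ℤ) - p) = n by ring, abs_of_nonneg (by positivity)]
    rw [Finset.sum_congr rfl hF]
    refine le_trans (sum_comp_le' ((Finset.Icc 2 M).sigma (fun n => Finset.Icc 1 (n - 1)))
      ((Finset.Icc (1 : ℤ) M) ×ˢ (Finset.Icc (1 : ℤ) M))
      (fun x : (_ : ℕ) × ℕ => ((x.2 : ℤ), ((x.1 : ℤ) - x.2))) ?_ ?_
      (fun y : ℤ × ℤ => |2 * ((y.1 : ℝ) * y.2 * ‖c (y.1 + y.2)‖ ^ 2)|) ?_)
      (le_of_eq ?_)
    · rintro ⟨n, p⟩ _ ⟨n', p'⟩ _ h
      simp only [Prod.mk.injEq] at h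
      have h1 : p = p' := by omega
      have h2 : n = n' := by omega
      subst h1; subst h2; rfl
    · rintro ⟨n, p⟩ hx
      rw [Finset.mem_sigma, Finset.mem_Icc, Finset.mem_Icc] at hx
      rw [Finset.mem_product, Finset.mem_Icc, Finset.mem_Icc]
      simp only at hx ⊢
      omega
    · intro y
      exact abs_nonneg _
    · refine Finset.sum_congr rfl fun y hy => ?_
      rw [Finset.mem_product, Finset.mem_Icc, Finset.mem_Icc] at hy
      have h1 : (0 : ℝ) ≤ (y.1 : ℝ) := by exact_mod_cast (by omega : (0 : ℤ) ≤ y.1)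
      have h2 : (0 : ℝ) ≤ (y.2 : ℝ) := by exact_mod_cast (by omega : (0 : ℤ) ≤ y.2)
      exact abs_of_nonneg (by positivity)
  refine le_trans ?_ hlow
  rw [Finset.sum_sigma, Finset.mul_sum]
  refine Finset.sum_le_sum fun n hn => ?_
  rw [Finset.mem_Icc] at hn
  have hgen : ∀ (m : ℕ) (x : ℝ), ∑ p ∈ Finset.range m, ((p : ℝ) * (x - p)) =
      x * (m * (m - 1) / 2) - (m - 1) * m * (2 * m - 1) / 6 := by
    intro m x
    induction m with
    | zero => simp
    | succ m ih => rw [Finset.sum_range_succ, ih]; push_cast; ring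
  have hS : ∑ p ∈ Finset.Icc 1 (n - 1), ((p : ℝ) * ((n : ℝ) - p)) = ((n : ℝ) ^ 3 - n) / 6 := by
    have h1 : Finset.range n = insert 0 (Finset.Icc 1 (n - 1)) := by
      ext p
      rw [Finset.mem_range, Finset.mem_insert, Finset.mem_Icc]
      omega
    have h2 := hgen n n
    rw [h1, Finset.sum_insert (by simp)] at h2
    simp only [Nat.cast_zero, zero_mul, zero_add] at h2
    rw [h2]; ring
  have hS2 : ∑ p ∈ Finset.Icc 1 (n - 1), 2 * ((p : ℝ) * ((n : ℝ) - p) * ‖c (n : ℤ)‖ ^ 2) =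
      2 * (((n : ℝ) ^ 3 - n) / 6) * ‖c (n : ℤ)‖ ^ 2 := by
    rw [← hS, Finset.mul_sum, Finset.sum_mul]
    exact Finset.sum_congr rfl fun p _ => by ring
  rw [hS2]
  have hn2 : (2 : ℝ) ≤ n := by exact_mod_cast hn.1
  have h3 : (1 / 4 : ℝ) * (n : ℝ) ^ 3 ≤ 2 * (((n : ℝ) ^ 3 - n) / 6) := by nlinarith [sq_nonneg ((n : ℝ) - 2), mul_nonneg (show (0:ℝ) ≤ (n : ℝ) - 2 by linarith) (show (0:ℝ) ≤ (n : ℝ) by linarith)]
  calc (1 / 4 : ℝ) * ((n : ℝ) ^ 3 * ‖c (n : ℤ)‖ ^ 2) = ((1 / 4 : ℝ) * (n : ℝ) ^ 3) *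
        ‖c (n : ℤ)‖ ^ 2 := by ring
    _ ≤ _ := mul_le_mul_of_nonneg_right h3 (by positivity)

/-- The lower bound in finite form, for all exponents `k ≥ 1`. -/
theorem trace_diff_lower_all (k : ℕ) (hk : 1 ≤ k) : ∃ C : ℝ, 0 < C ∧
    ∀ (c : ℤ → ℂ) (_ : ∀ n, star (c n) = c (-n)) (M : ℕ)
      (_ : ∀ n : ℤ, (M : ℤ) < |n| → c n = 0),
      C * ∑ n ∈ Finset.Icc 2 M, (n : ℝ) ^ (2 * k + 1) * ‖c n‖ ^ (2 * k) ≤
        (trace ((symA c (2 * (2 * k * M))) ^ (2 * k))).re -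
          (trace ((sgnH (2 * (2 * k * M)) * symA c (2 * (2 * k * M))) ^ (2 * k))).re := by
  rcases Nat.lt_or_ge k 2 with h | h
  · have hk1 : k = 1 := by omega
    subst hk1
    refine ⟨1 / 4, by norm_num, ?_⟩
    intro c hc M _
    exact trace_diff_lower_one c hc M (2 * (2 * 1 * M)) (by omega)
  · obtain ⟨a, rfl⟩ : ∃ a, k = a + 2 := ⟨k - 2, by omega⟩
    obtain ⟨C, hC, hall⟩ := trace_diff_lower_bound a
    refine ⟨C, hC, ?_⟩
    intro c hc M hM
    refine hall c hc M (2 * (2 * (a + 2) * M)) hM ?_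
    have : 4 * M ≤ 2 * (a + 2) * M := Nat.mul_le_mul_right M (by omega)
    omega

end Pool.Agent.H654R3
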