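import Pool.Agent.H654R3.Smooth
import Pool.Agent.H654R3.ZetaEq

set_option autoImplicit false

/-!
Absolute convergence of the zeta-invariant series and the lower bound for smooth functions.
-/

namespace Pool.Agent.H654R3

open Matrix

/-- The multiplier `N_j`. -/
noncomputable def multN {m : ℕ} (j : Fin m → ℤ) : ℤ :=
  ∑ᶠ n : ℤ, (|∏ i, toPath j n i| - ∏ i, toPath j n i)

lemma multN_bound {m : ℕ} (hm : Even m) (j : Fin m → ℤ) :
    |((multN j : ℤ) : ℝ)| ≤ 2 * (2 * m + 1 : ℝ) ^ (m + 1) *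
      ∏ i, (1 + |((j i : ℤ) : ℝ)|) ^ (m + 1) := by
  set M : ℕ := (∑ i, |j i|).toNat with hMdef
  have hMval : (M : ℤ) = ∑ i, |j i| :=
    Int.toNat_of_nonneg (Finset.sum_nonneg fun i _ => abs_nonneg _)
  have hj : ∀ i, |j i| ≤ (M : ℤ) := by
    intro i
    rw [hMval]
    exact Finset.single_le_sum (fun i _ => abs_nonneg (j i)) (Finset.mem_univ i)
  have hbox := finsum_eq_box hm j hj
  have hterm : ∀ n ∈ Finset.Icc (-((m * M : ℕ) : ℤ)) ((m * M : ℕ) : ℤ),
      |((|∏ i, toPath j n i| - ∏ i, toPath j n i : ℤ) : ℝ)| ≤ 2 * (2 * (m * M) : ℝ) ^ m := by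
    intro n hn
    rw [Finset.mem_Icc, ← abs_le] at hn
    have h1 : |∏ i, toPath j n i| ≤ (2 * (m * M) : ℤ) ^ m := by
      rw [Finset.abs_prod]
      calc ∏ i, |toPath j n i| ≤ ∏ _i : Fin m, (2 * (m * M) : ℤ) := by
            refine Finset.prod_le_prod (fun i _ => abs_nonneg _) (fun i _ => ?_)
            have h2 := abs_toPath_sub_le j n M (by positivity) hj i
            have h3 : |toPath j n i| ≤ |toPath j n i - n| + |n| := by
              have := abs_add_le (toPath j n i - n) n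
              rwa [sub_add_cancel] at this
            push_cast at hn
            linarith
        _ = (2 * (m * M) : ℤ) ^ m := by simp
    have h4 : |(|∏ i, toPath j n i| - ∏ i, toPath j n i)| ≤ 2 * (2 * (m * M) : ℤ) ^ m := by
      have h5 := le_abs_self (∏ i, toPath j n i)
      have h6 := neg_abs_le (∏ i, toPath j n i)
      rw [abs_of_nonneg (by linarith)]
      linarith
    rw [← Int.cast_abs]
    exact_mod_cast h4
  have hsum : |((multN j : ℤ) : ℝ)| ≤ (2 * (m * M) + 1 : ℝ) * (2 * (2 * (m * M) : ℝ) ^ m) := by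
    unfold multN
    rw [hbox]
    push_cast
    refine (Finset.abs_sum_le_sum_abs _ _).trans ?_
    have h7 := Finset.sum_le_sum hterm
    push_cast at h7
    refine h7.trans (le_of_eq ?_)
    rw [Finset.sum_const, nsmul_eq_mul, Int.card_Icc]
    congr 1
    have h8 : (((m * M : ℕ) : ℤ) + 1 - -((m * M : ℕ) : ℤ)).toNat = 2 * (m * M) + 1 := by omega
    push_cast at h8
    rw [h8]
    push_cast; ring
  have hMr : (M : ℝ) = ∑ i, |((j i : ℤ) : ℝ)| := by
    have : ((M : ℤ) : ℝ) = ((∑ i, |j i| : ℤ) : ℝ) := by rw [hMval]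
    push_cast at this
    exact this
  have hprod : 1 + (M : ℝ) ≤ ∏ i, (1 + |((j i : ℤ) : ℝ)|) := by
    rw [hMr]
    exact one_add_sum_le_prod Finset.univ _ (fun i => abs_nonneg _)
  have hM0 : (0 : ℝ) ≤ M := Nat.cast_nonneg M
  have hm0 : (0 : ℝ) ≤ m := Nat.cast_nonneg m
  have h9 : (2 * (m * M) + 1 : ℝ) ≤ (2 * m + 1) * (1 + M) := by nlinarith [mul_nonneg hm0 hM0]
  have h10 : (2 * (m * M) : ℝ) ≤ (2 * m + 1) * (1 + M) := by linarith
  calc |((multN j : ℤ) : ℝ)| ≤ (2 * (m * M) + 1 : ℝ) * (2 * (2 * (m * M) : ℝ) ^ m) := hsum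
    _ ≤ ((2 * m + 1) * (1 + M)) * (2 * ((2 * m + 1) * (1 + M) : ℝ) ^ m) := by
        apply mul_le_mul h9 _ (by positivity) (by positivity)
        apply mul_le_mul_of_nonneg_left _ (by norm_num)
        exact pow_le_pow_left₀ (by positivity) h10 m
    _ = 2 * (2 * m + 1 : ℝ) ^ (m + 1) * (1 + (M : ℝ)) ^ (m + 1) := by
        rw [mul_pow, pow_succ, pow_succ]; ring
    _ ≤ 2 * (2 * m + 1 : ℝ) ^ (m + 1) * (∏ i, (1 + |((j i : ℤ) : ℝ)|)) ^ (m + 1) := by
        apply mul_le_mul_of_nonneg_left _ (by positivity)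
        exact pow_le_pow_left₀ (by positivity) hprod _
    _ = _ := by rw [Finset.prod_pow]

/-- The general term of the zeta-invariant. -/
noncomputable def zterm {m : ℕ} (a : ℝ → ℝ) (j : {j : Fin m → ℤ // ∑ i, j i = 0}) : ℂ :=
  ((multN j.1 : ℤ) : ℂ) * ∏ i, fourC a (j.1 i)

lemma summable_zterm {m : ℕ} (hm : Even m) (a : ℝ → ℝ) (ha : ContDiff ℝ (⊤ : ℕ∞) a)
    (hp : Function.Periodic a (2 * Real.pi)) : Summable fun j => ‖zterm (m := m) a j‖ := by
  have h1 := summable_fourC a ha hp (m + 1)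
  have h2 := summable_pi_prod _ (fun n => by positivity) h1 m
  have h3 := (h2.mul_left (2 * (2 * m + 1 : ℝ) ^ (m + 1))).comp_injective
    (Subtype.val_injective (p := fun j : Fin m → ℤ => ∑ i, j i = 0))
  refine Summable.of_nonneg_of_le (fun j => norm_nonneg _) (fun j => ?_) h3
  unfold zterm
  rw [norm_mul, Complex.norm_intCast, norm_prod]
  have h4 := multN_bound hm j.1
  calc |((multN j.1 : ℤ) : ℝ)| * ∏ i, ‖fourC a (j.1 i)‖
      ≤ (2 * (2 * m + 1 : ℝ) ^ (m + 1) * ∏ i, (1 + |((j.1 i : ℤ) : ℝ)|) ^ (m + 1)) *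
        ∏ i, ‖fourC a (j.1 i)‖ := mul_le_mul_of_nonneg_right h4 (by positivity)
    _ = _ := by
        simp only [Function.comp]
        rw [mul_assoc, ← Finset.prod_mul_distrib]

open scoped ComplexOrder in
/-- The lower bound for smooth functions. -/
theorem final_bound (k : ℕ) (hk : 1 ≤ k) : ∃ C : ℝ, 0 < C ∧ ∀ a : ℝ → ℝ,
    ContDiff ℝ (⊤ : ℕ∞) a → Function.Periodic a (2 * Real.pi) →
    (∑' j : {j : Fin (2 * k) → ℤ // ∑ i, j i = 0}, zterm a j).im = 0 ∧
    ∀ M : ℕ, C * ∑ n ∈ Finset.Icc 2 M, (n : ℝ) ^ (2 * k + 1) * ‖fourC a n‖ ^ (2 * k) ≤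
      (∑' j : {j : Fin (2 * k) → ℤ // ∑ i, j i = 0}, zterm a j).re := by
  obtain ⟨C, hC, hall⟩ := trace_diff_lower_all k hk
  refine ⟨C, hC, ?_⟩
  intro a ha hp
  obtain ⟨m, hm⟩ : ∃ m, 2 * k = m + 1 := ⟨2 * k - 1, by omega⟩
  have hev : Even (m + 1) := ⟨k, by omega⟩
  rw [hm] at hall ⊢
  constructor
  · have h := zeta_tsum_nonneg (fourC a) (fourC_star a) m hev
    exact (Complex.nonneg_iff.mp h).2.symm
  intro M
  have hs : Summable fun j : {j : Fin (m + 1) → ℤ // ∑ i, j i = 0} => zterm a j :=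
    (summable_zterm hev a ha hp).of_norm
  have hmono : Monotone (incBox m) := by
    intro M M' hMM' j hj
    rw [mem_incBox] at hj ⊢
    intro i
    exact (hj i).trans (by exact_mod_cast hMM')
  have htend : Filter.Tendsto (incBox m) Filter.atTop Filter.atTop := by
    refine Filter.tendsto_atTop_finset_of_monotone hmono fun j => ?_
    refine ⟨(∑ i, |j.1 i|).toNat, ?_⟩
    rw [mem_incBox]
    intro i
    have h1 : |j.1 i| ≤ ∑ i, |j.1 i| :=
      Finset.single_le_sum (fun i _ => abs_nonneg (j.1 i)) (Finset.mem_univ i)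
    exact h1.trans (Int.self_le_toNat _)
  have hlim : Filter.Tendsto (fun K => ∑ j ∈ incBox m K, zterm a j) Filter.atTop
      (nhds (∑' j : {j : Fin (m + 1) → ℤ // ∑ i, j i = 0}, zterm a j)) :=
    hs.hasSum.comp htend
  have hlim2 := (Complex.continuous_re.tendsto _).comp hlim
  refine ge_of_tendsto hlim2 ?_
  filter_upwards [Filter.eventually_ge_atTop M] with K hK
  simp only [Function.comp]
  set c : ℤ → ℂ := fun n => if |n| ≤ (K : ℤ) then fourC a n else 0 with hcdef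
  have hcs : ∀ n, star (c n) = c (-n) := by
    intro n
    simp only [hcdef, abs_neg]
    split_ifs
    · exact fourC_star a n
    · simp
  have hcM : ∀ n : ℤ, (K : ℤ) < |n| → c n = 0 := by
    intro n hn
    simp only [hcdef]
    rw [if_neg (not_le.mpr hn)]
  have heq := zeta_trig_eq c K m hcM hev
  have hpart : ∑ j ∈ incBox m K, zterm a j = ∑ j ∈ incBox m K,
      ((∑ᶠ n : ℤ, (|∏ i, toPath j.1 n i| - ∏ i, toPath j.1 n i) : ℤ) : ℂ) *
        ∏ i, c (j.1 i) := by
    refine Finset.sum_congr rfl fun j hj => ?_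
    unfold zterm multN
    congr 1
    refine Finset.prod_congr rfl fun i _ => ?_
    simp only [hcdef]
    rw [if_pos ((mem_incBox j).mp hj i)]
  rw [hpart, heq, Complex.sub_re]
  refine le_trans ?_ (hall c hcs K hcM)
  apply mul_le_mul_of_nonneg_left _ hC.le
  have hstep : ∑ n ∈ Finset.Icc 2 M, (n : ℝ) ^ (m + 1 + 1) * ‖fourC a n‖ ^ (m + 1) =
      ∑ n ∈ Finset.Icc 2 M, (n : ℝ) ^ (m + 1 + 1) * ‖c n‖ ^ (m + 1) := by
    refine Finset.sum_congr rfl fun n hn => ?_
    rw [Finset.mem_Icc] at hn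
    simp only [hcdef]
    rw [if_pos (by rw [abs_of_nonneg (by positivity)]; exact_mod_cast hn.2.trans hK)]
  rw [hstep]
  refine Finset.sum_le_sum_of_subset_of_nonneg ?_ (fun _ _ _ => by positivity)
  intro n hn
  rw [Finset.mem_Icc] at hn ⊢
  exact ⟨hn.1, hn.2.trans hK⟩

end Pool.Agent.H654R3
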