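import Mathlib

set_option autoImplicit false

/-!
The second difference identity for `∑ |r| c(p-r) c(q+r)` and the resulting block lower bound.
-/

namespace Pool.Agent.H654R3

/-- `∑_r |r| c(p-r) c(q+r)`. -/
noncomputable def gf (c : ℤ → ℂ) (p q : ℤ) : ℂ :=
  ∑' r : ℤ, ((|r| : ℤ) : ℂ) * (c (p - r) * c (q + r))

lemma summable_aux (c : ℤ → ℂ) (M : ℕ) (hM : ∀ n : ℤ, (M : ℤ) < |n| → c n = 0)
    (f : ℤ → ℂ) (p q : ℤ) : Summable fun r : ℤ => f r * (c (p - r) * c (q + r)) := by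
  apply summable_of_finite_support
  apply Set.Finite.subset (Finset.finite_toSet (Finset.Icc (p - M) (p + M)))
  intro r hr
  rw [Function.mem_support] at hr
  simp only [Finset.coe_Icc, Set.mem_Icc]
  by_contra hlt
  apply hr
  have : (M : ℤ) < |p - r| := by
    rw [lt_abs]
    by_contra h
    push Not at h
    apply hlt
    constructor <;> linarith [h.1, h.2]
  rw [hM _ this]
  ring

lemma gf_second_diff (c : ℤ → ℂ) (M : ℕ) (hM : ∀ n : ℤ, (M : ℤ) < |n| → c n = 0) (p q : ℤ) :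
    gf c (p + 1) (q - 1) + gf c (p - 1) (q + 1) - 2 * gf c p q = 2 * (c p * c q) := by
  have h1 : gf c (p + 1) (q - 1) = ∑' r : ℤ, ((|r + 1| : ℤ) : ℂ) * (c (p - r) * c (q + r)) := by
    unfold gf
    rw [← (Equiv.addRight (1 : ℤ)).tsum_eq]
    refine tsum_congr fun r => ?_
    simp only [Equiv.coe_addRight]
    rw [show p + 1 - (r + 1) = p - r by ring, show q - 1 + (r + 1) = q + r by ring]
  have h2 : gf c (p - 1) (q + 1) = ∑' r : ℤ, ((|r - 1| : ℤ) : ℂ) * (c (p - r) * c (q + r)) := by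
    unfold gf
    rw [← (Equiv.subRight (1 : ℤ)).tsum_eq]
    refine tsum_congr fun r => ?_
    simp only [Equiv.subRight_apply]
    rw [show p - 1 - (r - 1) = p - r by ring, show q + 1 + (r - 1) = q + r by ring]
  have s0 := summable_aux c M hM (fun r => ((|r| : ℤ) : ℂ)) p q
  have s1 := summable_aux c M hM (fun r => ((|r + 1| : ℤ) : ℂ)) p q
  have s2 := summable_aux c M hM (fun r => ((|r - 1| : ℤ) : ℂ)) p q
  rw [h1, h2]
  unfold gf
  rw [← tsum_mul_left, ← s1.tsum_add s2, ← (s1.add s2).tsum_sub (s0.mul_left 2)]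
  rw [tsum_eq_single (0 : ℤ)]
  · simp; ring
  · intro r hr
    have : |r + 1| + |r - 1| - 2 * |r| = 0 := by
      rcases lt_or_gt_of_ne hr with h | h
      · rw [abs_of_nonpos (by omega : r + 1 ≤ 0), abs_of_neg (by omega : r - 1 < 0), abs_of_neg h]
        ring
      · rw [abs_of_pos (by omega : 0 < r + 1), abs_of_nonneg (by omega : 0 ≤ r - 1), abs_of_pos h]
        ring
    have h3 : ((|r + 1| : ℤ) : ℂ) + ((|r - 1| : ℤ) : ℂ) - 2 * ((|r| : ℤ) : ℂ) = 0 := by
      exact_mod_cast this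
    linear_combination (c (p - r) * c (q + r)) * h3

/-- Summation by parts against a finitely supported weight. -/
lemma sum_by_parts (g W : ℤ → ℂ) (a b : ℤ) (hW : ∀ p, W p ≠ 0 → p ∈ Finset.Icc a b) :
    ∑' p : ℤ, W p * (g (p + 1) + g (p - 1) - 2 * g p) =
      ∑' p : ℤ, g p * (W (p + 1) + W (p - 1) - 2 * W p) := by
  have fin : ∀ (f : ℤ → ℂ) (d : ℤ), Summable fun p : ℤ => f p * W (p + d) := by
    intro f d
    apply summable_of_finite_support
    apply Set.Finite.subset (Finset.finite_toSet (Finset.Icc (a - d) (b - d)))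
    intro p hp
    rw [Function.mem_support] at hp
    have := hW (p + d) (fun h => hp (by rw [h, mul_zero]))
    rw [Finset.mem_Icc] at this
    simp only [Finset.coe_Icc, Set.mem_Icc]
    constructor <;> linarith [this.1, this.2]
  have t1 := fin (fun p => g (p + 1)) 0
  have t2 := fin (fun p => g (p - 1)) 0
  have t3 := fin (fun p => g p) 0
  have u1 := fin (fun p => g p) (1 : ℤ)
  have u2 := fin (fun p => g p) (-1 : ℤ)
  simp only [add_zero] at t1 t2 t3
  have e1 : ∑' p : ℤ, g (p + 1) * W p = ∑' p : ℤ, g p * W (p + (-1)) := by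
    rw [← (Equiv.addRight (-1 : ℤ)).tsum_eq (fun p => g (p + 1) * W p)]
    refine tsum_congr fun p => ?_
    simp only [Equiv.coe_addRight]
    rw [show p + -1 + 1 = p by ring]
  have e2 : ∑' p : ℤ, g (p - 1) * W p = ∑' p : ℤ, g p * W (p + 1) := by
    rw [← (Equiv.addRight (1 : ℤ)).tsum_eq (fun p => g (p - 1) * W p)]
    refine tsum_congr fun p => ?_
    simp only [Equiv.coe_addRight]
    rw [show p + 1 - 1 = p by ring]
  calc ∑' p : ℤ, W p * (g (p + 1) + g (p - 1) - 2 * g p)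
      = ∑' p : ℤ, (g (p + 1) * W p + g (p - 1) * W p - 2 * (g p * W p)) :=
        tsum_congr fun p => by ring
    _ = ∑' p : ℤ, g p * W (p + (-1)) + ∑' p : ℤ, g p * W (p + 1) - 2 * ∑' p, (g p * W p) := by
        rw [(t1.add t2).tsum_sub (t3.mul_left 2), t1.tsum_add t2, e1, e2, tsum_mul_left]
    _ = ∑' p : ℤ, (g p * W (p + (-1)) + g p * W (p + 1) - 2 * (g p * W p)) := by
        rw [(u2.add u1).tsum_sub (t3.mul_left 2), u2.tsum_add u1, tsum_mul_left]
    _ = _ := tsum_congr fun p => by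
        rw [show p + -1 = p - 1 by ring]; ring

/-- Squared positive part. -/
noncomputable def ph (t : ℝ) : ℝ := (max t 0) ^ 2

lemma ph_nonneg (t : ℝ) : 0 ≤ ph t := by unfold ph; positivity

lemma ph_eq_zero {t : ℝ} (ht : t ≤ 0) : ph t = 0 := by
  unfold ph; rw [max_eq_right ht]; norm_num

lemma ph_le {t K : ℝ} (hK : 0 ≤ K) (ht : t ≤ K) : |ph t| ≤ K ^ 2 := by
  rw [abs_of_nonneg (ph_nonneg t)]
  unfold ph
  exact pow_le_pow_left₀ (le_max_right _ _) (max_le ht hK) 2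

lemma ph_diff {s t K : ℝ} (hK : 0 ≤ K) (hs : s ≤ K) (ht : t ≤ K) (hst : |s - t| ≤ 1) :
    |ph s - ph t| ≤ 2 * K := by
  unfold ph
  have h1 : |max s 0 - max t 0| ≤ 1 := (abs_max_sub_max_le_abs s t 0).trans hst
  have h2 : 0 ≤ max s 0 := le_max_right _ _
  have h3 : 0 ≤ max t 0 := le_max_right _ _
  have h4 : max s 0 ≤ K := max_le hs hK
  have h5 : max t 0 ≤ K := max_le ht hK
  have e : max s 0 ^ 2 - max t 0 ^ 2 = (max s 0 - max t 0) * (max s 0 + max t 0) := by ring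
  rw [e, abs_mul, abs_of_nonneg (by linarith : 0 ≤ max s 0 + max t 0)]
  calc |max s 0 - max t 0| * (max s 0 + max t 0) ≤ 1 * (max s 0 + max t 0) :=
        mul_le_mul_of_nonneg_right h1 (by linarith)
    _ ≤ 2 * K := by linarith

lemma ph_second (t : ℝ) : |ph (t + 1) + ph (t - 1) - 2 * ph t| ≤ 2 := by
  unfold ph
  rcases le_or_gt t (-1) with h | h
  · rw [max_eq_right (by linarith : t + 1 ≤ 0), max_eq_right (by linarith : t - 1 ≤ 0),
      max_eq_right (by linarith : t ≤ 0)]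
    norm_num
  rcases le_or_gt t 0 with h' | h'
  · rw [max_eq_left (by linarith : 0 ≤ t + 1), max_eq_right (by linarith : t - 1 ≤ 0),
      max_eq_right h']
    rw [abs_le]; constructor <;> nlinarith
  rcases le_or_gt t 1 with h'' | h''
  · rw [max_eq_left (by linarith : 0 ≤ t + 1), max_eq_right (by linarith : t - 1 ≤ 0),
      max_eq_left h'.le]
    rw [abs_le]; constructor <;> nlinarith
  · rw [max_eq_left (by linarith : 0 ≤ t + 1), max_eq_left (by linarith : 0 ≤ t - 1),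
      max_eq_left h'.le]
    rw [abs_le]; constructor <;> nlinarith

/-- Bounds for three consecutive values. -/
structure Bd3 (x y z A0 A1 A2 : ℝ) : Prop where
  a0 : |y| ≤ A0
  a1 : |x| ≤ A0
  a2 : |z| ≤ A0
  b1 : |x - y| ≤ A1
  b2 : |z - y| ≤ A1
  c0 : |z + x - 2 * y| ≤ A2

lemma Bd3.mul {x y z A0 A1 A2 x' y' z' B0 B1 B2 : ℝ} (h : Bd3 x y z A0 A1 A2)
    (h' : Bd3 x' y' z' B0 B1 B2) :
    Bd3 (x * x') (y * y') (z * z') (A0 * B0) (A0 * B1 + A1 * B0)
      (A0 * B2 + A2 * B0 + 2 * (A1 * B1)) := by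
  have hA0 : 0 ≤ A0 := (abs_nonneg _).trans h.a0
  have hA1 : 0 ≤ A1 := (abs_nonneg _).trans h.b1
  have hA2 : 0 ≤ A2 := (abs_nonneg _).trans h.c0
  have hB0 : 0 ≤ B0 := (abs_nonneg _).trans h'.a0
  have hB1 : 0 ≤ B1 := (abs_nonneg _).trans h'.b1
  refine ⟨?_, ?_, ?_, ?_, ?_, ?_⟩
  · rw [abs_mul]; exact mul_le_mul h.a0 h'.a0 (abs_nonneg _) hA0
  · rw [abs_mul]; exact mul_le_mul h.a1 h'.a1 (abs_nonneg _) hA0
  · rw [abs_mul]; exact mul_le_mul h.a2 h'.a2 (abs_nonneg _) hA0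
  · rw [show x * x' - y * y' = x * (x' - y') + (x - y) * y' by ring]
    refine (abs_add_le _ _).trans ?_
    rw [abs_mul, abs_mul]
    exact add_le_add (mul_le_mul h.a1 h'.b1 (abs_nonneg _) hA0)
      (mul_le_mul h.b1 h'.a0 (abs_nonneg _) hA1)
  · rw [show z * z' - y * y' = z * (z' - y') + (z - y) * y' by ring]
    refine (abs_add_le _ _).trans ?_
    rw [abs_mul, abs_mul]
    exact add_le_add (mul_le_mul h.a2 h'.b2 (abs_nonneg _) hA0)
      (mul_le_mul h.b2 h'.a0 (abs_nonneg _) hA1)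
  · rw [show z * z' + x * x' - 2 * (y * y') = y * (z' + x' - 2 * y') +
      (z + x - 2 * y) * y' + ((z - y) * (z' - y') + (x - y) * (x' - y')) by ring]
    refine (abs_add_le _ _).trans (add_le_add ((abs_add_le _ _).trans ?_) ?_)
    · rw [abs_mul, abs_mul]
      exact add_le_add (mul_le_mul h.a0 h'.c0 (abs_nonneg _) hA0)
        (mul_le_mul h.c0 h'.a0 (abs_nonneg _) hA2)
    · refine (abs_add_le _ _).trans ?_
      rw [abs_mul, abs_mul, two_mul]
      exact add_le_add (mul_le_mul h.b2 h'.b2 (abs_nonneg _) hA1)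
        (mul_le_mul h.b1 h'.b1 (abs_nonneg _) hA1)

lemma ph_bd {t K : ℝ} (ht : |t| + 1 ≤ K) :
    Bd3 (ph (t - 1)) (ph t) (ph (t + 1)) (K ^ 2) (2 * K) 2 := by
  have h0 := abs_le.mp (le_refl |t|)
  have hK : 0 ≤ K := by linarith [abs_nonneg t]
  refine ⟨ph_le hK (by linarith), ph_le hK (by linarith), ph_le hK (by linarith),
    ph_diff hK (by linarith) (by linarith) ?_, ph_diff hK (by linarith) (by linarith) ?_,
    ph_second t⟩
  · rw [show t - 1 - t = -1 by ring]; norm_num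
  · rw [show t + 1 - t = 1 by ring]; norm_num

lemma ph_bd' {t K : ℝ} (ht : |t| + 1 ≤ K) :
    Bd3 (ph (t + 1)) (ph t) (ph (t - 1)) (K ^ 2) (2 * K) 2 := by
  have h := ph_bd ht
  exact ⟨h.a0, h.a2, h.a1, h.b2, h.b1, by rw [add_comm (ph (t - 1))]; exact h.c0⟩

/-- The window. -/
noncomputable def wind (L : ℕ) (p : ℤ) : ℝ := ph ((p : ℝ) - L) * ph (5 * L - p)

lemma wind_eq_zero (L : ℕ) (p : ℤ) (h : p ≤ L ∨ 5 * L ≤ p) : wind L p = 0 := by
  unfold wind
  rcases h with h | h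
  · rw [ph_eq_zero (by have : (p : ℝ) ≤ L := by exact_mod_cast h
                       linarith), zero_mul]
  · rw [ph_eq_zero (t := 5 * (L : ℝ) - p) (by
      have : 5 * (L : ℝ) ≤ p := by exact_mod_cast h
      linarith), mul_zero]

lemma wind_nonneg (L : ℕ) (p : ℤ) : 0 ≤ wind L p := mul_nonneg (ph_nonneg _) (ph_nonneg _)

lemma wind_ge (L : ℕ) (p : ℤ) (h1 : 2 * L ≤ p) (h2 : p ≤ 4 * L) :
    (L : ℝ) ^ 4 ≤ wind L p := by
  unfold wind ph
  have h1' : 2 * (L : ℝ) ≤ p := by exact_mod_cast h1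
  have h2' : (p : ℝ) ≤ 4 * L := by exact_mod_cast h2
  have hL : (0 : ℝ) ≤ L := Nat.cast_nonneg L
  rw [max_eq_left (by linarith), max_eq_left (by linarith)]
  have e1 : (L : ℝ) ^ 2 ≤ ((p : ℝ) - L) ^ 2 := pow_le_pow_left₀ hL (by linarith) 2
  have e2 : (L : ℝ) ^ 2 ≤ (5 * (L : ℝ) - p) ^ 2 := pow_le_pow_left₀ hL (by linarith) 2
  calc (L : ℝ) ^ 4 = (L : ℝ) ^ 2 * (L : ℝ) ^ 2 := by ring
    _ ≤ _ := mul_le_mul e1 e2 (by positivity) (by positivity)

lemma wind_bd (L : ℕ) (hL : 1 ≤ L) (p : ℤ) (h1 : (L : ℤ) ≤ p) (h2 : p ≤ 5 * L) :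
    Bd3 (wind L (p - 1)) (wind L p) (wind L (p + 1)) ((6 * L : ℝ) ^ 4) (4 * (6 * L : ℝ) ^ 3)
      (12 * (6 * L : ℝ) ^ 2) := by
  have h1' : (L : ℝ) ≤ p := by exact_mod_cast h1
  have h2' : (p : ℝ) ≤ 5 * L := by exact_mod_cast h2
  have hL' : (1 : ℝ) ≤ L := by exact_mod_cast hL
  have b1 : Bd3 (ph ((p : ℝ) - L - 1)) (ph ((p : ℝ) - L)) (ph ((p : ℝ) - L + 1))
      ((6 * L : ℝ) ^ 2) (2 * (6 * L)) 2 := ph_bd (by
    rw [abs_of_nonneg (by linarith)]; linarith)
  have b2 : Bd3 (ph (5 * (L : ℝ) - p + 1)) (ph (5 * (L : ℝ) - p)) (ph (5 * (L : ℝ) - p - 1))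
      ((6 * L : ℝ) ^ 2) (2 * (6 * L)) 2 := ph_bd' (by
    rw [abs_of_nonneg (by linarith)]; linarith)
  have b := b1.mul b2
  unfold wind
  push_cast
  rw [show (p : ℝ) - 1 - L = p - L - 1 by ring, show 5 * (L : ℝ) - (p - 1) = 5 * L - p + 1 by ring,
    show (p : ℝ) + 1 - L = p - L + 1 by ring, show 5 * (L : ℝ) - (p + 1) = 5 * L - p - 1 by ring]
  convert b using 1 <;> ring

lemma wind_bd' (L : ℕ) (hL : 1 ≤ L) (p : ℤ) (h1 : (L : ℤ) ≤ p) (h2 : p ≤ 5 * L) :
    Bd3 (wind L (p + 1)) (wind L p) (wind L (p - 1)) ((6 * L : ℝ) ^ 4) (4 * (6 * L : ℝ) ^ 3)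
      (12 * (6 * L : ℝ) ^ 2) := by
  have h := wind_bd L hL p h1 h2
  exact ⟨h.a0, h.a2, h.a1, h.b2, h.b1, by rw [add_comm (wind L (p - 1))]; exact h.c0⟩

/-- The product window `w(p) w(N-p)`. -/
noncomputable def wwin (L : ℕ) (N p : ℤ) : ℝ := wind L p * wind L (N - p)

lemma wwin_second (L : ℕ) (hL : 1 ≤ L) (N p : ℤ) :
    |wwin L N (p + 1) + wwin L N (p - 1) - 2 * wwin L N p| ≤
      if (p ∈ Finset.Icc (L : ℤ) (5 * L) ∧ N - p ∈ Finset.Icc (L : ℤ) (5 * L)) then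
        56 * (6 * L : ℝ) ^ 6 else 0 := by
  split_ifs with h
  · rw [Finset.mem_Icc, Finset.mem_Icc] at h
    have b1 := wind_bd L hL p h.1.1 h.1.2
    have b2 := wind_bd' L hL (N - p) h.2.1 h.2.2
    have b := (b1.mul b2).c0
    unfold wwin
    rw [show N - (p + 1) = N - p - 1 by ring, show N - (p - 1) = N - p + 1 by ring]
    refine b.trans (le_of_eq ?_)
    ring
  · have z : ∀ x : ℤ, (x - p = 1 ∨ x - p = -1 ∨ x - p = 0) → wwin L N x = 0 := by
      intro x hx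
      unfold wwin
      simp only [Finset.mem_Icc] at h
      by_cases h1 : (x ≤ L ∨ 5 * (L : ℤ) ≤ x)
      · rw [wind_eq_zero L x h1, zero_mul]
      · have : (N - x ≤ L ∨ 5 * (L : ℤ) ≤ N - x) := by
          by_contra h2
          apply h
          push Not at h1 h2
          omega
        rw [wind_eq_zero L (N - x) this, mul_zero]
    rw [z (p + 1) (by left; ring), z (p - 1) (by right; left; ring), z p (by right; right; ring)]
    simp

end Pool.Agent.H654R3
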