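import Pool.Agent.H654R3.Paths

set_option autoImplicit false

/-!
Fourier coefficients of smooth periodic functions decay rapidly; the zeta-invariant series
converges absolutely.
-/

namespace Pool.Agent.H654R3

open MeasureTheory

/-- The `n`-th Fourier coefficient of a `2π`-periodic function. -/
noncomputable def fourC (a : ℝ → ℝ) (n : ℤ) : ℂ :=
  (1 / (2 * (Real.pi : ℂ))) * ∫ x in (0 : ℝ)..(2 * Real.pi),
    (a x : ℂ) * Complex.exp (-(Complex.I * (n : ℂ) * (x : ℂ)))

lemma fourC_star (a : ℝ → ℝ) (n : ℤ) : star (fourC a n) = fourC a (-n) := by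
  unfold fourC
  rw [star_mul']
  congr 1
  · simp
  · rw [intervalIntegral.integral_of_le (by positivity),
      intervalIntegral.integral_of_le (by positivity), Complex.star_def, ← integral_conj]
    congr 1
    funext x
    rw [map_mul, Complex.conj_ofReal, ← Complex.exp_conj]
    congr 2
    simp

lemma fourC_deriv (a : ℝ → ℝ) (ha : ContDiff ℝ (⊤ : ℕ∞) a)
    (hp : Function.Periodic a (2 * Real.pi)) (n : ℤ) :
    fourC (deriv a) n = Complex.I * n * fourC a n := by
  have hd : Differentiable ℝ a := ha.differentiable (by simp)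
  have hd' : ContDiff ℝ (⊤ : ℕ∞) (deriv a) := by
    have := (contDiff_infty_iff_deriv.mp ha).2
    exact this
  have hcont : Continuous (deriv a) := hd'.continuous
  set e : ℝ → ℂ := fun x => Complex.exp (-(Complex.I * (n : ℂ) * (x : ℂ))) with he
  have hederiv : ∀ x : ℝ, HasDerivAt e (-(Complex.I * n) * e x) x := by
    intro x
    have h1 : HasDerivAt (fun x : ℝ => -(Complex.I * (n : ℂ) * (x : ℂ))) (-(Complex.I * n)) x := by
      have h2 : HasDerivAt (fun x : ℝ => (x : ℂ)) 1 x := Complex.ofRealCLM.hasDerivAt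
      have h3 := h2.const_mul (-(Complex.I * (n : ℂ)))
      rw [mul_one] at h3
      have h4 : (fun x : ℝ => -(Complex.I * (n : ℂ) * (x : ℂ))) =
          fun y : ℝ => -(Complex.I * (n : ℂ)) * (y : ℂ) := by funext y; ring
      rw [h4]
      exact h3
    have h4 := h1.cexp
    rw [he]
    convert h4 using 1
    ring
  have hec : Continuous e := by
    rw [he]; fun_prop
  have hint := intervalIntegral.integral_deriv_mul_eq_sub (a := 0) (b := 2 * Real.pi)
    (u := fun x => ((a x : ℝ) : ℂ)) (u' := fun x => ((deriv a x : ℝ) : ℂ)) (v := e)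
    (v' := fun x => -(Complex.I * n) * e x)
    (fun x _ => (hd x).hasDerivAt.ofReal_comp) (fun x _ => hederiv x)
    ((Complex.continuous_ofReal.comp hcont).intervalIntegrable _ _)
    ((continuous_const.mul hec).intervalIntegrable _ _)
  have hend : (a (2 * Real.pi) : ℂ) * e (2 * Real.pi) - (a 0 : ℂ) * e 0 = 0 := by
    have h1 : a (2 * Real.pi) = a 0 := by
      have := hp 0
      rwa [zero_add] at this
    have h2 : e (2 * Real.pi) = 1 := by
      rw [he]
      simp only
      rw [show -(Complex.I * (n : ℂ) * ((2 * Real.pi : ℝ) : ℂ)) =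
        ((-n : ℤ) : ℂ) * (2 * Real.pi * Complex.I) by push_cast; ring]
      exact Complex.exp_int_mul_two_pi_mul_I (-n)
    have h3 : e 0 = 1 := by rw [he]; simp
    rw [h1, h2, h3]; ring
  rw [hend] at hint
  have hac : Continuous (fun x => (a x : ℂ)) := Complex.continuous_ofReal.comp hd.continuous
  have i1 : Continuous fun x : ℝ => ((deriv a x : ℝ) : ℂ) * e x :=
    (Complex.continuous_ofReal.comp hcont).mul hec
  have i2 : Continuous fun x : ℝ => (a x : ℂ) * (-(Complex.I * n) * e x) :=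
    hac.mul (continuous_const.mul hec)
  rw [intervalIntegral.integral_add (i1.intervalIntegrable _ _)
    (i2.intervalIntegrable _ _)] at hint
  have h5 : ∫ x in (0 : ℝ)..(2 * Real.pi), (a x : ℂ) * (-(Complex.I * n) * e x) =
      -(Complex.I * n) * ∫ x in (0 : ℝ)..(2 * Real.pi), (a x : ℂ) * e x := by
    rw [← intervalIntegral.integral_const_mul]
    congr 1
    funext x; ring
  rw [h5] at hint
  unfold fourC
  have h6 : ∫ x in (0 : ℝ)..(2 * Real.pi), ((deriv a x : ℝ) : ℂ) * e x =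
      Complex.I * n * ∫ x in (0 : ℝ)..(2 * Real.pi), (a x : ℂ) * e x := by
    linear_combination hint
  change (1 / (2 * (Real.pi : ℂ))) * (∫ x in (0 : ℝ)..(2 * Real.pi), ((deriv a x : ℝ) : ℂ) * e x) =
    Complex.I * n * ((1 / (2 * (Real.pi : ℂ))) * ∫ x in (0 : ℝ)..(2 * Real.pi), (a x : ℂ) * e x)
  rw [h6]; ring

lemma periodic_deriv (a : ℝ → ℝ) (hp : Function.Periodic a (2 * Real.pi)) :
    Function.Periodic (deriv a) (2 * Real.pi) := by
  intro x
  rw [← deriv_comp_add_const]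
  congr 1
  funext y
  exact hp y

lemma fourC_bound (a : ℝ → ℝ) (ha : Continuous a) : ∃ C : ℝ, 0 ≤ C ∧ ∀ n, ‖fourC a n‖ ≤ C := by
  obtain ⟨B, hB⟩ := (isCompact_Icc (a := (0 : ℝ)) (b := 2 * Real.pi)).exists_bound_of_continuousOn
    ha.continuousOn
  have hB0 : 0 ≤ B := (norm_nonneg _).trans (hB 0 ⟨le_refl _, by positivity⟩)
  refine ⟨B, hB0, fun n => ?_⟩
  unfold fourC
  rw [norm_mul]
  have h1 : ‖∫ x in (0 : ℝ)..(2 * Real.pi), (a x : ℂ) *
      Complex.exp (-(Complex.I * (n : ℂ) * (x : ℂ)))‖ ≤ B * |2 * Real.pi - 0| := by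
    apply intervalIntegral.norm_integral_le_of_norm_le_const
    intro x hx
    rw [Set.uIoc_of_le (by positivity)] at hx
    have h2 : ‖Complex.exp (-(Complex.I * (n : ℂ) * (x : ℂ)))‖ = 1 := by
      rw [show -(Complex.I * (n : ℂ) * (x : ℂ)) = ((-(n * x) : ℝ) : ℂ) * Complex.I by
        push_cast; ring]
      exact Complex.norm_exp_ofReal_mul_I _
    rw [norm_mul, h2, mul_one, Complex.norm_real]
    exact hB x ⟨hx.1.le, hx.2⟩
  have h3 : ‖(1 / (2 * (Real.pi : ℂ)))‖ = 1 / (2 * Real.pi) := by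
    rw [norm_div, norm_one, norm_mul, Complex.norm_real, Real.norm_of_nonneg Real.pi_pos.le]
    norm_num
  rw [h3]
  rw [sub_zero, abs_of_pos (by positivity)] at h1
  calc 1 / (2 * Real.pi) * _ ≤ 1 / (2 * Real.pi) * (B * (2 * Real.pi)) :=
        mul_le_mul_of_nonneg_left h1 (by positivity)
    _ = B := by field_simp

lemma fourC_decay (r : ℕ) : ∀ a : ℝ → ℝ, ContDiff ℝ (⊤ : ℕ∞) a →
    Function.Periodic a (2 * Real.pi) →
    ∃ C : ℝ, 0 ≤ C ∧ ∀ n : ℤ, |(n : ℝ)| ^ r * ‖fourC a n‖ ≤ C := by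
  induction r with
  | zero =>
    intro a ha _
    obtain ⟨C, h0, h⟩ := fourC_bound a ha.continuous
    exact ⟨C, h0, fun n => by simpa using h n⟩
  | succ r ih =>
    intro a ha hp
    obtain ⟨C, h0, h⟩ := ih (deriv a) (contDiff_infty_iff_deriv.mp ha).2 (periodic_deriv a hp)
    refine ⟨C, h0, fun n => ?_⟩
    have h1 := h n
    rw [fourC_deriv a ha hp, norm_mul, norm_mul, Complex.norm_I, one_mul,
      Complex.norm_intCast] at h1
    rw [pow_succ]
    calc |(n : ℝ)| ^ r * |(n : ℝ)| * ‖fourC a n‖ = |(n : ℝ)| ^ r * (|(n : ℝ)| * ‖fourC a n‖) := by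
          ring
      _ ≤ C := h1

lemma summable_fourC (a : ℝ → ℝ) (ha : ContDiff ℝ (⊤ : ℕ∞) a)
    (hp : Function.Periodic a (2 * Real.pi)) (s : ℕ) :
    Summable fun n : ℤ => (1 + |(n : ℝ)|) ^ s * ‖fourC a n‖ := by
  obtain ⟨C0, hC0, h0⟩ := fourC_decay 0 a ha hp
  obtain ⟨C1, hC1, h1⟩ := fourC_decay (s + 2) a ha hp
  set K : ℝ := 2 ^ (s + 2) * (C0 + C1) with hK
  have hbound : ∀ n : ℤ, (1 + |(n : ℝ)|) ^ (s + 2) * ‖fourC a n‖ ≤ K := by
    intro n
    have h2 : (1 + |(n : ℝ)|) ^ (s + 2) ≤ 2 ^ (s + 2) * (1 + |(n : ℝ)| ^ (s + 2)) := by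
      have h3 := add_pow_le (zero_le_one) (abs_nonneg (n : ℝ)) (s + 2)
      rw [one_pow] at h3
      refine h3.trans ?_
      apply mul_le_mul_of_nonneg_right _ (by positivity)
      exact pow_le_pow_right₀ (by norm_num) (by omega)
    have h3 := h0 n
    have h4 := h1 n
    rw [pow_zero, one_mul] at h3
    calc (1 + |(n : ℝ)|) ^ (s + 2) * ‖fourC a n‖
        ≤ (2 ^ (s + 2) * (1 + |(n : ℝ)| ^ (s + 2))) * ‖fourC a n‖ :=
          mul_le_mul_of_nonneg_right h2 (norm_nonneg _)
      _ = 2 ^ (s + 2) * (‖fourC a n‖ + |(n : ℝ)| ^ (s + 2) * ‖fourC a n‖) := by ring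
      _ ≤ K := by
          rw [hK]
          apply mul_le_mul_of_nonneg_left _ (by positivity)
          linarith
  have hK0 : 0 ≤ K := by rw [hK]; positivity
  have hsum : Summable fun n : ℤ => K * (1 / (n : ℝ) ^ 2 + if n = 0 then 1 else 0) := by
    apply Summable.mul_left
    apply Summable.add (Real.summable_one_div_int_pow.mpr (by norm_num))
    apply summable_of_ne_finset_zero (s := {0})
    intro n hn
    rw [Finset.mem_singleton] at hn
    rw [if_neg hn]
  refine Summable.of_nonneg_of_le (fun n => by positivity) (fun n => ?_) hsum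
  have h5 := hbound n
  have h6 : (1 : ℝ) / (1 + |(n : ℝ)|) ^ 2 ≤ 1 / (n : ℝ) ^ 2 + if n = 0 then 1 else 0 := by
    by_cases hn : n = 0
    · subst hn; simp
    · rw [if_neg hn, add_zero]
      have hn' : (n : ℝ) ≠ 0 := by exact_mod_cast hn
      apply one_div_le_one_div_of_le (by positivity)
      rw [← sq_abs (n : ℝ)]
      exact pow_le_pow_left₀ (abs_nonneg _) (by linarith) 2
  calc (1 + |(n : ℝ)|) ^ s * ‖fourC a n‖
      = ((1 + |(n : ℝ)|) ^ (s + 2) * ‖fourC a n‖) * (1 / (1 + |(n : ℝ)|) ^ 2) := by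
        rw [pow_add]; field_simp
    _ ≤ K * (1 / (1 + |(n : ℝ)|) ^ 2) := mul_le_mul_of_nonneg_right h5 (by positivity)
    _ ≤ _ := mul_le_mul_of_nonneg_left h6 hK0

lemma summable_pi_prod (g : ℤ → ℝ) (hg : ∀ n, 0 ≤ g n) (hs : Summable g) (m : ℕ) :
    Summable fun j : Fin m → ℤ => ∏ i, g (j i) := by
  classical
  apply summable_of_sum_le (c := (∑' n, g n) ^ m)
  · intro j
    exact Finset.prod_nonneg fun i _ => hg _
  · intro u
    have hsub : u ⊆ Fintype.piFinset (fun i => u.image (fun j => j i)) := by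
      intro j hj
      rw [Fintype.mem_piFinset]
      intro i
      exact Finset.mem_image_of_mem (fun j : Fin m → ℤ => j i) hj
    calc ∑ j ∈ u, ∏ i, g (j i)
        ≤ ∑ j ∈ Fintype.piFinset (fun i => u.image (fun j => j i)), ∏ i, g (j i) :=
          Finset.sum_le_sum_of_subset_of_nonneg hsub
            (fun j _ _ => Finset.prod_nonneg fun i _ => hg _)
      _ = ∏ i : Fin m, ∑ n ∈ u.image (fun j => j i), g n := (Finset.prod_univ_sum _ _).symm
      _ ≤ ∏ _i : Fin m, ∑' n, g n :=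
          Finset.prod_le_prod (fun i _ => Finset.sum_nonneg fun n _ => hg n)
            (fun i _ => hs.sum_le_tsum _ (fun n _ => hg n))
      _ = (∑' n, g n) ^ m := by simp

lemma one_add_sum_le_prod {ι : Type*} (s : Finset ι) (x : ι → ℝ) (hx : ∀ i, 0 ≤ x i) :
    1 + ∑ i ∈ s, x i ≤ ∏ i ∈ s, (1 + x i) := by
  classical
  induction s using Finset.induction_on with
  | empty => simp
  | insert i s hi ih =>
    rw [Finset.sum_insert hi, Finset.prod_insert hi]
    have h1 : 0 ≤ ∑ i ∈ s, x i := Finset.sum_nonneg fun i _ => hx i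
    have h2 := mul_le_mul_of_nonneg_left ih (show 0 ≤ 1 + x i by linarith [hx i])
    nlinarith [mul_nonneg (hx i) h1]

end Pool.Agent.H654R3
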