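import Pool.Agent.H654R3.Chain

set_option autoImplicit false

/-!
Lower bound of the defect by the Schatten type quantity `∑ |d_i|^k` where `d_i` are the
eigenvalues of `D = A² - H A² H`.
-/

namespace Pool.Agent.H654R3

open Matrix

variable {n : Type*} [Fintype n] [DecidableEq n]

lemma pow_of_decomp (K V : Matrix n n ℂ) (e : n → ℂ) (hVV : V * star V = 1)
    (hVV' : star V * V = 1) (h : K = V * diagonal e * star V) (m : ℕ) :
    K ^ m = V * diagonal (fun j => e j ^ m) * star V := by
  subst h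
  induction m with
  | zero => simp [hVV]
  | succ m ih =>
    rw [pow_succ, ih]
    rw [show V * diagonal (fun j => e j ^ m) * star V * (V * diagonal e * star V) =
      V * diagonal (fun j => e j ^ m) * (star V * V) * diagonal e * star V by
        simp only [mul_assoc]]
    rw [hVV', mul_one, mul_assoc V, diagonal_mul_diagonal]
    simp only [pow_succ]

/-- Diagonal entries of powers of a Hermitian matrix through its eigenvalues. -/
lemma diag_pow_eq (K : Matrix n n ℂ) (hK : K.IsHermitian) (m : ℕ) (i : n) :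
    (K ^ m) i i = ((∑ j, ‖(hK.eigenvectorUnitary : Matrix n n ℂ) i j‖ ^ 2 *
      hK.eigenvalues j ^ m : ℝ) : ℂ) := by
  set V := (hK.eigenvectorUnitary : Matrix n n ℂ) with hV
  have hVV : V * star V = 1 := Unitary.mul_star_self_of_mem hK.eigenvectorUnitary.2
  have hVV' : star V * V = 1 := Unitary.star_mul_self_of_mem hK.eigenvectorUnitary.2
  have hspec : K = V * diagonal (fun j => (hK.eigenvalues j : ℂ)) * star V := by
    have := hK.spectral_theorem
    simpa [Unitary.conjStarAlgAut_apply, Function.comp_def] using this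
  have hpow : K ^ m = V * diagonal (fun j => (hK.eigenvalues j : ℂ) ^ m) * star V :=
    pow_of_decomp K V _ hVV hVV' hspec m
  rw [hpow, mul_apply]
  push_cast
  refine Finset.sum_congr rfl fun j _ => ?_
  rw [mul_diagonal, star_apply]
  have : V i j * star (V i j) = ((‖V i j‖ ^ 2 : ℝ) : ℂ) := by
    rw [Complex.star_def, Complex.mul_conj, Complex.normSq_eq_norm_sq]
  calc V i j * (hK.eigenvalues j : ℂ) ^ m * star (V i j)
      = (V i j * star (V i j)) * (hK.eigenvalues j : ℂ) ^ m := by ring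
    _ = _ := by rw [this]; push_cast; ring

lemma sum_norm_sq_unitary (K : Matrix n n ℂ) (hK : K.IsHermitian) (i : n) :
    ∑ j, ‖(hK.eigenvectorUnitary : Matrix n n ℂ) i j‖ ^ 2 = 1 := by
  have h := diag_pow_eq K hK 0 i
  simp only [pow_zero, one_apply_eq, mul_one] at h
  exact_mod_cast h.symm

/-- Jensen for the diagonal entries of even powers. -/
lemma diag_sq_pow_le (K : Matrix n n ℂ) (hK : K.IsHermitian) (m : ℕ) (i : n) :
    ((K ^ 2) i i).re ^ m ≤ ((K ^ (2 * m)) i i).re := by
  rw [diag_pow_eq K hK, diag_pow_eq K hK, Complex.ofReal_re, Complex.ofReal_re]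
  have := Real.pow_arith_mean_le_arith_mean_pow Finset.univ
    (fun j => ‖(hK.eigenvectorUnitary : Matrix n n ℂ) i j‖ ^ 2)
    (fun j => hK.eigenvalues j ^ 2) (fun j _ => by positivity)
    (sum_norm_sq_unitary K hK i) (fun j _ => by positivity) m
  simpa only [pow_mul] using this

lemma diag_sq_nonneg (K : Matrix n n ℂ) (hK : K.IsHermitian) (i : n) :
    0 ≤ ((K ^ 2) i i).re := by
  rw [diag_pow_eq K hK, Complex.ofReal_re]
  positivity

/-- Noncommutative telescoping. -/
lemma pow_sub_pow_nc (S T : Matrix n n ℂ) (m : ℕ) :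
    S ^ m - T ^ m = ∑ j ∈ Finset.range m, S ^ j * (S - T) * T ^ (m - 1 - j) := by
  induction m with
  | zero => simp
  | succ m ih =>
    have h : S ^ (m + 1) - T ^ (m + 1) = S * (S ^ m - T ^ m) + (S - T) * T ^ m := by
      rw [pow_succ', pow_succ']; noncomm_ring
    rw [h, ih, Finset.sum_range_succ', Finset.mul_sum]
    congr 1
    · refine Finset.sum_congr rfl fun j hj => ?_
      have : m + 1 - 1 - (j + 1) = m - 1 - j := by omega
      rw [this, pow_succ' S j]
      simp only [mul_assoc]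
    · simp

lemma conj_pow (A H : Matrix n n ℂ) (hHH : H * H = 1) (m : ℕ) :
    (H * A * H) ^ m = H * A ^ m * H := by
  induction m with
  | zero => simp [hHH]
  | succ m ih =>
    rw [pow_succ, ih, pow_succ]
    calc H * A ^ m * H * (H * A * H) = H * A ^ m * (H * H) * A * H := by simp only [mul_assoc]
      _ = _ := by rw [hHH, mul_one]; simp only [mul_assoc]

/-- Each term of the telescoped sum has nonnegative trace. -/
lemma term_nonneg (A B D : Matrix n n ℂ) (hA : A.IsHermitian) (hB : B.IsHermitian)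
    (hD : D.IsHermitian) (j l : ℕ) :
    0 ≤ (trace (D * (A ^ (2 * j) * D * B ^ (2 * l)))).re := by
  have h : trace (D * (A ^ (2 * j) * D * B ^ (2 * l))) =
      trace ((B ^ l * D * A ^ j) * (B ^ l * D * A ^ j)ᴴ) := by
    rw [conjTranspose_mul, conjTranspose_mul, (hA.pow j).eq, hD.eq, (hB.pow l).eq, two_mul,
      two_mul, pow_add, pow_add]
    calc trace (D * (A ^ j * A ^ j * D * (B ^ l * B ^ l)))
        = trace ((D * (A ^ j * A ^ j * D * B ^ l)) * B ^ l) := by simp only [mul_assoc]
      _ = trace (B ^ l * (D * (A ^ j * A ^ j * D * B ^ l))) := trace_mul_comm _ _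
      _ = _ := by simp only [mul_assoc]
  rw [h]
  exact trace_mul_conj_nonneg _

lemma trace_diff_lower (A B : Matrix n n ℂ) (hA : A.IsHermitian) (hB : B.IsHermitian) (m : ℕ) :
    (trace ((A ^ 2 - B ^ 2) * A ^ (2 * m) * (A ^ 2 - B ^ 2))).re ≤
      (trace ((A ^ 2 - B ^ 2) * ((A ^ 2) ^ (m + 1) - (B ^ 2) ^ (m + 1)))).re := by
  have hD : (A ^ 2 - B ^ 2).IsHermitian := (hA.pow 2).sub (hB.pow 2)
  rw [pow_sub_pow_nc (A ^ 2) (B ^ 2), Finset.mul_sum, trace_sum, Complex.re_sum,
    Finset.sum_range_succ]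
  have h0 : 0 ≤ ∑ x ∈ Finset.range m, (trace ((A ^ 2 - B ^ 2) *
      ((A ^ 2) ^ x * (A ^ 2 - B ^ 2) * (B ^ 2) ^ (m + 1 - 1 - x)))).re := by
    refine Finset.sum_nonneg fun x _ => ?_
    rw [← pow_mul, ← pow_mul]
    exact term_nonneg A B _ hA hB hD _ _
  have h1 : m + 1 - 1 - m = 0 := by omega
  rw [h1, pow_zero, mul_one, ← pow_mul, ← mul_assoc]
  linarith

lemma trace_diff_lower' (A B : Matrix n n ℂ) (hA : A.IsHermitian) (hB : B.IsHermitian) (m : ℕ) :
    (trace ((A ^ 2 - B ^ 2) * B ^ (2 * m) * (A ^ 2 - B ^ 2))).re ≤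
      (trace ((A ^ 2 - B ^ 2) * ((A ^ 2) ^ (m + 1) - (B ^ 2) ^ (m + 1)))).re := by
  have h := trace_diff_lower B A hB hA m
  have e1 : trace ((B ^ 2 - A ^ 2) * B ^ (2 * m) * (B ^ 2 - A ^ 2)) =
      trace ((A ^ 2 - B ^ 2) * B ^ (2 * m) * (A ^ 2 - B ^ 2)) := by
    congr 1; noncomm_ring
  have e2 : trace ((B ^ 2 - A ^ 2) * ((B ^ 2) ^ (m + 1) - (A ^ 2) ^ (m + 1))) =
      trace ((A ^ 2 - B ^ 2) * ((A ^ 2) ^ (m + 1) - (B ^ 2) ^ (m + 1))) := by
    rw [← neg_sub (A ^ 2), ← neg_sub ((A ^ 2) ^ (m + 1)), neg_mul_neg]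
  rw [e1, e2] at h
  exact h

/-- The trace of `D X D` in the eigenbasis of `D`. -/
lemma trace_DXD (D X : Matrix n n ℂ) (hD : D.IsHermitian) :
    trace (D * X * D) = ∑ i, ((hD.eigenvalues i ^ 2 : ℝ) : ℂ) *
      (star (hD.eigenvectorUnitary : Matrix n n ℂ) * X *
        (hD.eigenvectorUnitary : Matrix n n ℂ)) i i := by
  set V := (hD.eigenvectorUnitary : Matrix n n ℂ) with hV
  have hVV' : star V * V = 1 := Unitary.star_mul_self_of_mem hD.eigenvectorUnitary.2
  have hspec : D = V * diagonal (fun j => (hD.eigenvalues j : ℂ)) * star V := by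
    have := hD.spectral_theorem
    simpa [Unitary.conjStarAlgAut_apply, Function.comp_def] using this
  set E := diagonal (fun j => (hD.eigenvalues j : ℂ)) with hE
  have h1 : trace (D * X * D) = trace (E * (star V * X * V) * E) := by
    calc trace (D * X * D) = trace (V * (E * (star V * X * V) * E * star V)) := by
          conv_lhs => rw [hspec]
          simp only [mul_assoc]
      _ = trace ((E * (star V * X * V) * E * star V) * V) := trace_mul_comm _ _
      _ = trace (E * (star V * X * V) * E * (star V * V)) := by simp only [mul_assoc]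
      _ = _ := by rw [hVV', mul_one]
  rw [h1]
  simp only [trace, diag_apply]
  refine Finset.sum_congr rfl fun i _ => ?_
  rw [hE, mul_diagonal, diagonal_mul]
  push_cast
  ring

lemma conj_unitary_pow (V A : Matrix n n ℂ) (hVV' : star V * V = 1) (hVV : V * star V = 1)
    (m : ℕ) : star V * A ^ m * V = (star V * A * V) ^ m := by
  induction m with
  | zero => simp [hVV']
  | succ m ih =>
    rw [pow_succ (star V * A * V), ← ih, pow_succ]
    calc star V * (A ^ m * A) * V = star V * A ^ m * 1 * A * V := by simp only [mul_assoc, one_mul]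
      _ = star V * A ^ m * (V * star V) * A * V := by rw [hVV]
      _ = _ := by simp only [mul_assoc]

lemma abs_sub_pow_le (s t : ℝ) (hs : 0 ≤ s) (ht : 0 ≤ t) (m : ℕ) :
    |s - t| ^ m ≤ s ^ m + t ^ m := by
  rcases le_total s t with h | h
  · rw [abs_of_nonpos (by linarith)]
    have : (-(s - t)) ^ m ≤ t ^ m := pow_le_pow_left₀ (by linarith) (by linarith) m
    have := pow_nonneg hs m
    linarith
  · rw [abs_of_nonneg (by linarith)]
    have : (s - t) ^ m ≤ s ^ m := pow_le_pow_left₀ (by linarith) (by linarith) m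
    have := pow_nonneg ht m
    linarith

/-- `∑ |d_i|^{m+2} ≤ 2 Tr ((S-T)(S^{m+1}-T^{m+1}))` for `S = A²`, `T = B²`. -/
theorem schatten_lower (A B : Matrix n n ℂ) (hA : A.IsHermitian) (hB : B.IsHermitian)
    (hD : (A ^ 2 - B ^ 2).IsHermitian) (m : ℕ) :
    ∑ i, |hD.eigenvalues i| ^ (m + 2) ≤
      2 * (trace ((A ^ 2 - B ^ 2) * ((A ^ 2) ^ (m + 1) - (B ^ 2) ^ (m + 1)))).re := by
  have h1 := trace_diff_lower A B hA hB m
  have h2 := trace_diff_lower' A B hA hB m
  rw [trace_DXD _ _ hD, Complex.re_sum] at h1 h2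
  set V := (hD.eigenvectorUnitary : Matrix n n ℂ) with hV
  have hVV : V * star V = 1 := Unitary.mul_star_self_of_mem hD.eigenvectorUnitary.2
  have hVV' : star V * V = 1 := Unitary.star_mul_self_of_mem hD.eigenvectorUnitary.2
  rw [conj_unitary_pow V A hVV' hVV] at h1
  rw [conj_unitary_pow V B hVV' hVV] at h2
  set K := star V * A * V with hK
  set K' := star V * B * V with hK'
  have hKh : K.IsHermitian := by
    rw [hK, IsHermitian, conjTranspose_mul, conjTranspose_mul, hA.eq, star_eq_conjTranspose,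
      conjTranspose_conjTranspose, mul_assoc]
  have hKh' : K'.IsHermitian := by
    rw [hK', IsHermitian, conjTranspose_mul, conjTranspose_mul, hB.eq, star_eq_conjTranspose,
      conjTranspose_conjTranspose, mul_assoc]
  have hdiag : ∀ i, hD.eigenvalues i = ((K ^ 2) i i).re - ((K' ^ 2) i i).re := by
    intro i
    have hspec : (A ^ 2 - B ^ 2) = V * diagonal (fun j => (hD.eigenvalues j : ℂ)) * star V := by
      have := hD.spectral_theorem
      simpa [Unitary.conjStarAlgAut_apply, Function.comp_def] using this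
    generalize hD.eigenvalues = e at hspec ⊢
    have h3 : K ^ 2 - K' ^ 2 = diagonal (fun j => (e j : ℂ)) := by
      rw [hK, hK', ← conj_unitary_pow V A hVV' hVV, ← conj_unitary_pow V B hVV' hVV,
        ← sub_mul, ← mul_sub, hspec]
      calc star V * (V * diagonal (fun j => (e j : ℂ)) * star V) * V
          = (star V * V) * diagonal (fun j => (e j : ℂ)) * (star V * V) := by
            simp only [mul_assoc]
        _ = _ := by rw [hVV', one_mul, mul_one]
    have h4 := congrArg (fun M => (M i i).re) h3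
    simp only [Matrix.sub_apply, Complex.sub_re, diagonal_apply_eq, Complex.ofReal_re] at h4
    linarith
  have key : ∀ i, |hD.eigenvalues i| ^ (m + 2) ≤
      (((hD.eigenvalues i ^ 2 : ℝ) : ℂ) * (K ^ (2 * m)) i i).re +
      (((hD.eigenvalues i ^ 2 : ℝ) : ℂ) * (K' ^ (2 * m)) i i).re := by
    intro i
    rw [Complex.re_ofReal_mul, Complex.re_ofReal_mul, ← mul_add]
    have j1 := diag_sq_pow_le K hKh m i
    have j2 := diag_sq_pow_le K' hKh' m i
    have j3 := abs_sub_pow_le _ _ (diag_sq_nonneg K hKh i) (diag_sq_nonneg K' hKh' i) m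
    rw [← hdiag i] at j3
    rw [pow_add, sq_abs, mul_comm]
    apply mul_le_mul_of_nonneg_left _ (by positivity)
    linarith
  calc ∑ i, |hD.eigenvalues i| ^ (m + 2) ≤ ∑ i, ((((hD.eigenvalues i ^ 2 : ℝ) : ℂ) *
        (K ^ (2 * m)) i i).re + (((hD.eigenvalues i ^ 2 : ℝ) : ℂ) * (K' ^ (2 * m)) i i).re) :=
        Finset.sum_le_sum fun i _ => key i
    _ ≤ _ := by rw [Finset.sum_add_distrib]; linarith

end Pool.Agent.H654R3
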